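import Pool.Agent.Work.MP_0f91f8_co.Quad.Dual

/-!
Twisted Bohr recurrence of a set of pairs implies recurrence for quadratic functions with values in
a torus.
-/

namespace Pool.Agent.Work.MP_0f91f8_co.Quad

open Finset

universe u v

variable {G : Type u} [AddCommGroup G]

/-- vanishing third difference -/
def Quadr (φ : G → UnitAddCircle) : Prop :=
  ∀ a b c, φ (a + b + c) + φ a + φ b + φ c = φ (a + b) + φ (a + c) + φ (b + c) + φ 0

/-- the biadditive form of a quadratic function -/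
noncomputable def form (φ : G → UnitAddCircle) (h : Quadr φ) : G →+ G →+ UnitAddCircle :=
  AddMonoidHom.mk' (fun g => AddMonoidHom.mk' (fun x => φ (g + x) - φ g - φ x + φ 0) (by
    intro x y
    have h1 := h g x y
    rw [add_assoc] at h1
    have h2 : φ (g + (x + y)) = φ (g + x) + φ (g + y) + φ (x + y) + φ 0 - φ g - φ x - φ y := by
      rw [← h1]
      abel_nf
    rw [h2]
    abel)) (by
    intro x y
    ext z
    simp only [AddMonoidHom.mk'_apply, AddMonoidHom.add_apply]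
    have h1 := h x y z
    have h2 : φ (x + y + z) = φ (x + y) + φ (x + z) + φ (y + z) + φ 0 - φ x - φ y - φ z := by
      rw [← h1]; abel
    rw [h2]
    abel)

lemma form_apply (φ : G → UnitAddCircle) (h : Quadr φ) (x y : G) :
    form φ h x y = φ (x + y) - φ x - φ y + φ 0 := rfl

/-- integer combinations -/
def comb {ι : Type v} [Fintype ι] (φ : ι → G → UnitAddCircle) (ψ : ι → ℤ) (x : G) : UnitAddCircle :=
  ∑ i, ψ i • φ i x

lemma comb_quadr {ι : Type v} [Fintype ι] (φ : ι → G → UnitAddCircle) (hφ : ∀ i, Quadr (φ i))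
    (ψ : ι → ℤ) : Quadr (comb φ ψ) := by
  intro a b c
  unfold comb
  rw [← sum_add_distrib, ← sum_add_distrib, ← sum_add_distrib, ← sum_add_distrib,
    ← sum_add_distrib, ← sum_add_distrib]
  apply sum_congr rfl
  intro i _
  rw [← smul_add, ← smul_add, ← smul_add, ← smul_add, ← smul_add, ← smul_add, hφ i a b c]

lemma form_comb {ι : Type v} [Fintype ι] (φ : ι → G → UnitAddCircle) (hφ : ∀ i, Quadr (φ i))
    (ψ : ι → ℤ) (x y : G) :
    form (comb φ ψ) (comb_quadr φ hφ ψ) x y = ∑ i, ψ i • form (φ i) (hφ i) x y := by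
  simp only [form_apply, comb, smul_add, smul_sub, sum_add_distrib, sum_sub_distrib]

/-- a quadratic function is additive on the radical of its form and extends to a homomorphism -/
lemma exists_ext (φ : G → UnitAddCircle) (h : Quadr φ) :
    ∃ χ : G →+ UnitAddCircle, ∀ x, form φ h x = 0 → χ x = φ x - φ 0 := by
  let R : AddSubgroup G := (form φ h).ker
  let f : R →+ UnitAddCircle := AddMonoidHom.mk' (fun x => φ x - φ 0) (by
    intro x y
    have h1 : form φ h x y = 0 := by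
      have := x.2
      rw [AddMonoidHom.mem_ker] at this
      rw [this]
      rfl
    rw [form_apply] at h1
    have h2 : φ ((x : G) + y) = φ x + φ y - φ 0 := by
      rw [← sub_eq_zero, ← h1]
      abel
    rw [AddSubgroup.coe_add, h2]
    abel)
  obtain ⟨χ, hχ⟩ := (Module.Baer.of_divisible UnitAddCircle).extension_property_addMonoidHom
    R.subtype R.subtype_injective f
  refine ⟨χ, fun x hx => ?_⟩
  have hxR : x ∈ R := (AddMonoidHom.mem_ker).2 hx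
  have := DFunLike.congr_fun hχ ⟨x, hxR⟩
  exact this

lemma exists_pos_le {ι : Type*} (s : Finset ι) (r : ι → ℝ) (hr : ∀ i ∈ s, 0 < r i) :
    ∃ δ : ℝ, 0 < δ ∧ ∀ i ∈ s, δ ≤ r i := by
  classical
  induction s using Finset.induction_on with
  | empty => exact ⟨1, one_pos, by simp⟩
  | insert a s ha ih =>
    obtain ⟨δ, hδ, h⟩ := ih fun i hi => hr i (mem_insert_of_mem hi)
    refine ⟨min δ (r a), lt_min hδ (hr a (mem_insert_self _ _)), fun i hi => ?_⟩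
    rcases mem_insert.1 hi with rfl | hi
    · exact min_le_right _ _
    · exact (min_le_left _ _).trans (h i hi)

theorem abs_rec (Tr : G → G → Prop)
    (hT : ∀ 𝓕 : Set (G →+ UnitAddCircle), 𝓕.Finite → ∀ (κ : G) (δ : ℝ), 0 < δ →
      ∃ a b, Tr a b ∧ ∀ F ∈ 𝓕, ‖F a‖ < δ ∧ ‖F b - F κ‖ < δ)
    (ι : Type v) [Fintype ι] (φ : ι → G → UnitAddCircle) (hφ : ∀ i, Quadr (φ i))
    (ε : ℝ) (hε : 0 < ε) :
    ∃ a b g, Tr a b ∧ ∀ i, ‖φ i (g + a) - φ i g‖ < ε ∧ ‖φ i (g + b) - φ i g‖ < ε := by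
  classical
  obtain ⟨n, hn⟩ := exists_near.{u, v} (ι ⊕ ι) ε hε
  set Ψ : Finset (ι → ℤ) := Fintype.piFinset (fun _ => Finset.Icc (-(n : ℤ)) n) with hΨ
  have hmemΨ : ∀ ψ : ι → ℤ, (∀ i, |ψ i| ≤ n) → ψ ∈ Ψ := by
    intro ψ h
    rw [hΨ, Fintype.mem_piFinset]
    intro i
    rw [Finset.mem_Icc]
    exact abs_le.1 (h i)
  obtain ⟨B, hB⟩ : ∃ B : (ι → ℤ) → G →+ G →+ UnitAddCircle,
      B = fun ψ => form (comb φ ψ) (comb_quadr φ hφ ψ) := ⟨_, rfl⟩
  have hχex : ∀ ψ : ι → ℤ, ∃ χ : G →+ UnitAddCircle, ∀ x, B ψ x = 0 →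
      χ x = comb φ ψ x - comb φ ψ 0 := by
    intro ψ
    rw [hB]
    exact exists_ext (comb φ ψ) (comb_quadr φ hφ ψ)
  choose χ hχ using hχex
  set U₀ : Set G := {κ | ∀ ψ ∈ Ψ, ‖χ ψ κ‖ < 1 / 12} with hU₀
  have h0 : (0 : G) ∈ U₀ := by
    intro ψ _
    rw [map_zero, norm_zero]
    norm_num
  set nc : G → ℕ := fun κ => (Ψ.filter (fun ψ => B ψ κ = 0)).card with hnc
  obtain ⟨κ, hκ, hmin⟩ : ∃ κ ∈ U₀, ∀ κ' ∈ U₀, nc κ ≤ nc κ' := by
    obtain ⟨κ, hκ, h⟩ := (measure nc).wf.has_min U₀ ⟨0, h0⟩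
    exact ⟨κ, hκ, fun κ' hκ' => not_lt.1 (h κ' hκ')⟩
  have hkex : ∀ ψ, ∃ k, B ψ κ ≠ 0 → B ψ κ k ≠ 0 := by
    intro ψ
    by_cases h : B ψ κ = 0
    · exact ⟨0, fun h' => absurd h h'⟩
    · by_contra hcon
      push Not at hcon
      exact h (by ext x; simpa using (hcon x).2)
  choose k hk using hkex
  obtain ⟨δ, hδ, hδle⟩ := exists_pos_le Ψ (fun ψ => min (1 / 12 - ‖χ ψ κ‖)
    (if B ψ κ = 0 then 1 else ‖B ψ κ (k ψ)‖ / 2)) (by
      intro ψ hψ
      apply lt_min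
      · have := hκ ψ hψ
        linarith
      · split_ifs with h
        · exact one_pos
        · have := norm_pos_iff.2 (hk ψ h)
          linarith)
  have hδχ : ∀ ψ ∈ Ψ, δ ≤ 1 / 12 - ‖χ ψ κ‖ := fun ψ hψ => (hδle ψ hψ).trans (min_le_left _ _)
  have hδk : ∀ ψ ∈ Ψ, B ψ κ ≠ 0 → 2 * δ ≤ ‖B ψ κ (k ψ)‖ := by
    intro ψ hψ h
    have := (hδle ψ hψ).trans (min_le_right _ _)
    rw [if_neg h] at this
    linarith
  -- the test homomorphisms
  set 𝓕 : Set (G →+ UnitAddCircle) := (χ '' (Ψ : Set (ι → ℤ))) ∪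
    ((fun p : (ι → ℤ) × (ι → ℤ) => (B p.1).flip (k p.2)) ''
      ((Ψ ×ˢ Ψ : Finset _) : Set ((ι → ℤ) × (ι → ℤ)))) with h𝓕
  have h𝓕fin : 𝓕.Finite := ((Finset.finite_toSet _).image _).union ((Finset.finite_toSet _).image _)
  obtain ⟨a, b, hab, hF⟩ := hT 𝓕 h𝓕fin κ δ hδ
  have hFχ : ∀ ψ ∈ Ψ, ‖χ ψ a‖ < δ ∧ ‖χ ψ b - χ ψ κ‖ < δ := fun ψ hψ =>
    hF _ (Or.inl ⟨ψ, hψ, rfl⟩)
  have hFk : ∀ ψ ∈ Ψ, ∀ ψ' ∈ Ψ, ‖B ψ a (k ψ')‖ < δ ∧ ‖B ψ b (k ψ') - B ψ κ (k ψ')‖ < δ := by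
    intro ψ hψ ψ' hψ'
    have h1 : (B ψ).flip (k ψ') ∈ 𝓕 := by
      refine Or.inr ⟨(ψ, ψ'), ?_, rfl⟩
      rw [Finset.mem_coe, Finset.mem_product]
      exact ⟨hψ, hψ'⟩
    have h2 := hF _ h1
    simp only [AddMonoidHom.flip_apply] at h2
    exact h2
  have hbU : b ∈ U₀ := by
    intro ψ hψ
    have h1 := (hFχ ψ hψ).2
    have h2 := hδχ ψ hψ
    have h3 : ‖χ ψ b‖ ≤ ‖χ ψ b - χ ψ κ‖ + ‖χ ψ κ‖ := by
      have := norm_add_le (χ ψ b - χ ψ κ) (χ ψ κ)
      rwa [sub_add_cancel] at this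
    linarith
  have hsub : Ψ.filter (fun ψ => B ψ b = 0) ⊆ Ψ.filter (fun ψ => B ψ κ = 0) := by
    intro ψ hψ
    rw [Finset.mem_filter] at hψ ⊢
    refine ⟨hψ.1, ?_⟩
    by_contra hne
    have h1 := (hFk ψ hψ.1 ψ hψ.1).2
    rw [hψ.2, AddMonoidHom.zero_apply, zero_sub, norm_neg] at h1
    have h2 := hδk ψ hψ.1 hne
    linarith
  have heq : Ψ.filter (fun ψ => B ψ b = 0) = Ψ.filter (fun ψ => B ψ κ = 0) :=
    Finset.eq_of_subset_of_card_le hsub (hmin b hbU)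
  obtain ⟨g, hg⟩ := hn G (fun j => Sum.elim (fun i => form (φ i) (hφ i) a)
    (fun i => form (φ i) (hφ i) b) j)
    (fun j => Sum.elim (fun i => -(φ i a - φ i 0)) (fun i => -(φ i b - φ i 0)) j) (by
    intro ψ hψ hψ0
    have h1 : ψ ∘ Sum.inl ∈ Ψ := hmemΨ _ fun i => hψ _
    have h2 : ψ ∘ Sum.inr ∈ Ψ := hmemΨ _ fun i => hψ _
    have h3 : ∀ g, B (ψ ∘ Sum.inl) a g + B (ψ ∘ Sum.inr) b g = 0 := by
      intro g
      have := hψ0 g
      rw [Fintype.sum_sum_type] at this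
      simp only [Sum.elim_inl, Sum.elim_inr] at this
      rw [hB]
      simp only
      rw [form_comb φ hφ, form_comb φ hφ]
      exact this
    rw [Fintype.sum_sum_type]
    simp only [Sum.elim_inl, Sum.elim_inr, smul_neg, Finset.sum_neg_distrib, smul_sub,
      Finset.sum_sub_distrib]
    by_cases hκ2 : B (ψ ∘ Sum.inr) κ = 0
    · have hb2 : B (ψ ∘ Sum.inr) b = 0 := by
        have : ψ ∘ Sum.inr ∈ Ψ.filter (fun ψ => B ψ b = 0) := by
          rw [heq, Finset.mem_filter]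
          exact ⟨h2, hκ2⟩
        exact (Finset.mem_filter.1 this).2
      have ha1 : B (ψ ∘ Sum.inl) a = 0 := by
        ext g
        have := h3 g
        rw [hb2, AddMonoidHom.zero_apply, add_zero] at this
        rw [this]
        rfl
      have h4 := hχ _ _ ha1
      have h5 := hχ _ _ hb2
      have h6 := (hFχ _ h1).1
      have h7 := hbU _ h2
      have h8 := hδχ _ h1
      have h9 := norm_nonneg (χ (ψ ∘ Sum.inl) κ)
      rw [h4] at h6
      rw [h5] at h7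
      have h10 := norm_add_le (-(comb φ (ψ ∘ Sum.inl) a - comb φ (ψ ∘ Sum.inl) 0))
        (-(comb φ (ψ ∘ Sum.inr) b - comb φ (ψ ∘ Sum.inr) 0))
      rw [norm_neg, norm_neg] at h10
      refine h10.trans ?_
      linarith
    · exfalso
      have h4 := h3 (k (ψ ∘ Sum.inr))
      have h5 := (hFk _ h1 _ h2).1
      have h6 := (hFk _ h2 _ h2).2
      have h7 := hδk _ h2 hκ2
      have h8 : ‖B (ψ ∘ Sum.inr) b (k (ψ ∘ Sum.inr))‖ < δ := by
        rw [eq_neg_of_add_eq_zero_right h4, norm_neg]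
        exact h5
      have h9 : ‖B (ψ ∘ Sum.inr) κ (k (ψ ∘ Sum.inr))‖ ≤
          ‖B (ψ ∘ Sum.inr) b (k (ψ ∘ Sum.inr))‖ +
          ‖B (ψ ∘ Sum.inr) b (k (ψ ∘ Sum.inr)) - B (ψ ∘ Sum.inr) κ (k (ψ ∘ Sum.inr))‖ := by
        have := norm_sub_le (B (ψ ∘ Sum.inr) b (k (ψ ∘ Sum.inr)))
          (B (ψ ∘ Sum.inr) b (k (ψ ∘ Sum.inr)) - B (ψ ∘ Sum.inr) κ (k (ψ ∘ Sum.inr)))
        rwa [sub_sub_cancel] at this
      linarith)
  refine ⟨a, b, g, hab, fun i => ⟨?_, ?_⟩⟩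
  · have h1 := hg (Sum.inl i)
    simp only [Sum.elim_inl, form_apply] at h1
    have h2 : -(φ i a - φ i 0) - (φ i (a + g) - φ i a - φ i g + φ i 0) =
        -(φ i (g + a) - φ i g) := by
      rw [add_comm a g]
      abel
    rwa [h2, norm_neg] at h1
  · have h1 := hg (Sum.inr i)
    simp only [Sum.elim_inr, form_apply] at h1
    have h2 : -(φ i b - φ i 0) - (φ i (b + g) - φ i b - φ i g + φ i 0) =
        -(φ i (g + b) - φ i g) := by
      rw [add_comm b g]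
      abel
    rwa [h2, norm_neg] at h1

end Pool.Agent.Work.MP_0f91f8_co.Quad
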