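import Mathlib

/-!
A finite form of duality for subgroups of tori: if every character of bounded degree which is
trivial on the image of `θ` is small at `v`, then `θ` comes close to `v`.
-/

namespace Pool.Agent.Work.MP_0f91f8_co.Quad

open Finset

/-- the exponential of a point of the circle group, as a complex number -/
noncomputable def ee (x : UnitAddCircle) : ℂ := (AddCircle.toCircle x : ℂ)

lemma ee_add (x y : UnitAddCircle) : ee (x + y) = ee x * ee y := by
  unfold ee
  rw [AddCircle.toCircle_add]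
  rfl

lemma ee_zero : ee 0 = 1 := by
  unfold ee
  rw [AddCircle.toCircle_zero]
  rfl

lemma norm_ee (x : UnitAddCircle) : ‖ee x‖ = 1 := by
  unfold ee
  exact Circle.norm_coe _

lemma ee_neg (x : UnitAddCircle) : ee (-x) = (starRingEnd ℂ) (ee x) := by
  unfold ee
  rw [AddCircle.toCircle_neg]
  exact Circle.coe_inv_eq_conj _

lemma ee_sum {ι : Type*} (s : Finset ι) (x : ι → UnitAddCircle) :
    ee (∑ i ∈ s, x i) = ∏ i ∈ s, ee (x i) := by
  classical
  induction s using Finset.induction_on with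
  | empty => simp [ee_zero]
  | insert a s ha ih => rw [sum_insert ha, prod_insert ha, ee_add, ih]

lemma ee_nsmul (n : ℕ) (x : UnitAddCircle) : ee (n • x) = ee x ^ n := by
  induction n with
  | zero => simp [ee_zero]
  | succ n ih => rw [succ_nsmul, ee_add, ih, pow_succ]

lemma exists_lift (x : UnitAddCircle) : ∃ y : ℝ, (y : UnitAddCircle) = x ∧ |y| = ‖x‖ ∧
    |y| ≤ 1 / 2 := by
  obtain ⟨z, rfl⟩ := QuotientAddGroup.mk_surjective x
  refine ⟨z - round z, ?_, ?_, abs_sub_round z⟩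
  · rw [QuotientAddGroup.eq]
    rw [AddSubgroup.mem_zmultiples_iff]
    refine ⟨round z, ?_⟩
    simp
  · exact (UnitAddCircle.norm_eq (x := z)).symm

lemma ee_coe (y : ℝ) : ee (y : UnitAddCircle) = Complex.exp (2 * Real.pi * y * Complex.I) := by
  unfold ee
  rw [AddCircle.toCircle_apply_mk]
  simp [Circle.coe_exp]

lemma ee_re (x : UnitAddCircle) : (ee x).re = Real.cos (2 * Real.pi * ‖x‖) := by
  obtain ⟨y, rfl, hy, -⟩ := exists_lift x
  rw [ee_coe, ← hy]
  have h1 : (2 * Real.pi * y * Complex.I : ℂ) = ((2 * Real.pi * y : ℝ) : ℂ) * Complex.I := by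
    push_cast
    ring
  rw [h1, Complex.exp_ofReal_mul_I_re]
  rcases abs_cases y with ⟨h, -⟩ | ⟨h, -⟩
  · rw [h]
  · rw [h, ← Real.cos_neg]
    congr 1
    ring

lemma norm_le_half (x : UnitAddCircle) : ‖x‖ ≤ 1 / 2 := by
  obtain ⟨y, -, hy, h⟩ := exists_lift x
  rw [← hy]
  exact h

/-- the value of the exponential determines the point -/
lemma ee_eq_one {x : UnitAddCircle} (h : ee x = 1) : x = 0 := by
  have h1 : AddCircle.toCircle x = AddCircle.toCircle (0 : UnitAddCircle) := by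
    apply Circle.ext
    rw [AddCircle.toCircle_zero]
    exact h
  exact AddCircle.injective_toCircle one_ne_zero h1

variable {Γ : Type*} [AddCommGroup Γ]

/-- averages killing finitely many nontrivial characters -/
lemma exists_avg {P : Type*} (s : Finset P) (η : P → Γ →+ UnitAddCircle) (δ : ℝ) (hδ : 0 < δ) :
    ∃ (S : Type) (_ : Fintype S) (_ : Nonempty S) (g : S → Γ), ∀ p ∈ s, η p ≠ 0 →
      ‖∑ a, ee (η p (g a))‖ ≤ δ * Fintype.card S := by
  classical
  induction s using Finset.induction_on with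
  | empty => exact ⟨Unit, inferInstance, inferInstance, fun _ => 0, by simp⟩
  | insert p s hp ih =>
    obtain ⟨S, hS, hSn, g, hg⟩ := ih
    by_cases h0 : η p = 0
    · refine ⟨S, hS, hSn, g, fun q hq hq0 => ?_⟩
      rcases mem_insert.1 hq with rfl | hq
      · exact absurd h0 hq0
      · exact hg q hq hq0
    obtain ⟨h, hh⟩ : ∃ h, η p h ≠ 0 := by
      by_contra hcon
      push Not at hcon
      exact h0 (by ext x; simpa using hcon x)
    have hz : ee (η p h) ≠ 1 := fun h' => hh (ee_eq_one h')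
    have hz' : 0 < ‖ee (η p h) - 1‖ := norm_pos_iff.2 (sub_ne_zero.2 hz)
    obtain ⟨N, hN⟩ := exists_nat_gt (2 / ‖ee (η p h) - 1‖ / δ)
    have hN0 : 0 < N := by
      have : (0 : ℝ) < N := lt_of_le_of_lt (by positivity) hN
      exact_mod_cast this
    refine ⟨S × Fin N, inferInstance, ⟨(Classical.arbitrary S, ⟨0, hN0⟩)⟩,
      fun x => g x.1 + (x.2 : ℕ) • h, ?_⟩
    have hprod : ∀ q, ∑ x : S × Fin N, ee (η q (g x.1 + (x.2 : ℕ) • h)) =
        (∑ a, ee (η q (g a))) * ∑ t ∈ range N, ee (η q h) ^ t := by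
      intro q
      rw [Fintype.sum_prod_type, sum_mul]
      apply sum_congr rfl
      intro a _
      rw [← Fin.sum_univ_eq_sum_range (fun t => ee (η q h) ^ t), mul_sum]
      apply sum_congr rfl
      intro t _
      rw [map_add, ee_add, map_nsmul, ee_nsmul]
    intro q hq hq0
    rw [hprod q, norm_mul]
    simp only [Fintype.card_prod, Fintype.card_fin]
    push_cast
    rcases mem_insert.1 hq with rfl | hq
    · have h1 : ‖∑ a, ee (η q (g a))‖ ≤ Fintype.card S := by
        refine (norm_sum_le _ _).trans ?_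
        simp [norm_ee]
      have h2 : ‖∑ t ∈ range N, ee (η q h) ^ t‖ ≤ δ * N := by
        rw [geom_sum_eq hz, norm_div]
        rw [div_div, div_lt_iff₀ (by positivity)] at hN
        have h3 : ‖ee (η q h) ^ N - 1‖ ≤ 2 := by
          refine (norm_sub_le _ _).trans ?_
          rw [norm_pow, norm_ee, norm_one]
          norm_num
        rw [div_le_iff₀ hz']
        nlinarith
      calc _ ≤ (Fintype.card S : ℝ) * (δ * N) := mul_le_mul h1 h2 (norm_nonneg _) (by positivity)
        _ = δ * (Fintype.card S * N) := by ring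
    · have h2 : ‖∑ t ∈ range N, ee (η q h) ^ t‖ ≤ N := by
        refine (norm_sum_le _ _).trans ?_
        simp [norm_ee]
      calc _ ≤ (δ * Fintype.card S) * N :=
            mul_le_mul (hg q hq hq0) h2 (norm_nonneg _) (by positivity)
        _ = δ * (Fintype.card S * N) := by ring

/-- a positive trigonometric polynomial is not small in mean -/
lemma exists_large {J : Type*} [Fintype J] [Nonempty J] (η : J → Γ →+ UnitAddCircle)
    (α : J → UnitAddCircle)
    (hα : ∀ j k, η j = η k → ‖α j - α k‖ ≤ 1 / 6) (c : J → ℝ) (hc : ∀ j, 0 ≤ c j)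
    (hc1 : ∑ j, c j = 1) :
    ∃ g : Γ, 1 / (4 * (Fintype.card J : ℝ)) ≤ ‖∑ j, (c j : ℂ) * ee (α j - η j g)‖ ^ 2 := by
  classical
  obtain ⟨M, hM⟩ : ∃ M : ℝ, M = (Fintype.card J : ℝ) := ⟨_, rfl⟩
  rw [← hM]
  have hMpos : 0 < M := by rw [hM]; exact_mod_cast Fintype.card_pos
  obtain ⟨S, hS, hSn, g, hg⟩ := exists_avg (Γ := Γ) (univ : Finset (J × J))
    (fun p => η p.2 - η p.1) (1 / (4 * M)) (by positivity)
  by_contra hcon
  push Not at hcon
  set f : Γ → ℂ := fun x => ∑ j, (c j : ℂ) * ee (α j - η j x) with hf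
  -- expansion of the square
  have hexp : ∀ x, ((‖f x‖ ^ 2 : ℝ) : ℂ) =
      ∑ j, ∑ k, (c j : ℂ) * c k * (ee (α j - α k) * ee ((η k - η j) x)) := by
    intro x
    have h1 : ((‖f x‖ ^ 2 : ℝ) : ℂ) = f x * (starRingEnd ℂ) (f x) := by
      rw [Complex.mul_conj, Complex.normSq_eq_norm_sq]
    rw [h1, hf]
    simp only [map_sum, map_mul, Complex.conj_ofReal, ← ee_neg]
    rw [sum_mul_sum]
    apply sum_congr rfl
    intro j _
    apply sum_congr rfl
    intro k _
    have h2 : ee (α j - α k) * ee ((η k - η j) x) = ee (α j - η j x) * ee (-(α k - η k x)) := by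
      rw [← ee_add, ← ee_add]
      congr 1
      rw [AddMonoidHom.sub_apply]
      abel
    rw [h2]
    ring
  -- sum over the sample
  have hsum : ((∑ a, ‖f (g a)‖ ^ 2 : ℝ) : ℂ) =
      ∑ j, ∑ k, (c j : ℂ) * c k * (ee (α j - α k) * ∑ a, ee ((η k - η j) (g a))) := by
    push_cast
    have : ∀ a, ((‖f (g a)‖ : ℂ)) ^ 2 = ((‖f (g a)‖ ^ 2 : ℝ) : ℂ) := by intro a; push_cast; rfl
    simp only [this, hexp]
    rw [sum_comm]
    apply sum_congr rfl
    intro j _
    rw [sum_comm]
    apply sum_congr rfl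
    intro k _
    rw [← mul_sum, ← mul_sum]
  have hcardS : (0 : ℝ) < Fintype.card S := by exact_mod_cast Fintype.card_pos
  have hterm : ∀ j k, (if j = k then (1 / 2 : ℝ) * (c j * c k) * Fintype.card S else 0) -
      c j * c k * (1 / (4 * M) * Fintype.card S) ≤
      ((c j : ℂ) * c k * (ee (α j - α k) * ∑ a, ee ((η k - η j) (g a)))).re := by
    intro j k
    have hcc : 0 ≤ c j * c k := mul_nonneg (hc j) (hc k)
    have hre : ((c j : ℂ) * c k * (ee (α j - α k) * ∑ a, ee ((η k - η j) (g a)))).re =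
        c j * c k * (ee (α j - α k) * ∑ a, ee ((η k - η j) (g a))).re := by
      rw [← Complex.ofReal_mul, Complex.re_ofReal_mul]
    rw [hre]
    by_cases hjk : η j = η k
    · have h1 : ∑ a, ee ((η k - η j) (g a)) = (Fintype.card S : ℝ) := by
        rw [hjk, sub_self]
        simp [ee_zero]
      rw [h1, mul_comm (ee _), Complex.re_ofReal_mul, ee_re]
      have h2 : 1 / 2 ≤ Real.cos (2 * Real.pi * ‖α j - α k‖) := by
        rw [← Real.cos_pi_div_three]
        apply Real.cos_le_cos_of_nonneg_of_le_pi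
        · have := norm_nonneg (α j - α k)
          positivity
        · have := Real.pi_pos
          linarith
        · have := hα j k hjk
          have := Real.pi_pos
          nlinarith
      have h3 : c j * c k * (1 / 2 * Fintype.card S) ≤
          c j * c k * ((Fintype.card S : ℝ) * Real.cos (2 * Real.pi * ‖α j - α k‖)) := by
        apply mul_le_mul_of_nonneg_left _ hcc
        nlinarith
      refine le_trans ?_ h3
      have h4 : 0 ≤ c j * c k * (1 / (4 * M) * Fintype.card S) := by positivity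
      split_ifs
      · linarith
      · have : 0 ≤ c j * c k * (1 / 2 * Fintype.card S) := by positivity
        linarith
    · have hne : j ≠ k := fun h => hjk (by rw [h])
      rw [if_neg hne, zero_sub, ← mul_neg]
      apply mul_le_mul_of_nonneg_left _ hcc
      have h1 : ‖ee (α j - α k) * ∑ a, ee ((η k - η j) (g a))‖ ≤
          1 / (4 * M) * Fintype.card S := by
        rw [norm_mul, norm_ee, one_mul]
        exact hg (j, k) (mem_univ _) (sub_ne_zero.2 (Ne.symm hjk))
      have h2 := Complex.abs_re_le_norm (ee (α j - α k) * ∑ a, ee ((η k - η j) (g a)))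
      have h3 := (abs_le.1 (h2.trans h1)).1
      exact h3
  have hlow : (1 / 2 : ℝ) * (∑ j, c j * c j) * Fintype.card S - 1 / (4 * M) * Fintype.card S ≤
      ∑ a, ‖f (g a)‖ ^ 2 := by
    have h1 : (∑ a, ‖f (g a)‖ ^ 2 : ℝ) = (((∑ a, ‖f (g a)‖ ^ 2 : ℝ) : ℂ)).re := by
      rw [Complex.ofReal_re]
    rw [h1, hsum, Complex.re_sum]
    have h2 : ∀ j, (∑ k, (c j : ℂ) * c k * (ee (α j - α k) * ∑ a, ee ((η k - η j) (g a)))).re =
        ∑ k, ((c j : ℂ) * c k * (ee (α j - α k) * ∑ a, ee ((η k - η j) (g a)))).re :=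
      fun j => Complex.re_sum _ _
    simp only [h2]
    refine le_trans ?_ (sum_le_sum fun j _ => sum_le_sum fun k _ => hterm j k)
    simp only [sum_sub_distrib, sum_ite_eq, mem_univ, if_true]
    have h3 : ∑ j, ∑ k, c j * c k * (1 / (4 * M) * (Fintype.card S : ℝ)) =
        1 / (4 * M) * Fintype.card S := by
      have : ∀ j, ∑ k, c j * c k * (1 / (4 * M) * (Fintype.card S : ℝ)) =
          c j * (1 / (4 * M) * Fintype.card S) := by
        intro j
        rw [← sum_mul, ← mul_sum, hc1, mul_one]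
      simp only [this]
      rw [← sum_mul, hc1, one_mul]
    rw [h3]
    rw [mul_sum, sum_mul]
  have hcs : 1 / M ≤ ∑ j, c j * c j := by
    have h1 := sq_sum_le_card_mul_sum_sq (s := (univ : Finset J)) (f := c)
    rw [hc1, card_univ, ← hM] at h1
    rw [div_le_iff₀ hMpos]
    have h2 : ∑ j, c j * c j = ∑ j, c j ^ 2 := sum_congr rfl fun j _ => by ring
    rw [h2]
    linarith [h1]
  have hup : ∑ a, ‖f (g a)‖ ^ 2 < ∑ _a : S, 1 / (4 * M) := by
    apply sum_lt_sum_of_nonempty univ_nonempty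
    intro a _
    exact hcon (g a)
  rw [sum_const, card_univ, nsmul_eq_mul] at hup
  have h5 : (1 / 2 : ℝ) * (1 / M) * Fintype.card S ≤
      (1 / 2 : ℝ) * (∑ j, c j * c j) * Fintype.card S := by
    apply mul_le_mul_of_nonneg_right _ hcardS.le
    linarith
  have h6 : (1 / 2 : ℝ) * (1 / M) * Fintype.card S - 1 / (4 * M) * Fintype.card S =
      Fintype.card S * (1 / (4 * M)) := by
    field_simp
    ring
  linarith

lemma normSq_half (x : UnitAddCircle) :
    ‖(1 + ee x) / 2‖ ^ 2 = (1 + Real.cos (2 * Real.pi * ‖x‖)) / 2 := by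
  have h1 : ‖(1 + ee x) / 2‖ ^ 2 = ‖1 + ee x‖ ^ 2 / 4 := by
    rw [norm_div, div_pow]
    norm_num
  have h2 : ‖1 + ee x‖ ^ 2 = 2 + 2 * (ee x).re := by
    have h3 : ‖ee x‖ ^ 2 = 1 := by rw [norm_ee]; norm_num
    rw [← Complex.normSq_eq_norm_sq, Complex.normSq_apply] at h3 ⊢
    simp only [Complex.add_re, Complex.one_re, Complex.add_im, Complex.one_im]
    nlinarith
  rw [h1, h2, ee_re]
  ring

lemma exists_deg (m : ℕ) (ρ : ℝ) (hρ0 : 0 ≤ ρ) (hρ1 : ρ < 1) :
    ∃ n : ℕ, ρ ^ n < 1 / (4 * ((n : ℝ) + 1) ^ m) := by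
  have h1 := tendsto_pow_const_mul_const_pow_of_abs_lt_one m (r := ρ)
    (by rw [abs_of_nonneg hρ0]; exact hρ1)
  have h2 : ∀ᶠ n : ℕ in Filter.atTop, (n : ℝ) ^ m * ρ ^ n < 1 / (4 * 2 ^ m) :=
    h1.eventually (gt_mem_nhds (by positivity))
  obtain ⟨n, hn, hn1⟩ := (h2.and (Filter.eventually_ge_atTop 1)).exists
  refine ⟨n, ?_⟩
  rw [lt_div_iff₀ (by positivity)] at hn ⊢
  have hn1' : (1 : ℝ) ≤ n := by exact_mod_cast hn1
  have h3 : ((n : ℝ) + 1) ^ m ≤ 2 ^ m * n ^ m := by
    rw [← mul_pow]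
    apply pow_le_pow_left₀ (by positivity)
    linarith
  have h4 : 0 ≤ ρ ^ n := pow_nonneg hρ0 n
  calc ρ ^ n * (4 * ((n : ℝ) + 1) ^ m) ≤ ρ ^ n * (4 * (2 ^ m * n ^ m)) := by
        apply mul_le_mul_of_nonneg_left _ h4
        linarith
    _ = (n : ℝ) ^ m * ρ ^ n * (4 * 2 ^ m) := by ring
    _ < 1 := hn

universe u v

/-- finite duality for tori, uniform in the group -/
theorem exists_near (ι : Type v) [Fintype ι] (ε : ℝ) (hε : 0 < ε) :
    ∃ n : ℕ, ∀ (Γ : Type u) [AddCommGroup Γ] (θ : ι → Γ →+ UnitAddCircle)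
      (v : ι → UnitAddCircle),
      (∀ ψ : ι → ℤ, (∀ i, |ψ i| ≤ n) → (∀ g, ∑ i, ψ i • θ i g = 0) →
        ‖∑ i, ψ i • v i‖ ≤ 1 / 6) →
      ∃ g : Γ, ∀ i, ‖v i - θ i g‖ < ε := by
  classical
  set ε' : ℝ := min ε (1 / 2) with hε'
  have hε'0 : 0 < ε' := lt_min hε (by norm_num)
  have hε'h : ε' ≤ 1 / 2 := min_le_right _ _
  set ρ : ℝ := (1 + Real.cos (2 * Real.pi * ε')) / 2 with hρ
  have hpi := Real.pi_pos
  have hρ0 : 0 ≤ ρ := by
    have := Real.neg_one_le_cos (2 * Real.pi * ε')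
    rw [hρ]
    linarith
  have hρ1 : ρ < 1 := by
    have h1 : Real.cos (2 * Real.pi * ε') < Real.cos 0 := by
      apply Real.cos_lt_cos_of_nonneg_of_le_pi le_rfl
      · nlinarith
      · positivity
    rw [Real.cos_zero] at h1
    rw [hρ]
    linarith
  obtain ⟨n, hn⟩ := exists_deg (Fintype.card ι) ρ hρ0 hρ1
  refine ⟨n, fun Γ _ θ v hψ => ?_⟩
  -- the trigonometric polynomial
  set c : (ι → Fin (n + 1)) → ℝ := fun j => ∏ i, ((n.choose (j i) : ℝ) / 2 ^ n) with hc
  set η : (ι → Fin (n + 1)) → Γ →+ UnitAddCircle := fun j => ∑ i, (j i : ℕ) • θ i with hη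
  set α : (ι → Fin (n + 1)) → UnitAddCircle := fun j => ∑ i, (j i : ℕ) • v i with hα
  have hηapp : ∀ j g, η j g = ∑ i, (j i : ℕ) • θ i g := by
    intro j g
    rw [hη]
    simp only
    rw [AddMonoidHom.finsetSum_apply]
    rfl
  have hcond : ∀ j k, η j = η k → ‖α j - α k‖ ≤ 1 / 6 := by
    intro j k hjk
    have h1 := hψ (fun i => ((j i : ℕ) : ℤ) - ((k i : ℕ) : ℤ)) (by
      intro i
      have h2 := (j i).is_lt
      have h3 := (k i).is_lt
      rw [abs_le]
      constructor <;> omega) (by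
      intro g
      have h2 : η j g = η k g := by rw [hjk]
      rw [hηapp, hηapp] at h2
      simp only [sub_smul, natCast_zsmul, sum_sub_distrib]
      rw [h2, sub_self])
    simp only [sub_smul, natCast_zsmul, sum_sub_distrib] at h1
    exact h1
  have hc0 : ∀ j, 0 ≤ c j := fun j => prod_nonneg fun i _ => by positivity
  have hsum1 : ∑ t : Fin (n + 1), ((n.choose t : ℝ) / 2 ^ n) = 1 := by
    rw [Fin.sum_univ_eq_sum_range (fun t => (n.choose t : ℝ) / 2 ^ n), ← sum_div]
    have h1 : ∑ t ∈ range (n + 1), (n.choose t : ℝ) = 2 ^ n := by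
      have := Nat.sum_range_choose n
      exact_mod_cast this
    rw [h1, div_self (by positivity)]
  have hc1 : ∑ j, c j = 1 := by
    rw [hc]
    rw [← Fintype.prod_sum (fun (_ : ι) (t : Fin (n + 1)) => (n.choose t : ℝ) / 2 ^ n)]
    rw [hsum1]
    exact prod_const_one
  obtain ⟨g, hg⟩ := exists_large η α hcond c hc0 hc1
  refine ⟨g, ?_⟩
  by_contra hcon
  push Not at hcon
  obtain ⟨i₀, hi₀⟩ := hcon
  -- the value of the polynomial
  have hval : ∑ j, (c j : ℂ) * ee (α j - η j g) = ∏ i, ((1 + ee (v i - θ i g)) / 2) ^ n := by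
    have h1 : ∀ i, ((1 + ee (v i - θ i g)) / 2) ^ n =
        ∑ t : Fin (n + 1), (((n.choose t : ℝ) / 2 ^ n : ℝ) : ℂ) * ee ((t : ℕ) • (v i - θ i g)) := by
      intro i
      rw [div_pow, add_comm, add_pow, sum_div,
        Fin.sum_univ_eq_sum_range (fun t => (((n.choose t : ℝ) / 2 ^ n : ℝ) : ℂ) *
          ee (t • (v i - θ i g)))]
      apply sum_congr rfl
      intro t _
      rw [one_pow, mul_one, ee_nsmul]
      push_cast
      ring
    simp only [h1]
    rw [Fintype.prod_sum]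
    apply sum_congr rfl
    intro j _
    rw [prod_mul_distrib, ← ee_sum]
    congr 1
    · rw [hc]
      push_cast
      rfl
    · congr 1
      rw [hηapp, hα]
      simp only [smul_sub, sum_sub_distrib]
  rw [hval, norm_prod, ← prod_pow] at hg
  have hle : ∀ i, (‖((1 + ee (v i - θ i g)) / 2) ^ n‖ ^ 2) =
      ((1 + Real.cos (2 * Real.pi * ‖v i - θ i g‖)) / 2) ^ n := by
    intro i
    rw [norm_pow, ← pow_mul, mul_comm, pow_mul, normSq_half]
  simp only [hle] at hg
  have hone : ∀ i, 0 ≤ (1 + Real.cos (2 * Real.pi * ‖v i - θ i g‖)) / 2 ∧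
      (1 + Real.cos (2 * Real.pi * ‖v i - θ i g‖)) / 2 ≤ 1 := by
    intro i
    have h1 := Real.neg_one_le_cos (2 * Real.pi * ‖v i - θ i g‖)
    have h2 := Real.cos_le_one (2 * Real.pi * ‖v i - θ i g‖)
    constructor <;> linarith
  have hbig : (1 + Real.cos (2 * Real.pi * ‖v i₀ - θ i₀ g‖)) / 2 ≤ ρ := by
    have h1 : Real.cos (2 * Real.pi * ‖v i₀ - θ i₀ g‖) ≤ Real.cos (2 * Real.pi * ε') := by
      apply Real.cos_le_cos_of_nonneg_of_le_pi
      · positivity
      · have := norm_le_half (v i₀ - θ i₀ g)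
        nlinarith
      · have : ε' ≤ ‖v i₀ - θ i₀ g‖ := (min_le_left _ _).trans hi₀
        nlinarith
    rw [hρ]
    linarith
  have hprod : ∏ i, ((1 + Real.cos (2 * Real.pi * ‖v i - θ i g‖)) / 2) ^ n ≤ ρ ^ n := by
    rw [← mul_prod_erase univ _ (mem_univ i₀)]
    have h1 : ∏ i ∈ univ.erase i₀, ((1 + Real.cos (2 * Real.pi * ‖v i - θ i g‖)) / 2) ^ n ≤ 1 :=
      prod_le_one (fun i _ => pow_nonneg (hone i).1 n) (fun i _ => pow_le_one₀ (hone i).1 (hone i).2)
    have h2 := pow_le_pow_left₀ (hone i₀).1 hbig n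
    have h3 : 0 ≤ ∏ i ∈ univ.erase i₀, ((1 + Real.cos (2 * Real.pi * ‖v i - θ i g‖)) / 2) ^ n :=
      prod_nonneg fun i _ => pow_nonneg (hone i).1 n
    calc _ ≤ ρ ^ n * 1 := mul_le_mul h2 h1 h3 (pow_nonneg hρ0 n)
      _ = ρ ^ n := mul_one _
  have hcard : (Fintype.card (ι → Fin (n + 1)) : ℝ) = ((n : ℝ) + 1) ^ Fintype.card ι := by
    rw [Fintype.card_fun, Fintype.card_fin]
    push_cast
    rfl
  rw [hcard] at hg
  linarith

end Pool.Agent.Work.MP_0f91f8_co.Quad
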