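import Pool.Agent.Work.MP_0f91f8_co.Quad.Main

/-!
Quadratic functions with values in a finite abelian group.
-/

open Filter Topology

namespace Pool.Agent.Work.MP_0f91f8_co.Quad

/-- characters separate points -/
lemma exists_hom_ne {G : Type*} [AddCommGroup G] {g : G} (hg : g ≠ 0) :
    ∃ F : G →+ UnitAddCircle, F g ≠ 0 := by
  obtain ⟨c, hc⟩ := CharacterModule.exists_character_apply_ne_zero_of_ne_zero hg
  let j : AddCircle (1 : ℚ) →+ UnitAddCircle :=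
    QuotientAddGroup.map (AddSubgroup.zmultiples (1 : ℚ)) (AddSubgroup.zmultiples (1 : ℝ))
      (Rat.castHom ℝ).toAddMonoidHom (by
        rintro x hx
        rw [AddSubgroup.mem_zmultiples_iff] at hx
        obtain ⟨k, rfl⟩ := hx
        rw [AddSubgroup.mem_comap, AddSubgroup.mem_zmultiples_iff]
        exact ⟨k, by simp⟩)
  refine ⟨j.comp c, fun h => hc ?_⟩
  have h1 : j (c g) = 0 := h
  obtain ⟨x, hx⟩ := QuotientAddGroup.mk_surjective (c g)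
  rw [← hx] at h1 ⊢
  have h2 : ((x : ℝ) : UnitAddCircle) = 0 := h1
  rw [AddCircle.coe_eq_zero_iff] at h2
  obtain ⟨k, hk⟩ := h2
  have h3 : (x : ℚ) = k := by
    have : (x : ℝ) = (k : ℝ) := by simpa using hk.symm
    exact_mod_cast this
  rw [h3]
  show ((k : ℚ) : AddCircle (1 : ℚ)) = 0
  rw [AddCircle.coe_eq_zero_iff]
  exact ⟨k, by simp⟩

theorem main_fin {G : Type*} [AddCommGroup G] [Finite G] {φ : ℕ → G}
    (hφ : ∀ a b c : ℕ, 0 < a → 0 < b → 0 < c →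
      φ (a * b * c) + φ a + φ b + φ c = φ (a * b) + φ (a * c) + φ (b * c) + φ 1)
    {n₀ : ℕ} (hn₀ : 0 < n₀) {A : Set ℕ}
    (hA : ∀ X : Finset ℕ, (∀ x ∈ X, 0 < x) → ∃ k : ℕ, 0 < k ∧ ∀ x ∈ X, x * k ∈ A) :
    ∃ x y z : ℕ, 0 < x ∧ 0 < y ∧ 0 < z ∧ x ^ 2 + y ^ 2 = z ^ 2 ∧ x ∈ A ∧ y ∈ A ∧ z ∈ A ∧
      φ x = φ n₀ ∧ φ y = φ n₀ ∧ φ z = φ n₀ := by
  classical
  obtain ⟨ev, hev⟩ : ∃ ev : G → (G →+ UnitAddCircle) → UnitAddCircle, ev = fun g F => F g :=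
    ⟨_, rfl⟩
  have hinj : ∀ g h, ev g = ev h → g = h := by
    intro g h hgh
    by_contra hne
    obtain ⟨F, hF⟩ := exists_hom_ne (sub_ne_zero.2 hne)
    apply hF
    rw [map_sub, sub_eq_zero]
    have := congrFun hgh F
    rwa [hev] at this
  have hMQ : MQ (fun n => ev (φ n)) := by
    intro a b c ha hb hc F
    rw [hev]
    simp only
    rw [← map_add, ← map_add, ← map_add, ← map_add, ← map_add, ← map_add, hφ a b c ha hb hc]
  have hfin : (ev '' {g | g ≠ φ n₀}).Finite := (Set.toFinite _).image _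
  have hU : (ev '' {g | g ≠ φ n₀})ᶜ ∈ 𝓝 (ev (φ n₀)) := by
    apply hfin.isClosed.isOpen_compl.mem_nhds
    rintro ⟨g, hg, hgg⟩
    exact hg (hinj _ _ hgg)
  obtain ⟨x, y, z, hx, hy, hz, hxyz, hxA, hyA, hzA, hxU, hyU, hzU⟩ := main hMQ hn₀ hU hA
  have hmem : ∀ n, ev (φ n) ∈ (ev '' {g | g ≠ φ n₀})ᶜ → φ n = φ n₀ := by
    intro n hn
    by_contra hne
    exact hn ⟨φ n, hne, rfl⟩
  exact ⟨x, y, z, hx, hy, hz, hxyz, hxA, hyA, hzA, hmem x hxU, hmem y hyU, hmem z hzU⟩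

end Pool.Agent.Work.MP_0f91f8_co.Quad
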