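import Pool.Agent.Work.MP_0f91f8_co.BohrBasic

/-!
Return times of quadratic functions on the multiplicative semigroup of positive integers are
syndetic.
-/

open Filter Topology

namespace Pool.Agent.Work.MP_0f91f8_co.Quad

open Bohr

/-- vanishing third multiplicative difference -/
def MQ {ι : Type*} (φ : ℕ → ι → UnitAddCircle) : Prop :=
  ∀ a b c : ℕ, 0 < a → 0 < b → 0 < c → ∀ i,
    φ (a * b * c) i + φ a i + φ b i + φ c i = φ (a * b) i + φ (a * c) i + φ (b * c) i + φ 1 i

variable {ι : Type*} {φ : ℕ → ι → UnitAddCircle}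

lemma MQ.base (h : MQ φ) {n a b c : ℕ} (hn : 0 < n) (ha : 0 < a) (hb : 0 < b) (hc : 0 < c)
    (i : ι) : φ (n * (a * (b * c))) i + φ (n * a) i + φ (n * b) i + φ (n * c) i =
      φ (n * (a * b)) i + φ (n * (a * c)) i + φ (n * (b * c)) i + φ n i := by
  have h1 := h a b (n * c) ha hb (Nat.mul_pos hn hc) i
  have h2 := h a b n ha hb hn i
  have e1 : a * b * (n * c) = n * (a * (b * c)) := by ring
  have e2 : a * (n * c) = n * (a * c) := by ring
  have e3 : b * (n * c) = n * (b * c) := by ring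
  have e4 : a * b * n = n * (a * b) := by ring
  have e5 : a * n = n * a := by ring
  have e6 : b * n = n * b := by ring
  rw [e1, e2, e3] at h1
  rw [e4, e5, e6] at h2
  generalize φ (n * (a * (b * c))) i = x1 at *
  generalize φ (n * (a * b)) i = x2 at *
  generalize φ (n * (a * c)) i = x3 at *
  generalize φ (n * (b * c)) i = x4 at *
  generalize φ (n * a) i = x5 at *
  generalize φ (n * b) i = x6 at *
  generalize φ (n * c) i = x7 at *
  generalize φ n i = x8 at *
  generalize φ (a * b) i = x9 at *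
  generalize φ a i = x10 at *
  generalize φ b i = x11 at *
  generalize φ 1 i = x12 at *
  have h3 : x1 = x9 + x3 + x4 + x12 - x10 - x11 - x7 := by
    rw [← h1]
    abel
  have h4 : x12 = x2 + x10 + x11 + x8 - x9 - x5 - x6 := by
    rw [h2]
    abel
  rw [h3, h4]
  abel

lemma synd [Finite ι] (h : MQ φ) {n₀ : ℕ} (hn₀ : 0 < n₀) (ε : ℝ) (hε : 0 < ε) :
    ∃ M : Finset ℕ, (∀ m ∈ M, 0 < m) ∧ ∀ n, 0 < n → ∃ m ∈ M, ∀ i,
      ‖φ (m * n) i - φ n₀ i‖ < ε := by
  classical
  by_contra hcon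
  push Not at hcon
  have hstep : ∀ M : {M : Finset ℕ // ∀ m ∈ M, 0 < m}, ∃ n, 0 < n ∧ ∀ m ∈ M.1,
      ∃ i, ε ≤ ‖φ (m * n) i - φ n₀ i‖ := fun M => hcon M.1 M.2
  choose nxt hnxt using hstep
  obtain ⟨st, hst0, hst⟩ : ∃ st : ℕ → {M : Finset ℕ // ∀ m ∈ M, 0 < m},
      st 0 = ⟨{n₀}, by simpa using hn₀⟩ ∧
      ∀ k, (st (k + 1)).1 = (st k).1 ∪ (st k).1.image (fun m => m * nxt (st k)) := by
    let g : {M : Finset ℕ // ∀ m ∈ M, 0 < m} → {M : Finset ℕ // ∀ m ∈ M, 0 < m} := fun M =>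
      ⟨M.1 ∪ M.1.image (fun m => m * nxt M), by
        intro q hq
        rcases Finset.mem_union.1 hq with h | h
        · exact M.2 q h
        · obtain ⟨q', hq', rfl⟩ := Finset.mem_image.1 h
          exact Nat.mul_pos (M.2 q' hq') (hnxt M).1⟩
    exact ⟨fun k => Nat.rec ⟨{n₀}, by simpa using hn₀⟩ (fun _ M => g M) k, rfl, fun _ => rfl⟩
  obtain ⟨a, ha⟩ : ∃ a : Stream' ℕ, a = fun k => nxt (st k) := ⟨_, rfl⟩
  have hbad : ∀ (s : Stream' ℕ) (m : ℕ), m ∈ Hindman.FP s → ∀ k, s = a.drop k → ∀ f ∈ (st k).1,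
      0 < m ∧ ∃ i, ε ≤ ‖φ (f * m) i - φ n₀ i‖ := by
    intro s m hm
    induction hm with
    | head' s =>
      intro k hk f hf
      have h1 : s.head = nxt (st k) := by
        rw [hk, Stream'.head_drop, ha]
        rfl
      rw [h1]
      exact ⟨(hnxt (st k)).1, (hnxt (st k)).2 f hf⟩
    | tail' s m hm ih =>
      intro k hk f hf
      refine ih (k + 1) ?_ f ?_
      · rw [hk, Stream'.tail_eq_drop, Stream'.drop_drop]
      · rw [hst]
        exact Finset.mem_union_left _ hf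
    | cons' s m hm ih =>
      intro k hk f hf
      have h1 : s.head = nxt (st k) := by
        rw [hk, Stream'.head_drop, ha]
        rfl
      have h2 := ih (k + 1) (by rw [hk, Stream'.tail_eq_drop, Stream'.drop_drop])
        (f * nxt (st k)) (by
          rw [hst]
          exact Finset.mem_union_right _ (Finset.mem_image_of_mem _ hf))
      rw [h1, ← mul_assoc]
      exact ⟨Nat.mul_pos (hnxt (st k)).1 h2.1, h2.2⟩
  have hbad' : ∀ m ∈ Hindman.FP a, 0 < m ∧ ∃ i, ε ≤ ‖φ (n₀ * m) i - φ n₀ i‖ := by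
    intro m hm
    apply hbad a m hm 0 rfl
    rw [hst0]
    exact Finset.mem_singleton_self _
  -- the cells
  obtain ⟨V, hVdef⟩ : ∃ V : Set (Multiplicative (ι → UnitAddCircle)),
      V = {v : Multiplicative (ι → UnitAddCircle) |
        ∀ i, ‖(Multiplicative.toAdd v : ι → UnitAddCircle) i‖ < ε / 3} := ⟨_, rfl⟩
  have hV : V ∈ 𝓝 (1 : Multiplicative (ι → UnitAddCircle)) := by
    have hopen : IsOpen V := by
      have h1 : V = ⋂ i, {v : Multiplicative (ι → UnitAddCircle) |
          ‖(Multiplicative.toAdd v : ι → UnitAddCircle) i‖ < ε / 3} := by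
        rw [hVdef]
        ext v
        simp
      rw [h1]
      apply isOpen_iInter_of_finite
      intro i
      apply isOpen_lt _ continuous_const
      exact ((continuous_apply i).comp continuous_toAdd).norm
    apply hopen.mem_nhds
    rw [hVdef]
    intro i
    simp
    positivity
  obtain ⟨t, χ, hχ⟩ := exists_cells V hV
  obtain ⟨c, ⟨x, rfl⟩, b, hb⟩ := Hindman.FP_partition_regular a
    (Set.range (fun x : t => {m | m ∈ Hindman.FP a ∧
      χ (Multiplicative.ofAdd (φ (n₀ * m))) = x})) (Set.finite_range _) (by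
      intro m hm
      exact ⟨_, ⟨χ (Multiplicative.ofAdd (φ (n₀ * m))), rfl⟩, hm, rfl⟩)
  have hclose : ∀ x y, x ∈ Hindman.FP b → y ∈ Hindman.FP b → ∀ i,
      ‖φ (n₀ * y) i - φ (n₀ * x) i‖ < ε / 3 := by
    intro x y hx hy i
    have h1 := hχ _ _ ((hb hx).2.trans (hb hy).2.symm)
    rw [hVdef] at h1
    have h2 := h1 i
    rw [toAdd_mul, toAdd_inv, toAdd_ofAdd, toAdd_ofAdd] at h2
    simp only [Pi.add_apply, Pi.neg_apply] at h2
    rwa [neg_add_eq_sub] at h2
  have m1 : b.head ∈ Hindman.FP b := Hindman.FP.head _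
  have m2 : b.tail.head ∈ Hindman.FP b := Hindman.FP.tail _ _ (Hindman.FP.head _)
  have m3 : b.tail.tail.head ∈ Hindman.FP b :=
    Hindman.FP.tail _ _ (Hindman.FP.tail _ _ (Hindman.FP.head _))
  have m12 : b.head * b.tail.head ∈ Hindman.FP b := Hindman.FP.cons _ _ (Hindman.FP.head _)
  have m13 : b.head * b.tail.tail.head ∈ Hindman.FP b :=
    Hindman.FP.cons _ _ (Hindman.FP.tail _ _ (Hindman.FP.head _))
  have m23 : b.tail.head * b.tail.tail.head ∈ Hindman.FP b :=
    Hindman.FP.tail _ _ (Hindman.FP.cons _ _ (Hindman.FP.head _))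
  have m123 : b.head * (b.tail.head * b.tail.tail.head) ∈ Hindman.FP b :=
    Hindman.FP.cons _ _ (Hindman.FP.cons _ _ (Hindman.FP.head _))
  have p1 := (hbad' _ (hb m1).1).1
  have p2 := (hbad' _ (hb m2).1).1
  have p3 := (hbad' _ (hb m3).1).1
  obtain ⟨i, hi⟩ := (hbad' _ (hb m1).1).2
  have hT := h.base hn₀ p1 p2 p3 i
  have c1 := hclose _ _ m12 m123 i
  have c2 := hclose _ _ m13 m2 i
  have c3 := hclose _ _ m23 m3 i
  have he : φ (n₀ * b.head) i - φ n₀ i =
      -((φ (n₀ * (b.head * (b.tail.head * b.tail.tail.head))) i - φ (n₀ * (b.head * b.tail.head)) i)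
      + (φ (n₀ * b.tail.head) i - φ (n₀ * (b.head * b.tail.tail.head)) i)
      + (φ (n₀ * b.tail.tail.head) i - φ (n₀ * (b.tail.head * b.tail.tail.head)) i)) := by
    have h2 : φ n₀ i = φ (n₀ * (b.head * (b.tail.head * b.tail.tail.head))) i +
        φ (n₀ * b.head) i + φ (n₀ * b.tail.head) i + φ (n₀ * b.tail.tail.head) i -
        φ (n₀ * (b.head * b.tail.head)) i - φ (n₀ * (b.head * b.tail.tail.head)) i -
        φ (n₀ * (b.tail.head * b.tail.tail.head)) i := by
      rw [hT]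
      abel
    rw [h2]
    abel
  rw [he, norm_neg] at hi
  have h3 := norm_add₃_le
    (a := φ (n₀ * (b.head * (b.tail.head * b.tail.tail.head))) i - φ (n₀ * (b.head * b.tail.head)) i)
    (b := φ (n₀ * b.tail.head) i - φ (n₀ * (b.head * b.tail.tail.head)) i)
    (c := φ (n₀ * b.tail.tail.head) i - φ (n₀ * (b.tail.head * b.tail.tail.head)) i)
  linarith

end Pool.Agent.Work.MP_0f91f8_co.Quad
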