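import Pool.Agent.Work.MP_0f91f8_co.Quad.Twist
import Pool.Agent.Work.MP_0f91f8_co.Quad.Abs
import Pool.Agent.Work.MP_0f91f8_co.Quad.Synd

/-!
The group of positive rationals: recurrence of Pythagorean pairs, and the identity for quadratic
functions at rational points.
-/

open Filter Topology

namespace Pool.Agent.Work.MP_0f91f8_co.Quad

open Bohr

/-- the group of positive rationals, written additively -/
abbrev PQ : Type := Additive {q : ℚ // 0 < q}

/-- a positive rational as an element of the group -/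
def pq (q : ℚ) (h : 0 < q) : PQ := Additive.ofMul ⟨q, h⟩

/-- the rational number of an element of the group -/
def vl (x : PQ) : ℚ := (Additive.toMul x : {q : ℚ // 0 < q})

lemma vl_pos (x : PQ) : 0 < vl x := (Additive.toMul x : {q : ℚ // 0 < q}).2

lemma vl_add (x y : PQ) : vl (x + y) = vl x * vl y := rfl

lemma vl_zero : vl 0 = 1 := rfl

lemma vl_pq (q : ℚ) (h : 0 < q) : vl (pq q h) = q := rfl

lemma vl_inj {x y : PQ} (h : vl x = vl y) : x = y := by
  have h1 : (Additive.toMul x : {q : ℚ // 0 < q}) = Additive.toMul y := Subtype.ext h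
  exact Additive.toMul.injective h1

/-- legs over hypotenuse -/
def Tr (a b : PQ) : Prop := ∃ X Y Z : ℚ, 0 < X ∧ 0 < Y ∧ 0 < Z ∧ X ^ 2 + Y ^ 2 = Z ^ 2 ∧
  vl a = X / Z ∧ vl b = Y / Z

lemma nhds_box {ι : Type*} [Finite ι] (δ : ℝ) (hδ : 0 < δ) :
    {v : Multiplicative (ι → UnitAddCircle) |
      ∀ i, ‖(Multiplicative.toAdd v : ι → UnitAddCircle) i‖ < δ} ∈
      𝓝 (1 : Multiplicative (ι → UnitAddCircle)) := by
  have hopen : IsOpen {v : Multiplicative (ι → UnitAddCircle) |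
      ∀ i, ‖(Multiplicative.toAdd v : ι → UnitAddCircle) i‖ < δ} := by
    have h1 : {v : Multiplicative (ι → UnitAddCircle) |
        ∀ i, ‖(Multiplicative.toAdd v : ι → UnitAddCircle) i‖ < δ} =
        ⋂ i, {v : Multiplicative (ι → UnitAddCircle) |
          ‖(Multiplicative.toAdd v : ι → UnitAddCircle) i‖ < δ} := by
      ext v
      simp
    rw [h1]
    apply isOpen_iInter_of_finite
    intro i
    apply isOpen_lt _ continuous_const
    exact ((continuous_apply i).comp continuous_toAdd).norm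
  apply hopen.mem_nhds
  intro i
  simpa using hδ

theorem tr_rec (𝓕 : Set (PQ →+ UnitAddCircle)) (h𝓕 : 𝓕.Finite) (κ : PQ) (δ : ℝ) (hδ : 0 < δ) :
    ∃ a b, Tr a b ∧ ∀ F ∈ 𝓕, ‖F a‖ < δ ∧ ‖F b - F κ‖ < δ := by
  classical
  have hfin : Finite 𝓕 := h𝓕.to_subtype
  obtain ⟨f, hfdef⟩ : ∃ f : ℕ → Multiplicative (𝓕 → UnitAddCircle),
      ∀ (n : ℕ) (h : 0 < n), f n = Multiplicative.ofAdd
        (fun F : 𝓕 => F.1 (pq (n : ℚ) (by exact_mod_cast h))) := by
    refine ⟨fun n => if h : 0 < n then Multiplicative.ofAdd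
        (fun F : 𝓕 => F.1 (pq (n : ℚ) (by exact_mod_cast h))) else 1, fun n h => ?_⟩
    exact dif_pos h
  have hf : ∀ m n : ℕ, 0 < m → 0 < n → f (m * n) = f m * f n := by
    intro m n hm hn
    rw [hfdef m hm, hfdef n hn, hfdef _ (Nat.mul_pos hm hn), ← ofAdd_add]
    congr 1
    funext F
    rw [Pi.add_apply, ← map_add]
    congr 1
    apply vl_inj
    rw [vl_add, vl_pq, vl_pq, vl_pq]
    push_cast
    rfl
  have hgq : ∀ (q : ℚ) (hq : 0 < q), gq f q = Multiplicative.ofAdd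
      (fun F : 𝓕 => F.1 (pq q hq)) := by
    intro q hq
    obtain ⟨a, b, ha, hb, rfl⟩ := exists_nat_div hq
    rw [gq_div hf ha hb, hfdef a ha, hfdef b hb, ← ofAdd_neg, ← ofAdd_add]
    congr 1
    funext F
    rw [Pi.add_apply, Pi.neg_apply, ← sub_eq_add_neg, ← map_sub]
    have hb' : (b : ℚ) ≠ 0 := by exact_mod_cast hb.ne'
    have he : pq ((a : ℚ) / b) hq = pq (a : ℚ) (by exact_mod_cast ha) -
        pq (b : ℚ) (by exact_mod_cast hb) := by
      rw [eq_sub_iff_add_eq]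
      apply vl_inj
      show (a : ℚ) / b * b = (a : ℚ)
      rw [div_mul_cancel₀ _ hb']
    rw [he]
  obtain ⟨X, Y, Z, hX, hY, hZ, hXYZ, h1, h2⟩ := twisted hf (vl κ) (vl_pos κ) _
    (nhds_box (ι := 𝓕) δ hδ)
  refine ⟨pq (X / Z) (div_pos hX hZ), pq (Y / Z) (div_pos hY hZ),
    ⟨X, Y, Z, hX, hY, hZ, hXYZ, rfl, rfl⟩, fun F hF => ⟨?_, ?_⟩⟩
  · rw [hgq _ (div_pos hX hZ)] at h1
    exact h1 ⟨F, hF⟩
  · rw [hgq _ (div_pos hY hZ), hgq _ (vl_pos κ), ← ofAdd_neg, ← ofAdd_add] at h2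
    have h3 := h2 ⟨F, hF⟩
    rw [toAdd_ofAdd, Pi.add_apply, Pi.neg_apply, ← sub_eq_add_neg] at h3
    exact h3

variable {ι : Type*} {φ : ℕ → ι → UnitAddCircle}

/-- the form of a quadratic function -/
def bf (φ : ℕ → ι → UnitAddCircle) (i : ι) (x y : ℕ) : UnitAddCircle :=
  φ (x * y) i - φ x i - φ y i + φ 1 i

lemma bf_comm (i : ι) (x y : ℕ) : bf φ i x y = bf φ i y x := by
  unfold bf
  rw [mul_comm x y]
  abel

lemma MQ.bf_mul (h : MQ φ) (i : ι) {x y z : ℕ} (hx : 0 < x) (hy : 0 < y) (hz : 0 < z) :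
    bf φ i (x * y) z = bf φ i x z + bf φ i y z := by
  have h1 := h x y z hx hy hz i
  unfold bf
  have h2 : φ (x * y * z) i = φ (x * y) i + φ (x * z) i + φ (y * z) i + φ 1 i -
      φ x i - φ y i - φ z i := by
    rw [← h1]
    abel
  rw [h2]
  abel

lemma phi_mul (i : ι) (x y : ℕ) : φ (x * y) i = φ x i + φ y i + bf φ i x y - φ 1 i := by
  unfold bf
  abel

lemma MQ.rel (h : MQ φ) {x0 xa xb xc xab xac xbc xabc : ℕ} (h0 : 0 < x0) (ha : 0 < xa)
    (hb : 0 < xb) (hc : 0 < xc) (pab : 0 < xab) (pac : 0 < xac) (pbc : 0 < xbc) (pabc : 0 < xabc)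
    (hab : xab * x0 = xa * xb) (hac : xac * x0 = xa * xc) (hbc : xbc * x0 = xb * xc)
    (habc : xabc * x0 = xab * xc) (i : ι) :
    φ xabc i + φ xa i + φ xb i + φ xc i = φ xab i + φ xac i + φ xbc i + φ x0 i := by
  have e1 := congrArg (fun n => φ n i) hab
  have e2 := congrArg (fun n => φ n i) hac
  have e3 := congrArg (fun n => φ n i) hbc
  have e4 := congrArg (fun n => φ n i) habc
  simp only [phi_mul] at e1 e2 e3 e4
  have f1 : ∀ y, 0 < y → bf φ i xab y = bf φ i xa y + bf φ i xb y - bf φ i x0 y := by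
    intro y hy
    have := congrArg (fun n => bf φ i n y) hab
    rw [h.bf_mul i pab h0 hy, h.bf_mul i ha hb hy] at this
    rw [← this]
    abel
  have f2 : bf φ i xac x0 = bf φ i xa x0 + bf φ i xc x0 - bf φ i x0 x0 := by
    have := congrArg (fun n => bf φ i n x0) hac
    rw [h.bf_mul i pac h0 h0, h.bf_mul i ha hc h0] at this
    rw [← this]
    abel
  have f3 : bf φ i xbc x0 = bf φ i xb x0 + bf φ i xc x0 - bf φ i x0 x0 := by
    have := congrArg (fun n => bf φ i n x0) hbc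
    rw [h.bf_mul i pbc h0 h0, h.bf_mul i hb hc h0] at this
    rw [← this]
    abel
  have f4 : bf φ i xabc x0 = bf φ i xab x0 + bf φ i xc x0 - bf φ i x0 x0 := by
    have := congrArg (fun n => bf φ i n x0) habc
    rw [h.bf_mul i pabc h0 h0, h.bf_mul i pab hc h0] at this
    rw [← this]
    abel
  rw [f1 x0 h0] at e1 f4
  rw [f2] at e2
  rw [f3] at e3
  rw [f4, f1 xc hc, bf_comm i x0 xc] at e4
  generalize bf φ i xa x0 = b1 at *
  generalize bf φ i xb x0 = b2 at *
  generalize bf φ i xc x0 = b3 at *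
  generalize bf φ i x0 x0 = b4 at *
  generalize bf φ i xa xb = b5 at *
  generalize bf φ i xa xc = b6 at *
  generalize bf φ i xb xc = b7 at *
  generalize φ 1 i = c at *
  have g1 : φ xab i = φ xa i + φ xb i + b5 - φ x0 i - (b1 + b2 - b4) := by
    have : φ xab i = (φ xab i + φ x0 i + (b1 + b2 - b4) - c) + c - φ x0 i - (b1 + b2 - b4) := by
      abel
    rw [this, e1]
    abel
  have g2 : φ xac i = φ xa i + φ xc i + b6 - φ x0 i - (b1 + b3 - b4) := by
    have : φ xac i = (φ xac i + φ x0 i + (b1 + b3 - b4) - c) + c - φ x0 i - (b1 + b3 - b4) := by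
      abel
    rw [this, e2]
    abel
  have g3 : φ xbc i = φ xb i + φ xc i + b7 - φ x0 i - (b2 + b3 - b4) := by
    have : φ xbc i = (φ xbc i + φ x0 i + (b2 + b3 - b4) - c) + c - φ x0 i - (b2 + b3 - b4) := by
      abel
    rw [this, e3]
    abel
  have g4 : φ xabc i = φ xab i + φ xc i + (b6 + b7 - b3) - φ x0 i -
      (b1 + b2 - b4 + b3 - b4) := by
    have : φ xabc i = (φ xabc i + φ x0 i + (b1 + b2 - b4 + b3 - b4) - c) + c - φ x0 i -
        (b1 + b2 - b4 + b3 - b4) := by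
      abel
    rw [this, e4]
    abel
  rw [g4, g2, g3]
  abel

end Pool.Agent.Work.MP_0f91f8_co.Quad
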