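import Pool.Agent.Work.MP_0f91f8_co.BohrFinal
import Pool.Agent.Work.MP_0f91f8_co.Quad.Lim

/-!
Pythagorean triples in return time sets of quadratic functions on the multiplicative semigroup.
-/

open Filter Topology

namespace Pool.Agent.Work.MP_0f91f8_co.Quad

open Bohr

theorem main {I : Type*} {φ : ℕ → I → UnitAddCircle} (hφ : MQ φ) {n₀ : ℕ} (hn₀ : 0 < n₀)
    {U : Set (I → UnitAddCircle)} (hU : U ∈ 𝓝 (φ n₀)) {A : Set ℕ}
    (hA : ∀ X : Finset ℕ, (∀ x ∈ X, 0 < x) → ∃ k : ℕ, 0 < k ∧ ∀ x ∈ X, x * k ∈ A) :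
    ∃ x y z : ℕ, 0 < x ∧ 0 < y ∧ 0 < z ∧ x ^ 2 + y ^ 2 = z ^ 2 ∧ x ∈ A ∧ y ∈ A ∧ z ∈ A ∧
      φ x ∈ U ∧ φ y ∈ U ∧ φ z ∈ U := by
  classical
  -- finitely many coordinates
  obtain ⟨J, hJ, ε, hε, hJU⟩ : ∃ J : Set I, J.Finite ∧ ∃ ε : ℝ, 0 < ε ∧
      ∀ u : I → UnitAddCircle, (∀ i ∈ J, ‖u i - φ n₀ i‖ < ε) → u ∈ U := by
    rw [nhds_pi, Filter.mem_pi] at hU
    obtain ⟨J, hJ, t, ht, hsub⟩ := hU
    have hex : ∀ i, ∃ r : ℝ, 0 < r ∧ Metric.ball (φ n₀ i) r ⊆ t i := fun i =>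
      Metric.mem_nhds_iff.1 (ht i)
    choose r hr hrt using hex
    obtain ⟨ε, hε, hle⟩ := exists_pos_le hJ.toFinset r (fun i _ => hr i)
    refine ⟨J, hJ, ε, hε, fun u hu => hsub fun i hi => hrt i ?_⟩
    rw [Metric.mem_ball, dist_eq_norm]
    exact lt_of_lt_of_le (hu i hi) (hle i (hJ.mem_toFinset.2 hi))
  have hfinJ : Fintype J := hJ.fintype
  obtain ⟨φJ, hφJdef⟩ : ∃ φJ : ℕ → J → UnitAddCircle, φJ = fun n (i : J) => φ n i := ⟨_, rfl⟩
  have hφJ : MQ φJ := by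
    intro a b c ha hb hc i
    rw [hφJdef]
    exact hφ a b c ha hb hc i
  obtain ⟨M, hMpos, hM⟩ := synd hφJ hn₀ (ε / 4) (by positivity)
  -- the filter of good dilations
  let E : {S : Finset ℚ // ∀ q ∈ S, 0 < q} → Set ℕ := fun p =>
    {k | 0 < k ∧ ∀ q ∈ p.1, ∃ n : ℕ, n ∈ A ∧ (n : ℚ) = k * q}
  have hne : Nonempty {S : Finset ℚ // ∀ q ∈ S, 0 < q} := ⟨⟨∅, by simp⟩⟩
  have hdir : Directed (· ≥ ·) (fun p => 𝓟 (E p)) := by
    rintro ⟨S₁, h₁⟩ ⟨S₂, h₂⟩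
    refine ⟨⟨S₁ ∪ S₂, ?_⟩, ?_, ?_⟩
    · intro q hq
      rcases Finset.mem_union.1 hq with h | h
      · exact h₁ q h
      · exact h₂ q h
    · apply principal_mono.2
      rintro k ⟨hk, hkS⟩
      exact ⟨hk, fun q hq => hkS q (Finset.mem_union_left _ hq)⟩
    · apply principal_mono.2
      rintro k ⟨hk, hkS⟩
      exact ⟨hk, fun q hq => hkS q (Finset.mem_union_right _ hq)⟩
  have hbot : NeBot (⨅ p, 𝓟 (E p)) := by
    apply iInf_neBot_of_directed' hdir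
    rintro ⟨S, hS⟩
    rw [principal_neBot_iff]
    exact exists_dilate hA S hS
  obtain ⟨𝒰, h𝒰⟩ : ∃ 𝒰 : Ultrafilter ℕ, (𝒰 : Filter ℕ) ≤ ⨅ p, 𝓟 (E p) :=
    ⟨Ultrafilter.of _, Ultrafilter.of_le _⟩
  have hev : ∀ (S : Finset ℚ) (_ : ∀ q ∈ S, 0 < q),
      ∀ᶠ k : ℕ in (𝒰 : Filter ℕ), 0 < k ∧ ∀ q ∈ S, ∃ n : ℕ, n ∈ A ∧ (n : ℚ) = k * q := by
    intro S hS
    have h1 : (𝒰 : Filter ℕ) ≤ 𝓟 (E ⟨S, hS⟩) := h𝒰.trans (iInf_le _ _)
    exact le_principal_iff.1 h1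
  -- the limit functions
  have hLex : ∀ (p : M × J) (q : ℚ), ∃ l : UnitAddCircle,
      Tendsto (fun k : ℕ => φJ (p.1 * ⌊(k : ℚ) * q⌋₊) p.2) (𝒰 : Filter ℕ) (𝓝 l) := by
    intro p q
    exact ⟨_, Ultrafilter.le_nhds_lim (𝒰.map (fun k : ℕ => φJ (p.1 * ⌊(k : ℚ) * q⌋₊) p.2))⟩
  choose L hL using hLex
  have hquad : ∀ p : M × J, Quadr (fun x : PQ => L p (vl x)) := by
    intro p a b c
    have pa := vl_pos a
    have pb := vl_pos b
    have pc := vl_pos c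
    simp only [vl_add, vl_zero]
    have h1 := ((((hL p (vl a * vl b * vl c)).add (hL p (vl a))).add (hL p (vl b))).add
      (hL p (vl c)))
    have h2 := ((((hL p (vl a * vl b)).add (hL p (vl a * vl c))).add (hL p (vl b * vl c))).add
      (hL p 1))
    refine tendsto_nhds_unique_of_eventuallyEq h1 h2 ?_
    have h3 := hev {vl a * vl b * vl c, vl a, vl b, vl c, vl a * vl b, vl a * vl c, vl b * vl c, 1}
      (by
        intro q hq
        simp only [Finset.mem_insert, Finset.mem_singleton] at hq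
        rcases hq with rfl | rfl | rfl | rfl | rfl | rfl | rfl | rfl
        · positivity
        · exact pa
        · exact pb
        · exact pc
        · positivity
        · positivity
        · positivity
        · exact one_pos)
    filter_upwards [h3] with k hk
    obtain ⟨hk0, hk⟩ := hk
    have hk0' : (0 : ℚ) < k := by exact_mod_cast hk0
    have hfl : ∀ q : ℚ, 0 < q → (∃ n : ℕ, n ∈ A ∧ (n : ℚ) = k * q) → ∃ n : ℕ, 0 < n ∧
        (n : ℚ) = k * q ∧ ⌊(k : ℚ) * q⌋₊ = n := by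
      rintro q hq ⟨n, -, hn⟩
      have hn0 : (0 : ℚ) < n := by rw [hn]; positivity
      exact ⟨n, by exact_mod_cast hn0, hn, by rw [← hn, Nat.floor_natCast]⟩
    obtain ⟨nabc, qabc, rabc, sabc⟩ := hfl (vl a * vl b * vl c) (by positivity)
      (hk _ (by simp))
    obtain ⟨na, qa, ra, sa⟩ := hfl (vl a) pa (hk _ (by simp))
    obtain ⟨nb, qb, rb, sb⟩ := hfl (vl b) pb (hk _ (by simp))
    obtain ⟨nc, qc, rc, sc⟩ := hfl (vl c) pc (hk _ (by simp))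
    obtain ⟨nab, qab, rab, sab⟩ := hfl (vl a * vl b) (by positivity) (hk _ (by simp))
    obtain ⟨nac, qac, rac, sac⟩ := hfl (vl a * vl c) (by positivity) (hk _ (by simp))
    obtain ⟨nbc, qbc, rbc, sbc⟩ := hfl (vl b * vl c) (by positivity) (hk _ (by simp))
    obtain ⟨n1, q1, r1, s1⟩ := hfl 1 one_pos (hk _ (by simp))
    rw [sabc, sa, sb, sc, sab, sac, sbc, s1]
    have hm : 0 < (p.1 : ℕ) := hMpos _ p.1.2
    refine hφJ.rel (Nat.mul_pos hm q1) (Nat.mul_pos hm qa) (Nat.mul_pos hm qb)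
      (Nat.mul_pos hm qc) (Nat.mul_pos hm qab) (Nat.mul_pos hm qac) (Nat.mul_pos hm qbc)
      (Nat.mul_pos hm qabc) ?_ ?_ ?_ ?_ p.2
    · have : nab * n1 = na * nb := by
        have : (nab : ℚ) * n1 = na * nb := by rw [rab, r1, ra, rb]; ring
        exact_mod_cast this
      calc _ = p.1 * p.1 * (nab * n1) := by ring
        _ = _ := by rw [this]; ring
    · have : nac * n1 = na * nc := by
        have : (nac : ℚ) * n1 = na * nc := by rw [rac, r1, ra, rc]; ring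
        exact_mod_cast this
      calc _ = p.1 * p.1 * (nac * n1) := by ring
        _ = _ := by rw [this]; ring
    · have : nbc * n1 = nb * nc := by
        have : (nbc : ℚ) * n1 = nb * nc := by rw [rbc, r1, rb, rc]; ring
        exact_mod_cast this
      calc _ = p.1 * p.1 * (nbc * n1) := by ring
        _ = _ := by rw [this]; ring
    · have : nabc * n1 = nab * nc := by
        have : (nabc : ℚ) * n1 = nab * nc := by rw [rabc, r1, rab, rc]; ring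
        exact_mod_cast this
      calc _ = p.1 * p.1 * (nabc * n1) := by ring
        _ = _ := by rw [this]; ring
  -- the recurrence theorem
  obtain ⟨a, b, g, ⟨X, Y, Z, hX, hY, hZ, hXYZ, ha, hb⟩, hab⟩ :=
    abs_rec Tr tr_rec (M × J) (fun p x => L p (vl x)) hquad (ε / 4) (by positivity)
  simp only [vl_add] at hab
  obtain ⟨w, hw⟩ : ∃ w : ℚ, w = vl g := ⟨_, rfl⟩
  have hwpos : 0 < w := by rw [hw]; exact vl_pos g
  rw [← hw, ha, hb] at hab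
  obtain ⟨u, hu⟩ : ∃ u : ℚ, u = w * (X / Z) := ⟨_, rfl⟩
  obtain ⟨v, hv⟩ : ∃ v : ℚ, v = w * (Y / Z) := ⟨_, rfl⟩
  rw [← hu, ← hv] at hab
  have hupos : 0 < u := by rw [hu]; positivity
  have hvpos : 0 < v := by rw [hv]; positivity
  have huvw : u ^ 2 + v ^ 2 = w ^ 2 := by
    rw [hu, hv]
    field_simp
    rw [← hXYZ]
  have hclose : ∀ q : ℚ, ∀ᶠ k : ℕ in (𝒰 : Filter ℕ), ∀ p : M × J,
      ‖φJ (p.1 * ⌊(k : ℚ) * q⌋₊) p.2 - L p q‖ < ε / 4 := by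
    intro q
    rw [eventually_all]
    intro p
    have h1 := (hL p q).eventually (Metric.ball_mem_nhds (L p q) (show 0 < ε / 4 by positivity))
    filter_upwards [h1] with k hk
    rwa [dist_eq_norm] at hk
  have hS := hev ({u, v, w} ∪ M.biUnion (fun m => {(m : ℚ) * u, (m : ℚ) * v, (m : ℚ) * w})) (by
    intro q hq
    simp only [Finset.mem_union, Finset.mem_insert, Finset.mem_singleton, Finset.mem_biUnion] at hq
    rcases hq with (rfl | rfl | rfl) | ⟨m, hm, hq⟩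
    · exact hupos
    · exact hvpos
    · exact hwpos
    · have hm' : (0 : ℚ) < m := by exact_mod_cast hMpos m hm
      rcases hq with rfl | rfl | rfl <;> positivity)
  obtain ⟨k, ⟨hk0, hkS⟩, hku, hkv, hkw⟩ :=
    (hS.and ((hclose u).and ((hclose v).and (hclose w)))).exists
  have hk0' : (0 : ℚ) < k := by exact_mod_cast hk0
  have hfl : ∀ q : ℚ, 0 < q → (∃ n : ℕ, n ∈ A ∧ (n : ℚ) = k * q) → ∃ n : ℕ, 0 < n ∧
      (n : ℚ) = k * q ∧ ⌊(k : ℚ) * q⌋₊ = n := by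
    rintro q hq ⟨n, -, hn⟩
    have hn0 : (0 : ℚ) < n := by rw [hn]; positivity
    exact ⟨n, by exact_mod_cast hn0, hn, by rw [← hn, Nat.floor_natCast]⟩
  obtain ⟨x, hx0, hx, hxf⟩ := hfl u hupos (hkS _ (by simp))
  obtain ⟨y, hy0, hy, hyf⟩ := hfl v hvpos (hkS _ (by simp))
  obtain ⟨z, hz0, hz, hzf⟩ := hfl w hwpos (hkS _ (by simp))
  rw [hxf] at hku
  rw [hyf] at hkv
  rw [hzf] at hkw
  obtain ⟨m, hm, hmz⟩ := hM z hz0
  have hm0 := hMpos m hm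
  have hmem : ∀ q ∈ ({(m : ℚ) * u, (m : ℚ) * v, (m : ℚ) * w} : Finset ℚ),
      ∃ n : ℕ, n ∈ A ∧ (n : ℚ) = k * q := by
    intro q hq
    apply hkS
    exact Finset.mem_union_right _ (Finset.mem_biUnion.2 ⟨m, hm, hq⟩)
  have hxA : m * x ∈ A := by
    obtain ⟨n, hnA, hn⟩ := hmem (m * u) (by simp)
    have : n = m * x := by
      have : (n : ℚ) = m * x := by rw [hn, hx]; ring
      exact_mod_cast this
    rwa [← this]
  have hyA : m * y ∈ A := by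
    obtain ⟨n, hnA, hn⟩ := hmem (m * v) (by simp)
    have : n = m * y := by
      have : (n : ℚ) = m * y := by rw [hn, hy]; ring
      exact_mod_cast this
    rwa [← this]
  have hzA : m * z ∈ A := by
    obtain ⟨n, hnA, hn⟩ := hmem (m * w) (by simp)
    have : n = m * z := by
      have : (n : ℚ) = m * z := by rw [hn, hz]; ring
      exact_mod_cast this
    rwa [← this]
  have hpt : x ^ 2 + y ^ 2 = z ^ 2 := by
    have : (x : ℚ) ^ 2 + (y : ℚ) ^ 2 = (z : ℚ) ^ 2 := by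
      rw [hx, hy, hz]
      calc ((k : ℚ) * u) ^ 2 + (k * v) ^ 2 = k ^ 2 * (u ^ 2 + v ^ 2) := by ring
        _ = k ^ 2 * w ^ 2 := by rw [huvw]
        _ = (k * w) ^ 2 := by ring
    exact_mod_cast this
  refine ⟨m * x, m * y, m * z, Nat.mul_pos hm0 hx0, Nat.mul_pos hm0 hy0, Nat.mul_pos hm0 hz0, ?_,
    hxA, hyA, hzA, ?_, ?_, ?_⟩
  · calc (m * x) ^ 2 + (m * y) ^ 2 = m ^ 2 * (x ^ 2 + y ^ 2) := by ring
      _ = (m * z) ^ 2 := by rw [hpt]; ring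
  · apply hJU
    intro i hi
    have h1 := hku (⟨m, hm⟩, ⟨i, hi⟩)
    have h2 := (hab (⟨m, hm⟩, ⟨i, hi⟩)).1
    have h3 := hkw (⟨m, hm⟩, ⟨i, hi⟩)
    have h4 := hmz ⟨i, hi⟩
    rw [hφJdef] at h1 h3 h4
    simp only at h1 h3 h4
    have he : φ (m * x) i - φ n₀ i = (φ (m * x) i - L (⟨m, hm⟩, ⟨i, hi⟩) u) +
        (L (⟨m, hm⟩, ⟨i, hi⟩) u - L (⟨m, hm⟩, ⟨i, hi⟩) w) +
        -(φ (m * z) i - L (⟨m, hm⟩, ⟨i, hi⟩) w) + (φ (m * z) i - φ n₀ i) := by abel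
    rw [he]
    refine lt_of_le_of_lt (norm_add_le _ _) ?_
    have h5 := norm_add₃_le (a := φ (m * x) i - L (⟨m, hm⟩, ⟨i, hi⟩) u)
      (b := L (⟨m, hm⟩, ⟨i, hi⟩) u - L (⟨m, hm⟩, ⟨i, hi⟩) w)
      (c := -(φ (m * z) i - L (⟨m, hm⟩, ⟨i, hi⟩) w))
    rw [norm_neg] at h5
    linarith
  · apply hJU
    intro i hi
    have h1 := hkv (⟨m, hm⟩, ⟨i, hi⟩)
    have h2 := (hab (⟨m, hm⟩, ⟨i, hi⟩)).2
    have h3 := hkw (⟨m, hm⟩, ⟨i, hi⟩)
    have h4 := hmz ⟨i, hi⟩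
    rw [hφJdef] at h1 h3 h4
    simp only at h1 h3 h4
    have he : φ (m * y) i - φ n₀ i = (φ (m * y) i - L (⟨m, hm⟩, ⟨i, hi⟩) v) +
        (L (⟨m, hm⟩, ⟨i, hi⟩) v - L (⟨m, hm⟩, ⟨i, hi⟩) w) +
        -(φ (m * z) i - L (⟨m, hm⟩, ⟨i, hi⟩) w) + (φ (m * z) i - φ n₀ i) := by abel
    rw [he]
    refine lt_of_le_of_lt (norm_add_le _ _) ?_
    have h5 := norm_add₃_le (a := φ (m * y) i - L (⟨m, hm⟩, ⟨i, hi⟩) v)
      (b := L (⟨m, hm⟩, ⟨i, hi⟩) v - L (⟨m, hm⟩, ⟨i, hi⟩) w)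
      (c := -(φ (m * z) i - L (⟨m, hm⟩, ⟨i, hi⟩) w))
    rw [norm_neg] at h5
    linarith
  · apply hJU
    intro i hi
    have h4 := hmz ⟨i, hi⟩
    rw [hφJdef] at h4
    simp only at h4
    linarith

end Pool.Agent.Work.MP_0f91f8_co.Quad
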