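import Pool.Agent.Work.MP_0f91f8_co.Quad.NTw

/-!
Twisted Bohr recurrence of a set of pairs implies recurrence for polynomial functions twisted by
bilinear forms (two step nilmanifolds).
-/

namespace Pool.Agent.Work.MP_0f91f8_co.Quad

open Finset

universe u v

variable {G : Type u} [AddCommGroup G]

lemma Tw_sum {E : Type*} [AddCommGroup E] {ι : Type v} (s : Finset ι) (D : G →+ E)
    (Ω : ι → E →+ E →+ ℝ) (ψ : ι → ℤ) (φ : ι → G → UnitAddCircle) (h : G) :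
    ∑ i ∈ s, ψ i • Tw D (Ω i) h (φ i) = Tw D (∑ i ∈ s, ψ i • Ω i) h (∑ i ∈ s, ψ i • φ i) := by
  classical
  induction s using Finset.induction_on with
  | empty =>
    rw [sum_empty, sum_empty, sum_empty]
    funext g
    simp [Tw, Df]
  | insert a s ha ih =>
    rw [sum_insert ha, sum_insert ha, sum_insert ha, ih]
    funext g
    simp only [Tw, Df, Pi.add_apply, Pi.smul_apply, AddMonoidHom.add_apply,
      AddMonoidHom.smul_apply, smul_sub, AddCircle.coe_add, AddCircle.coe_zsmul]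
    abel

lemma bounded_sum {E : Type*} [SeminormedAddCommGroup E] {ι : Type v} (s : Finset ι)
    (Ω : ι → E →+ E →+ ℝ) (hΩ : ∀ i, ∃ K : ℝ, ∀ u v, |Ω i u v| ≤ K * ‖u‖ * ‖v‖) (ψ : ι → ℤ) :
    ∃ K : ℝ, ∀ u v, |(∑ i ∈ s, ψ i • Ω i) u v| ≤ K * ‖u‖ * ‖v‖ := by
  classical
  induction s using Finset.induction_on with
  | empty => exact ⟨0, fun u v => by simp⟩
  | insert a s ha ih =>
    obtain ⟨K₁, h1⟩ := ih
    obtain ⟨K₂, h2⟩ := hΩ a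
    refine ⟨|(ψ a : ℝ)| * K₂ + K₁, fun u v => ?_⟩
    rw [sum_insert ha]
    simp only [AddMonoidHom.add_apply, AddMonoidHom.smul_apply]
    refine (abs_add_le _ _).trans ?_
    rw [zsmul_eq_mul, abs_mul]
    have h3 := mul_le_mul_of_nonneg_left (h2 u v) (abs_nonneg (ψ a : ℝ))
    have h4 := h1 u v
    calc _ ≤ |(ψ a : ℝ)| * (K₂ * ‖u‖ * ‖v‖) + K₁ * ‖u‖ * ‖v‖ := add_le_add h3 h4
      _ = _ := by ring

lemma norm_coe_le (x : ℝ) : ‖(x : UnitAddCircle)‖ ≤ |x| := by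
  rw [UnitAddCircle.norm_eq]
  have := round_le x 0
  simpa using this

theorem abs_recN {E : Type*} [SeminormedAddCommGroup E] (D : G →+ E) (Tr : G → G → Prop)
    (hT : ∀ 𝓕 : Set (G →+ UnitAddCircle), 𝓕.Finite → ∀ (κ : G) (δ : ℝ), 0 < δ →
      ∃ a b, Tr a b ∧ ‖D a‖ < δ ∧ ‖D b - D κ‖ < δ ∧ ∀ F ∈ 𝓕, ‖F a‖ < δ ∧ ‖F b - F κ‖ < δ)
    (ι : Type v) [Fintype ι] (Ω : ι → E →+ E →+ ℝ)
    (hΩ : ∀ i, ∃ K : ℝ, ∀ u v, |Ω i u v| ≤ K * ‖u‖ * ‖v‖)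
    (φ : ι → G → UnitAddCircle) (k : ℕ) (hφ : ∀ i, IsP (k + 2) (φ i))
    (Λ : AddSubgroup UnitAddCircle) (hΛ : TF Λ)
    (hφΛ : ∀ i a b c x, Df a (Df b (Df c (φ i))) x ∈ Λ)
    (ε : ℝ) (hε : 0 < ε) :
    ∃ a b g, Tr a b ∧ ‖D a‖ < ε ∧ ‖D b‖ < ε ∧
      ∀ i, ‖Tw D (Ω i) a (φ i) g‖ < ε ∧ ‖Tw D (Ω i) b (φ i) g‖ < ε := by
  classical
  obtain ⟨n, hn⟩ := exists_nearP.{u, v} (ι ⊕ ι) ε hε
  set Ψ : Finset (ι → ℤ) := Fintype.piFinset (fun _ => Finset.Icc (-(n : ℤ)) n) with hΨ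
  have hmemΨ : ∀ ψ : ι → ℤ, (∀ i, |ψ i| ≤ n) → ψ ∈ Ψ := by
    intro ψ h
    rw [hΨ, Fintype.mem_piFinset]
    intro i
    rw [Finset.mem_Icc]
    exact abs_le.1 (h i)
  obtain ⟨Q, hQ⟩ : ∃ Q : (ι → ℤ) → G → UnitAddCircle, Q = fun ψ => ∑ i, ψ i • φ i := ⟨_, rfl⟩
  obtain ⟨W, hW⟩ : ∃ W : (ι → ℤ) → E →+ E →+ ℝ, W = fun ψ => ∑ i, ψ i • Ω i := ⟨_, rfl⟩
  have hQP : ∀ ψ, IsP (k + 2) (Q ψ) := by
    intro ψ
    rw [hQ]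
    exact IsP.sum _ _ fun i _ => (hφ i).zsmul (ψ i)
  have hQT : ∀ ψ r, IsP (k + 1) (Tw D (W ψ) r (Q ψ)) := fun ψ r => (hQP ψ).tw D (W ψ) r
  have hQΛ : ∀ ψ a b c x, Df a (Df b (Df c (Q ψ))) x ∈ Λ := by
    intro ψ a b c x
    rw [hQ]
    simp only
    rw [Df_sum, Df_sum, Df_sum, sum_zsmul_apply]
    exact Λ.sum_mem fun i _ => Λ.zsmul_mem (hφΛ i a b c x) _
  have hWb : ∀ ψ, ∃ K : ℝ, ∀ u v, |W ψ u v| ≤ K * ‖u‖ * ‖v‖ := by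
    intro ψ
    rw [hW]
    exact bounded_sum univ Ω hΩ ψ
  -- symbols
  have hχex : ∀ (ψ : ι → ℤ) (l : List G), ∃ χ : G →+ UnitAddCircle, l ≠ [] →
      ∀ x ∈ RadW D (W ψ) l.length (Q ψ), χ x = Dl l (Tw D (W ψ) x (Q ψ)) 0 := by
    intro ψ l
    by_cases hl : l = []
    · exact ⟨0, fun h => absurd hl h⟩
    · obtain ⟨χ, hχ⟩ := exists_symbolW D (W ψ) (Q ψ) l hl
      exact ⟨χ, fun _ => hχ⟩
  choose χ hχ using hχex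
  choose KW hKW using hWb
  have h0ex : ∀ ψ : ι → ℤ, ∃ η : ℝ, 0 < η ∧ ∃ χ : G →+ UnitAddCircle,
      ∀ x ∈ RadW D (W ψ) 0 (Q ψ), ‖D x‖ < η →
        Tw D (W ψ) x (Q ψ) 0 = χ x + ((W ψ (D x) (D x) / 2 : ℝ) : UnitAddCircle) :=
    fun ψ => exists_symbolW0 D (W ψ) (hKW ψ) (Q ψ)
  choose η₀ hη₀ χ₀ hχ₀ using h0ex
  -- a common radius
  obtain ⟨η₁, hη₁, hη₁le⟩ := exists_pos_le Ψ (fun ψ => min (η₀ ψ) (1 / (24 * (|KW ψ| + 1))))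
    (fun ψ _ => lt_min (hη₀ ψ) (by positivity))
  obtain ⟨η, hη, hηε, hη1, hηη₁⟩ : ∃ η : ℝ, 0 < η ∧ η ≤ ε ∧ η ≤ 1 ∧ η ≤ η₁ :=
    ⟨min ε (min 1 η₁), lt_min hε (lt_min one_pos hη₁), min_le_left _ _,
      (min_le_right _ _).trans (min_le_left _ _), (min_le_right _ _).trans (min_le_right _ _)⟩
  have hηη₀ : ∀ ψ ∈ Ψ, η ≤ η₀ ψ := fun ψ hψ =>
    hηη₁.trans ((hη₁le ψ hψ).trans (min_le_left _ _))
  have hsq : ∀ ψ ∈ Ψ, ∀ x : G, ‖D x‖ < η →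
      ‖((W ψ (D x) (D x) / 2 : ℝ) : UnitAddCircle)‖ ≤ 1 / 48 := by
    intro ψ hψ x hx
    refine (norm_coe_le _).trans ?_
    rw [abs_div, abs_two]
    have h1 := hKW ψ (D x) (D x)
    have h2 : η ≤ 1 / (24 * (|KW ψ| + 1)) := hηη₁.trans ((hη₁le ψ hψ).trans (min_le_right _ _))
    have h3 : 0 ≤ ‖D x‖ := norm_nonneg _
    have h4 : KW ψ * ‖D x‖ * ‖D x‖ ≤ (|KW ψ| + 1) * η := by
      calc KW ψ * ‖D x‖ * ‖D x‖ = KW ψ * (‖D x‖ * ‖D x‖) := by ring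
        _ ≤ (|KW ψ| + 1) * (‖D x‖ * ‖D x‖) := by
            apply mul_le_mul_of_nonneg_right _ (by positivity)
            linarith [le_abs_self (KW ψ)]
        _ ≤ (|KW ψ| + 1) * (η * 1) := by
            apply mul_le_mul_of_nonneg_left _ (by positivity)
            exact mul_le_mul hx.le (hx.le.trans hη1) h3 hη.le
        _ = _ := by ring
    have h5 : (|KW ψ| + 1) * η ≤ 1 / 24 := by
      calc (|KW ψ| + 1) * η ≤ (|KW ψ| + 1) * (1 / (24 * (|KW ψ| + 1))) :=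
            mul_le_mul_of_nonneg_left h2 (by positivity)
        _ = 1 / 24 := by
            have : |KW ψ| + 1 ≠ 0 := by positivity
            field_simp
    linarith
  set U₀ : Set G := {κ | ‖D κ‖ < η ∧ ∀ ψ ∈ Ψ, ‖χ₀ ψ κ‖ < 1 / 16} with hU₀
  have h0 : (0 : G) ∈ U₀ := by
    refine ⟨by rw [map_zero, norm_zero]; exact hη, fun ψ _ => ?_⟩
    rw [map_zero, norm_zero]
    norm_num
  set nc : G → ℕ := fun κ =>
    ((Ψ ×ˢ range (k + 2)).filter (fun p => κ ∈ RadW D (W p.1) p.2 (Q p.1))).card with hnc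
  obtain ⟨κ, hκ, hmin⟩ : ∃ κ ∈ U₀, ∀ κ' ∈ U₀, nc κ ≤ nc κ' := by
    obtain ⟨κ, hκ, h⟩ := (measure nc).wf.has_min U₀ ⟨0, h0⟩
    exact ⟨κ, hκ, fun κ' hκ' => not_lt.1 (h κ' hκ')⟩
  have hmono : ∀ (ψ : ι → ℤ) (i j : ℕ), i ≤ j → ∀ x, x ∈ RadW D (W ψ) i (Q ψ) →
      x ∈ RadW D (W ψ) j (Q ψ) := fun ψ i j hij x hx => IsP.le hij hx
  have hlex : ∀ ψ : ι → ℤ, ∃ l : List G, κ ∉ RadW D (W ψ) 0 (Q ψ) →
      1 ≤ l.length ∧ l.length ≤ k + 1 ∧ κ ∈ RadW D (W ψ) l.length (Q ψ) ∧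
        (∀ j, j < l.length → κ ∉ RadW D (W ψ) j (Q ψ)) ∧ Dl l (Tw D (W ψ) κ (Q ψ)) 0 ≠ 0 := by
    intro ψ
    by_cases h : κ ∈ RadW D (W ψ) 0 (Q ψ)
    · exact ⟨[], fun h' => absurd h h'⟩
    have hex : ∃ j, κ ∈ RadW D (W ψ) j (Q ψ) := ⟨k + 1, hQT ψ κ⟩
    have hfind := Nat.find_spec hex
    obtain ⟨j, hj⟩ : ∃ j, j = Nat.find hex := ⟨_, rfl⟩
    rw [← hj] at hfind
    have hjk : j ≤ k + 1 := by rw [hj]; exact Nat.find_min' hex (hQT ψ κ)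
    have hjmin : ∀ i, i < j → κ ∉ RadW D (W ψ) i (Q ψ) := by
      intro i hi
      rw [hj] at hi
      exact Nat.find_min hex hi
    have hj1 : 1 ≤ j := by
      rcases Nat.eq_zero_or_pos j with h' | h'
      · rw [h'] at hfind; exact absurd hfind h
      · exact h'
    obtain ⟨j', rfl⟩ : ∃ j', j = j' + 1 := ⟨j - 1, by omega⟩
    have hnot : ¬ ∀ l : List G, l.length = j' + 1 → Dl l (Tw D (W ψ) κ (Q ψ)) = 0 := fun hall =>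
      hjmin j' (Nat.lt_succ_self _) (isP_of_Dl _ hall)
    push Not at hnot
    obtain ⟨l, hl, hl0⟩ := hnot
    refine ⟨l, fun _ => ⟨by omega, by omega, by rw [hl]; exact hfind, by rw [hl]; exact hjmin, ?_⟩⟩
    intro h1
    apply hl0
    have hc := Dl_const l (Tw D (W ψ) κ (Q ψ)) hl hfind
    funext x
    rw [hc x, h1]
    rfl
  choose l hl using hlex
  have hlne : ∀ ψ, κ ∉ RadW D (W ψ) 0 (Q ψ) → l ψ ≠ [] := by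
    intro ψ h hnil
    have := (hl ψ h).1
    rw [hnil] at this
    simp at this
  obtain ⟨δ₁, hδ₁, hδ₁le⟩ := exists_pos_le Ψ (fun ψ => min (1 / 16 - ‖χ₀ ψ κ‖)
    (if κ ∈ RadW D (W ψ) 0 (Q ψ) then 1 else ‖χ ψ (l ψ) κ‖ / 2)) (by
      intro ψ hψ
      apply lt_min
      · have := hκ.2 ψ hψ
        linarith
      · split_ifs with h
        · exact one_pos
        · have h1 := hl ψ h
          rw [hχ ψ (l ψ) (hlne ψ h) κ h1.2.2.1]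
          have := norm_pos_iff.2 h1.2.2.2.2
          linarith)
  obtain ⟨δ, hδ, hδδ₁, hδη, hδ16⟩ : ∃ δ : ℝ, 0 < δ ∧ δ ≤ δ₁ ∧ δ ≤ η - ‖D κ‖ ∧ δ ≤ 1 / 16 := by
    have := hκ.1
    exact ⟨min δ₁ (min (η - ‖D κ‖) (1 / 16)), lt_min hδ₁ (lt_min (by linarith) (by norm_num)),
      min_le_left _ _, (min_le_right _ _).trans (min_le_left _ _),
      (min_le_right _ _).trans (min_le_right _ _)⟩
  have hδχ : ∀ ψ ∈ Ψ, δ ≤ 1 / 16 - ‖χ₀ ψ κ‖ := fun ψ hψ =>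
    hδδ₁.trans ((hδ₁le ψ hψ).trans (min_le_left _ _))
  have hδk : ∀ ψ ∈ Ψ, κ ∉ RadW D (W ψ) 0 (Q ψ) → 2 * δ ≤ ‖χ ψ (l ψ) κ‖ := by
    intro ψ hψ h
    have := hδδ₁.trans ((hδ₁le ψ hψ).trans (min_le_right _ _))
    rw [if_neg h] at this
    linarith
  -- the test homomorphisms
  set 𝓕 : Set (G →+ UnitAddCircle) := (χ₀ '' (Ψ : Set (ι → ℤ))) ∪
    ((fun p : (ι → ℤ) × (ι → ℤ) => χ p.1 (l p.2)) ''
      ((Ψ ×ˢ Ψ : Finset _) : Set ((ι → ℤ) × (ι → ℤ)))) with h𝓕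
  have h𝓕fin : 𝓕.Finite := ((Finset.finite_toSet _).image _).union ((Finset.finite_toSet _).image _)
  obtain ⟨a, b, hab, hDa, hDb, hF⟩ := hT 𝓕 h𝓕fin κ δ hδ
  have hFχ : ∀ ψ ∈ Ψ, ‖χ₀ ψ a‖ < δ ∧ ‖χ₀ ψ b - χ₀ ψ κ‖ < δ := fun ψ hψ =>
    hF _ (Or.inl ⟨ψ, hψ, rfl⟩)
  have hFk : ∀ ψ ∈ Ψ, ∀ ψ' ∈ Ψ, ‖χ ψ (l ψ') a‖ < δ ∧ ‖χ ψ (l ψ') b - χ ψ (l ψ') κ‖ < δ := by
    intro ψ hψ ψ' hψ'
    have h1 : χ ψ (l ψ') ∈ 𝓕 := by
      refine Or.inr ⟨(ψ, ψ'), ?_, rfl⟩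
      rw [Finset.mem_coe, Finset.mem_product]
      exact ⟨hψ, hψ'⟩
    exact hF _ h1
  have hDaη : ‖D a‖ < η := by
    have := norm_nonneg (D κ)
    linarith
  have hDbη : ‖D b‖ < η := by
    have h3 : ‖D b‖ ≤ ‖D b - D κ‖ + ‖D κ‖ := by
      have := norm_add_le (D b - D κ) (D κ)
      rwa [sub_add_cancel] at this
    linarith
  have hbU : b ∈ U₀ := by
    refine ⟨hDbη, fun ψ hψ => ?_⟩
    have h1 := (hFχ ψ hψ).2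
    have h2 := hδχ ψ hψ
    have h3 : ‖χ₀ ψ b‖ ≤ ‖χ₀ ψ b - χ₀ ψ κ‖ + ‖χ₀ ψ κ‖ := by
      have := norm_add_le (χ₀ ψ b - χ₀ ψ κ) (χ₀ ψ κ)
      rwa [sub_add_cancel] at this
    linarith
  have hsub : (Ψ ×ˢ range (k + 2)).filter (fun p => b ∈ RadW D (W p.1) p.2 (Q p.1)) ⊆
      (Ψ ×ˢ range (k + 2)).filter (fun p => κ ∈ RadW D (W p.1) p.2 (Q p.1)) := by
    rintro ⟨ψ, j⟩ hp
    rw [Finset.mem_filter, Finset.mem_product] at hp ⊢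
    obtain ⟨⟨hψ, hj⟩, hb⟩ := hp
    simp only at hψ hj hb
    refine ⟨⟨hψ, hj⟩, ?_⟩
    simp only
    by_contra hne
    have hκ0 : κ ∉ RadW D (W ψ) 0 (Q ψ) := fun h => hne (hmono ψ 0 j (Nat.zero_le _) κ h)
    obtain ⟨hl1, hlk, hlκ, hlmin, hlne'⟩ := hl ψ hκ0
    have hjl : j < (l ψ).length := by
      by_contra hge
      exact hne (hmono ψ _ _ (not_lt.1 hge) κ hlκ)
    have hbL : b ∈ RadW D (W ψ) (l ψ).length (Q ψ) := hmono ψ j _ hjl.le b hb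
    have hb0 : Dl (l ψ) (Tw D (W ψ) b (Q ψ)) = 0 := by
      apply Dl_eq_zero (j := (l ψ).length - 1) (l ψ) _ (by omega)
      exact hmono ψ j _ (by omega) b hb
    have h1 := (hFk ψ hψ ψ hψ).2
    rw [hχ ψ (l ψ) (hlne ψ hκ0) b hbL, hb0, Pi.zero_apply, zero_sub, norm_neg] at h1
    have h2 := hδk ψ hψ hκ0
    linarith
  have heq : (Ψ ×ˢ range (k + 2)).filter (fun p => b ∈ RadW D (W p.1) p.2 (Q p.1)) =
      (Ψ ×ˢ range (k + 2)).filter (fun p => κ ∈ RadW D (W p.1) p.2 (Q p.1)) :=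
    Finset.eq_of_subset_of_card_le hsub (hmin b hbU)
  have hbκ : ∀ ψ ∈ Ψ, ∀ j ≤ k + 1, κ ∈ RadW D (W ψ) j (Q ψ) → b ∈ RadW D (W ψ) j (Q ψ) := by
    intro ψ hψ j hj h
    have : (ψ, j) ∈ (Ψ ×ˢ range (k + 2)).filter (fun p => b ∈ RadW D (W p.1) p.2 (Q p.1)) := by
      rw [heq, Finset.mem_filter, Finset.mem_product, Finset.mem_range]
      exact ⟨⟨hψ, by omega⟩, h⟩
    exact (Finset.mem_filter.1 this).2
  obtain ⟨g, hg⟩ := hn G (fun j => Sum.elim (fun i => Tw D (Ω i) a (φ i))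
    (fun i => Tw D (Ω i) b (φ i)) j) (by
    intro ψ hψ
    have h1 : ψ ∘ Sum.inl ∈ Ψ := hmemΨ _ fun i => hψ _
    have h2 : ψ ∘ Sum.inr ∈ Ψ := hmemΨ _ fun i => hψ _
    obtain ⟨ψ₁, hψ₁⟩ : ∃ ψ₁, ψ₁ = ψ ∘ Sum.inl := ⟨_, rfl⟩
    obtain ⟨ψ₂, hψ₂⟩ : ∃ ψ₂, ψ₂ = ψ ∘ Sum.inr := ⟨_, rfl⟩
    rw [← hψ₁] at h1
    rw [← hψ₂] at h2
    have hfun : ∑ j, ψ j • (fun j => Sum.elim (fun i => Tw D (Ω i) a (φ i))
        (fun i => Tw D (Ω i) b (φ i)) j) j =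
        Tw D (W ψ₁) a (Q ψ₁) + Tw D (W ψ₂) b (Q ψ₂) := by
      rw [Fintype.sum_sum_type, hQ, hW]
      simp only [Sum.elim_inl, Sum.elim_inr]
      rw [← Tw_sum, ← Tw_sum, hψ₁, hψ₂]
      rfl
    have hfun' : ∀ g, ∑ j, ψ j • (fun j => Sum.elim (fun i => Tw D (Ω i) a (φ i))
        (fun i => Tw D (Ω i) b (φ i)) j) j g =
          (Tw D (W ψ₁) a (Q ψ₁) + Tw D (W ψ₂) b (Q ψ₂)) g := by
      intro g
      rw [← hfun, Finset.sum_apply]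
      rfl
    by_cases hconst : IsP 0 (Tw D (W ψ₁) a (Q ψ₁) + Tw D (W ψ₂) b (Q ψ₂))
    · right
      have hκ2 : κ ∈ RadW D (W ψ₂) 0 (Q ψ₂) := by
        by_contra hκ0
        obtain ⟨hl1, hlk, hlκ, hlmin, hlne'⟩ := hl ψ₂ hκ0
        have hbL : b ∈ RadW D (W ψ₂) (l ψ₂).length (Q ψ₂) := hbκ ψ₂ h2 _ hlk hlκ
        have haL : a ∈ RadW D (W ψ₁) (l ψ₂).length (Q ψ₁) := by
          show IsP (l ψ₂).length (Tw D (W ψ₁) a (Q ψ₁))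
          have e1 : Tw D (W ψ₁) a (Q ψ₁) =
            (Tw D (W ψ₁) a (Q ψ₁) + Tw D (W ψ₂) b (Q ψ₂)) - Tw D (W ψ₂) b (Q ψ₂) := by abel
          rw [e1]
          exact (hconst.le (Nat.zero_le _)).sub hbL
        have h3 : Dl (l ψ₂) (Tw D (W ψ₁) a (Q ψ₁) + Tw D (W ψ₂) b (Q ψ₂)) = 0 :=
          Dl_eq_zero (j := (l ψ₂).length - 1) (l ψ₂) _ (by omega) (hconst.le (Nat.zero_le _))
        have h4 := congrFun h3 0
        rw [Dl_add, Pi.add_apply, Pi.zero_apply, ← hχ ψ₁ (l ψ₂) (hlne _ hκ0) a haL,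
          ← hχ ψ₂ (l ψ₂) (hlne _ hκ0) b hbL] at h4
        have h5 := (hFk _ h1 _ h2).1
        have h6 := (hFk _ h2 _ h2).2
        have h7 := hδk _ h2 hκ0
        have h8 : ‖χ ψ₂ (l ψ₂) b‖ < δ := by
          rw [eq_neg_of_add_eq_zero_right h4, norm_neg]
          exact h5
        have h9 : ‖χ ψ₂ (l ψ₂) κ‖ ≤ ‖χ ψ₂ (l ψ₂) b‖ + ‖χ ψ₂ (l ψ₂) b - χ ψ₂ (l ψ₂) κ‖ := by
          have := norm_sub_le (χ ψ₂ (l ψ₂) b) (χ ψ₂ (l ψ₂) b - χ ψ₂ (l ψ₂) κ)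
          rwa [sub_sub_cancel] at this
        linarith
      have hb0 : b ∈ RadW D (W ψ₂) 0 (Q ψ₂) := hbκ ψ₂ h2 0 (Nat.zero_le _) hκ2
      have ha0 : a ∈ RadW D (W ψ₁) 0 (Q ψ₁) := by
        show IsP 0 (Tw D (W ψ₁) a (Q ψ₁))
        have e1 : Tw D (W ψ₁) a (Q ψ₁) =
          (Tw D (W ψ₁) a (Q ψ₁) + Tw D (W ψ₂) b (Q ψ₂)) - Tw D (W ψ₂) b (Q ψ₂) := by abel
        rw [e1]
        exact hconst.sub hb0
      refine ⟨(Tw D (W ψ₁) a (Q ψ₁) + Tw D (W ψ₂) b (Q ψ₂)) 0, ?_,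
        fun g => by rw [hfun' g]; exact hconst g⟩
      have h4 := hχ₀ ψ₁ a ha0 (lt_of_lt_of_le hDaη (hηη₀ _ h1))
      have h5 := hχ₀ ψ₂ b hb0 (lt_of_lt_of_le hDbη (hηη₀ _ h2))
      rw [Pi.add_apply, h4, h5]
      have h6 := (hFχ _ h1).1
      have h7 := hbU.2 _ h2
      have h10 := hsq ψ₁ h1 a hDaη
      have h11 := hsq ψ₂ h2 b hDbη
      refine (norm_add_le _ _).trans ?_
      have h12 := norm_add_le (χ₀ ψ₁ a) ((W ψ₁ (D a) (D a) / 2 : ℝ) : UnitAddCircle)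
      have h13 := norm_add_le (χ₀ ψ₂ b) ((W ψ₂ (D b) (D b) / 2 : ℝ) : UnitAddCircle)
      linarith
    · left
      rw [hfun]
      refine null_of_nonconst hΛ (k := k + 1) _ ((hQT ψ₁ a).add (hQT ψ₂ b)) ?_ hconst
      intro c d x
      rw [Df_add, Df_add, Pi.add_apply, DfDf_Tw, DfDf_Tw]
      exact Λ.add_mem (hQΛ ψ₁ c d a x) (hQΛ ψ₂ c d b x))
  exact ⟨a, b, g, hab, lt_of_lt_of_le hDaη hηε, lt_of_lt_of_le hDbη hηε,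
    fun i => ⟨hg (Sum.inl i), hg (Sum.inr i)⟩⟩

end Pool.Agent.Work.MP_0f91f8_co.Quad
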