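import Pool.Agent.Work.MP_0f91f8_co.Quad.NMain

/-!
The recurrence theorem for two step nilmanifolds with polynomial fibre coordinates.
-/

open Filter Topology

namespace Pool.Agent.Work.MP_0f91f8_co.Quad

open Bohr

attribute [local instance] Ultrafilter.mul Ultrafilter.semigroup

/-- a neighbourhood in the nilmanifold contains a box, uniformly in the lattice -/
lemma box {I : Type*} {m : ℕ} {C : I → Fin m → Fin m → ℤ} {A₀ : Fin m → ℝ} {γ₀ : I → UnitAddCircle}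
    {U : Set ((Fin m → ℝ) × (I → UnitAddCircle))} (hU : U ∈ 𝓝 (A₀, γ₀))
    (hUinv : ∀ u v, (u, v) ∈ U → ∀ k : Fin m → ℤ,
      (u + zr k, fun i => v i + ((bil (C i) u (zr k) : ℝ) : UnitAddCircle)) ∈ U) :
    ∃ J : Set I, J.Finite ∧ ∃ ε : ℝ, 0 < ε ∧
      ∀ (u : Fin m → ℝ) (v : I → UnitAddCircle) (l : Fin m → ℤ), ‖u - A₀ - zr l‖ < ε →
        (∀ i ∈ J, ‖v i - γ₀ i - ((bil (C i) u (zr l) : ℝ) : UnitAddCircle)‖ < ε) → (u, v) ∈ U := by
  classical
  rw [nhds_prod_eq, Filter.mem_prod_iff] at hU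
  obtain ⟨t₁, ht₁, t₂, ht₂, hsub⟩ := hU
  obtain ⟨ε₁, hε₁, h1⟩ := Metric.mem_nhds_iff.1 ht₁
  rw [nhds_pi, Filter.mem_pi] at ht₂
  obtain ⟨J, hJ, t, ht, hsubt⟩ := ht₂
  have hex : ∀ i, ∃ r : ℝ, 0 < r ∧ Metric.ball (γ₀ i) r ⊆ t i := fun i =>
    Metric.mem_nhds_iff.1 (ht i)
  choose r hr hrt using hex
  obtain ⟨ε₂, hε₂, hle⟩ := exists_pos_le hJ.toFinset r (fun i _ => hr i)
  refine ⟨J, hJ, min ε₁ ε₂, lt_min hε₁ hε₂, fun u v l hu hv => ?_⟩
  have h2 : (u - zr l, fun i => v i - ((bil (C i) u (zr l) : ℝ) : UnitAddCircle)) ∈ U := by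
    apply hsub
    refine Set.mk_mem_prod (h1 ?_) (hsubt fun i hi => hrt i ?_)
    · rw [Metric.mem_ball, dist_eq_norm]
      have h3 : u - zr l - A₀ = u - A₀ - zr l := by abel
      rw [h3]
      exact lt_of_lt_of_le hu (min_le_left _ _)
    · rw [Metric.mem_ball, dist_eq_norm]
      have h3 : v i - ((bil (C i) u (zr l) : ℝ) : UnitAddCircle) - γ₀ i =
          v i - γ₀ i - ((bil (C i) u (zr l) : ℝ) : UnitAddCircle) := by abel
      rw [h3]
      exact lt_of_lt_of_le (hv i hi) ((min_le_right _ _).trans (hle i (hJ.mem_toFinset.2 hi)))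
  have h4 := hUinv _ _ h2 l
  have h5 : (u - zr l + zr l, fun i => v i - ((bil (C i) u (zr l) : ℝ) : UnitAddCircle) +
      ((bil (C i) (u - zr l) (zr l) : ℝ) : UnitAddCircle)) = (u, v) := by
    apply Prod.ext
    · simp
    · funext i
      show v i - ((bil (C i) u (zr l) : ℝ) : UnitAddCircle) +
        ((bil (C i) (u - zr l) (zr l) : ℝ) : UnitAddCircle) = v i
      rw [map_sub, AddMonoidHom.sub_apply, AddCircle.coe_sub, bil_int, sub_zero, sub_add_cancel]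
  rw [h5] at h4
  exact h4

theorem mainN {I : Type*} {d m : ℕ} {α : ℕ → Fin m → ℝ}
    (hα : ∀ x y : ℕ, 0 < x → 0 < y → α (x * y) = α x + α y) {γ : ℕ → I → UnitAddCircle}
    (hγ : ∀ i, IsPN d (fun n => γ n i)) (C : I → Fin m → Fin m → ℤ)
    {E : Type*} [CommGroup E] [Finite E] {f : ℕ → E}
    (hf : ∀ m n : ℕ, 0 < m → 0 < n → f (m * n) = f m * f n)
    {Λ : AddSubgroup UnitAddCircle} (hΛ : ∀ y ∈ Λ, ∀ t : ℕ, 1 ≤ t → t • y = 0 → y = 0)
    (hγΛ : ∀ (i : I) (a b c n : ℕ), 0 < a → 0 < b → 0 < c → 0 < n → f a = 1 → f b = 1 → f c = 1 →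
      Dn a (Dn b (Dn c (fun n => γ n i))) n ∈ Λ)
    {n₀ : ℕ} (hn₀ : 0 < n₀)
    {U : Set ((Fin m → ℝ) × (I → UnitAddCircle))} (hU : U ∈ 𝓝 (α n₀, γ n₀))
    (hUinv : ∀ u v, (u, v) ∈ U → ∀ k : Fin m → ℤ,
      (u + zr k, fun i => v i + ((bil (C i) u (zr k) : ℝ) : UnitAddCircle)) ∈ U) {A : Set ℕ}
    (hA : ∀ X : Finset ℕ, (∀ x ∈ X, 0 < x) → ∃ k : ℕ, 0 < k ∧ ∀ x ∈ X, x * k ∈ A) :
    ∃ x y z : ℕ, 0 < x ∧ 0 < y ∧ 0 < z ∧ x ^ 2 + y ^ 2 = z ^ 2 ∧ x ∈ A ∧ y ∈ A ∧ z ∈ A ∧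
      (α x, γ x) ∈ U ∧ (α y, γ y) ∈ U ∧ (α z, γ z) ∈ U := by
  classical
  obtain ⟨J, hJ, ε, hε, hJU⟩ := box hU hUinv
  have hfinJ : Fintype J := hJ.fintype
  obtain ⟨M, hMpos, hM⟩ := syndN (γ := fun n (i : J) => γ n i) hα (fun i => hγ i)
    (fun i : J => C i) hn₀ (ε / 4) (by positivity)
  obtain ⟨𝒰, hid, h𝒰⟩ := exists_idem hA
  have hpos : ∀ᶠ m in (𝒰 : Filter ℕ), 0 < m := by
    filter_upwards [h𝒰 ∅ (by simp)] with m hm
    exact hm.1
  -- the limit functions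
  have hLex : ∀ (i : J) (q : ℚ), ∃ l : UnitAddCircle,
      Tendsto (fun k : ℕ => γ ⌊(k : ℚ) * q⌋₊ i) (𝒰 : Filter ℕ) (𝓝 l) := by
    intro i q
    exact ⟨_, Ultrafilter.le_nhds_lim (𝒰.map (fun k : ℕ => γ ⌊(k : ℚ) * q⌋₊ i))⟩
  choose L hL using hLex
  obtain ⟨Φ, hΦ⟩ : ∃ Φ : J → PQ → UnitAddCircle, Φ = fun i x => L i (vl x) := ⟨_, rfl⟩
  have hΦP : ∀ i, IsP d (Φ i) := by
    intro i
    rw [hΦ]
    exact isP_lim h𝒰 (fun n => γ n i) (L i) (hγ i) (fun q _ => hL i q)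
  have hΦn : ∀ i (n : ℕ) (hn : 0 < n), Φ i (pn n hn) = γ n i := by
    intro i n hn
    have h1 := plim hid hpos (fun n => γ n i) (hγ i) n hn
    have h2 := hL i n
    rw [hΦ]
    show L i (vl (pn n hn)) = γ n i
    rw [vl_pn]
    refine tendsto_nhds_unique h2 ?_
    have h3 : (fun k : ℕ => γ ⌊(k : ℚ) * (n : ℚ)⌋₊ i) = fun m => γ (n * m) i := by
      funext k
      have : (k : ℚ) * (n : ℚ) = ((n * k : ℕ) : ℚ) := by push_cast; ring
      rw [this, Nat.floor_natCast]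
    rw [h3]
    exact h1
  have hDn : ∀ (P : PQ → UnitAddCircle) (p : ℕ → UnitAddCircle),
      (∀ (n : ℕ) (hn : 0 < n), P (pn n hn) = p n) → ∀ (h : ℕ) (hh : 0 < h) (n : ℕ) (hn : 0 < n),
        Df (pn h hh) P (pn n hn) = Dn h p n := by
    intro P p hP h hh n hn
    simp only [Df, Dn]
    rw [pn_add, hP, hP]
  have hΦΛ : ∀ i, ∀ a ∈ (qh f hf).ker, ∀ b ∈ (qh f hf).ker, ∀ c ∈ (qh f hf).ker, ∀ x,
      Df a (Df b (Df c (Φ i))) x ∈ Λ := by
    intro i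
    refine third_mem (ker_gen f hf) Λ (hΦP i) ?_
    intro a b c ha hb hc haH hbH hcH n hn
    have h1 := hDn _ _ (hDn _ _ (hDn (Φ i) (fun n => γ n i) (hΦn i) c hc) b hb) a ha n hn
    rw [h1]
    have hker : ∀ (m : ℕ) (hm : 0 < m), pn m hm ∈ (qh f hf).ker → f m = 1 := by
      intro m hm hmH
      rw [AddMonoidHom.mem_ker, qh_pn] at hmH
      exact hmH
    exact hγΛ i a b c n ha hb hc hn (hker a ha haH) (hker b hb hbH) (hker c hc hcH)
  -- the recurrence theorem in the group of lifts of the kernel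
  obtain ⟨s, hs⟩ : ∃ s : M → PQ, ∀ m' : M, vl (s m') = ((m' : ℕ) : ℚ) ∧
      qa α hα (s m') = α m' :=
    ⟨fun m' => pn m' (hMpos _ m'.2), fun m' => ⟨rfl, qa_pn α hα _ _⟩⟩
  obtain ⟨αK, hαK⟩ : ∃ αK : (qh f hf).ker →+ (Fin m → ℝ), ∀ x, αK x = qa α hα (x : PQ) :=
    ⟨(qa α hα).comp (qh f hf).ker.subtype, fun x => rfl⟩
  obtain ⟨P, hP⟩ : ∃ P : (M × J) → (qh f hf).ker → UnitAddCircle,
      P = fun (p : M × J) (x : (qh f hf).ker) => Φ p.2 ((x : PQ) + s p.1) := ⟨_, rfl⟩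
  have hPP : ∀ p, IsP d (P p) := by
    intro p
    rw [hP]
    exact IsP.comp_hom (qh f hf).ker.subtype ((hΦP p.2).shift (s p.1))
  have hPDf : ∀ (R : PQ → UnitAddCircle) (c : PQ) (h : (qh f hf).ker),
      Df h (fun x : (qh f hf).ker => R ((x : PQ) + c)) =
        fun x : (qh f hf).ker => Df (h : PQ) R ((x : PQ) + c) := by
    intro R c h
    funext x
    simp only [Df]
    rw [AddSubgroup.coe_add, add_right_comm (x : PQ) (h : PQ) c]
  have hPΛ : ∀ p a b c x, Df a (Df b (Df c (P p))) x ∈ Λ := by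
    intro p a b c x
    rw [hP]
    simp only
    rw [hPDf, hPDf, hPDf]
    exact hΦΛ p.2 a a.2 b b.2 c c.2 _
  -- the radius
  obtain ⟨ε₁, hε₁, hε₁ε, hε₁a, hε₁b⟩ : ∃ ε₁ : ℝ, 0 < ε₁ ∧ ε₁ ≤ ε / 16 ∧
      (∀ i : J, ∀ u v : Fin m → ℝ, ‖u‖ < ε₁ → ‖v‖ ≤ ‖α n₀‖ + ε →
        ‖((bil (C i) u v : ℝ) : UnitAddCircle)‖ < ε / 16) ∧
      (∀ i : J, ∀ m' : M, ∀ u : Fin m → ℝ, ‖u‖ < ε₁ →
        ‖((bil (C i) u (α m') : ℝ) : UnitAddCircle)‖ < ε / 16) := by
    have h1 : ∀ i : J, ∃ δ : ℝ, 0 < δ ∧ ∀ u v : Fin m → ℝ, ‖u‖ < δ → ‖v‖ ≤ ‖α n₀‖ + ε →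
        ‖((bil (C i) u v : ℝ) : UnitAddCircle)‖ < ε / 16 := by
      intro i
      obtain ⟨δ, hδ, h⟩ := bil_small (C i) (‖α n₀‖ + ε) (ε / 16) (by positivity)
      exact ⟨δ, hδ, fun u v hu hv => (h u v hu hv).1⟩
    have h2 : ∀ p : M × J, ∃ δ : ℝ, 0 < δ ∧ ∀ u : Fin m → ℝ, ‖u‖ < δ →
        ‖((bil (C p.2) u (α p.1) : ℝ) : UnitAddCircle)‖ < ε / 16 := by
      intro p
      obtain ⟨δ, hδ, h⟩ := bil_small (C p.2) ‖α p.1‖ (ε / 16) (by positivity)
      exact ⟨δ, hδ, fun u hu => (h u _ hu le_rfl).1⟩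
    choose δ₁ hδ₁ h1 using h1
    choose δ₂ hδ₂ h2 using h2
    obtain ⟨e₁, he₁, he₁le⟩ := exists_pos_le Finset.univ δ₁ (fun i _ => hδ₁ i)
    obtain ⟨e₂, he₂, he₂le⟩ := exists_pos_le Finset.univ δ₂ (fun i _ => hδ₂ i)
    refine ⟨min (ε / 16) (min e₁ e₂), lt_min (by positivity) (lt_min he₁ he₂), min_le_left _ _,
      ?_, ?_⟩
    · intro i u v hu hv
      refine h1 i u v (lt_of_lt_of_le hu ?_) hv
      exact (min_le_right _ _).trans ((min_le_left _ _).trans (he₁le i (Finset.mem_univ _)))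
    · intro i m' u hu
      refine h2 (m', i) u (lt_of_lt_of_le hu ?_)
      exact (min_le_right _ _).trans ((min_le_right _ _).trans (he₂le (m', i) (Finset.mem_univ _)))
  obtain ⟨a, b, g, ⟨X, Y, Z, hX, hY, hZ, hXYZ, ha, hb⟩, hDa, hDb, hab⟩ :=
    abs_recN (DD αK)
      (fun a b : (qh f hf).ker × (Fin m → ℤ) => Tr (a.1 : PQ) (b.1 : PQ))
      (tr_lift αK (fun a b : (qh f hf).ker => Tr (a : PQ) (b : PQ)) (tr_rec_ker f hf))
      (M × J) (fun p => bil (C p.2)) (fun p => ⟨_, bil_bound (C p.2)⟩)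
      (fun p x => P p x.1 -
        ((bil (C p.2) (αK x.1 + α p.1) (zr x.2) : ℝ) : UnitAddCircle)) d
      (by
        intro p
        have h1 : IsP (d + 2) (fun x : (qh f hf).ker × (Fin m → ℤ) => P p x.1) :=
          IsP.le (j := d) (by omega) (IsP.comp_hom
            (AddMonoidHom.fst (qh f hf).ker (Fin m → ℤ)) (hPP p))
        exact h1.sub (IsP.le (j := 2) (by omega) (isP_bilpart αK (C p.2) (α p.1))))
      Λ hΛ
      (by
        intro p a b c x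
        have h1 : (fun x : (qh f hf).ker × (Fin m → ℤ) => P p x.1 -
            ((bil (C p.2) (αK x.1 + α p.1) (zr x.2) : ℝ) : UnitAddCircle)) =
            (fun x : (qh f hf).ker × (Fin m → ℤ) => P p x.1) -
              (fun x : (qh f hf).ker × (Fin m → ℤ) =>
                ((bil (C p.2) (αK x.1 + α p.1) (zr x.2) : ℝ) : UnitAddCircle)) := rfl
        have h2 : Df a (Df b (Df c (fun x : (qh f hf).ker × (Fin m → ℤ) =>
            ((bil (C p.2) (αK x.1 + α p.1) (zr x.2) : ℝ) : UnitAddCircle)))) = 0 :=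
          (isP_bilpart αK (C p.2) (α p.1) c b).df_zero a
        rw [h1, Df_sub, Df_sub, Df_sub, h2, sub_zero]
        exact hPΛ p a.1 b.1 c.1 x.1)
      ε₁ hε₁
  simp only [tw_formula] at hab
  obtain ⟨w, hw⟩ : ∃ w : ℚ, w = vl (g.1 : PQ) := ⟨_, rfl⟩
  have hwpos : 0 < w := by rw [hw]; exact vl_pos _
  obtain ⟨u, hu⟩ : ∃ u : ℚ, u = w * (X / Z) := ⟨_, rfl⟩
  obtain ⟨v, hv⟩ : ∃ v : ℚ, v = w * (Y / Z) := ⟨_, rfl⟩
  have hu' : u = vl ((g.1 : PQ) + (a.1 : PQ)) := by rw [vl_add, ha, hu, hw]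
  have hv' : v = vl ((g.1 : PQ) + (b.1 : PQ)) := by rw [vl_add, hb, hv, hw]
  have hupos : 0 < u := by rw [hu]; positivity
  have hvpos : 0 < v := by rw [hv]; positivity
  have huvw : u ^ 2 + v ^ 2 = w ^ 2 := by
    rw [hu, hv]
    field_simp
    rw [← hXYZ]
  have hclose : ∀ q : ℚ, ∀ᶠ k : ℕ in (𝒰 : Filter ℕ), ∀ (m' : M) (i : J),
      ‖γ ⌊(k : ℚ) * (m' * q)⌋₊ i - L i (m' * q)‖ < ε / 16 := by
    intro q
    rw [eventually_all]
    intro m'
    rw [eventually_all]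
    intro i
    have h1 := (hL i (m' * q)).eventually
      (Metric.ball_mem_nhds (L i (m' * q)) (show 0 < ε / 16 by positivity))
    filter_upwards [h1] with k hk
    rwa [dist_eq_norm] at hk
  have hbl : ∀ c : (qh f hf).ker × (Fin m → ℤ), ∀ᶠ k : ℕ in (𝒰 : Filter ℕ), ∀ i : J,
      ‖((bil (C i) (α k) (zr c.2) : ℝ) : UnitAddCircle)‖ < ε / 16 ∧
      ‖((bil (C i) (DD αK c) (α k) : ℝ) : UnitAddCircle)‖ < ε / 16 := by
    intro c
    rw [eventually_all]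
    intro i
    have h1 := (bil_left_lim hid hpos hα (C i) (zr c.2)).eventually
      (Metric.ball_mem_nhds _ (show 0 < ε / 16 by positivity))
    have h2 := (bil_right_lim hid hpos hα (C i) (DD αK c)).eventually
      (Metric.ball_mem_nhds _ (show 0 < ε / 16 by positivity))
    filter_upwards [h1, h2] with k hk1 hk2
    rw [dist_zero_right] at hk1 hk2
    exact ⟨hk1, hk2⟩
  have hS := h𝒰 ({u, v, w} ∪ M.biUnion (fun m => {(m : ℚ) * u, (m : ℚ) * v, (m : ℚ) * w})) (by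
    intro q hq
    simp only [Finset.mem_union, Finset.mem_insert, Finset.mem_singleton, Finset.mem_biUnion] at hq
    rcases hq with (rfl | rfl | rfl) | ⟨m, hm, hq⟩
    · exact hupos
    · exact hvpos
    · exact hwpos
    · have hm' : (0 : ℚ) < m := by exact_mod_cast hMpos m hm
      rcases hq with rfl | rfl | rfl <;> positivity)
  obtain ⟨k, hk, hk0, hku, hkv, hkw, hka, hkb⟩ :=
    (hS.and (hpos.and ((hclose u).and ((hclose v).and ((hclose w).and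
      ((hbl a).and (hbl b))))))).exists
  obtain ⟨x, hx0, -, hx, -⟩ := Em_floor hk (q := u) (by simp) hupos
  obtain ⟨y, hy0, -, hy, -⟩ := Em_floor hk (q := v) (by simp) hvpos
  obtain ⟨z, hz0, -, hz, -⟩ := Em_floor hk (q := w) (by simp) hwpos
  obtain ⟨m', hm', l, hml, hmz⟩ := hM z hz0
  have hm0 := hMpos m' hm'
  have hm0' : (0 : ℚ) < m' := by exact_mod_cast hm0
  have hmul : ∀ (q : ℚ) (n : ℕ), q ∈ ({u, v, w} : Finset ℚ) → 0 < q → (n : ℚ) = k * q →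
      m' * n ∈ A ∧ ⌊(k : ℚ) * ((m' : ℚ) * q)⌋₊ = m' * n := by
    intro q n hq hq0 hn
    have hmem : (m' : ℚ) * q ∈ ({u, v, w} ∪
        M.biUnion (fun m => {(m : ℚ) * u, (m : ℚ) * v, (m : ℚ) * w}) : Finset ℚ) := by
      refine Finset.mem_union_right _ (Finset.mem_biUnion.2 ⟨m', hm', ?_⟩)
      simp only [Finset.mem_insert, Finset.mem_singleton] at hq ⊢
      rcases hq with rfl | rfl | rfl <;> simp
    obtain ⟨n', -, hn'A, hn', hn'f⟩ := Em_floor hk hmem (by positivity)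
    have h1 : n' = m' * n := by
      have : (n' : ℚ) = m' * n := by rw [hn', hn]; ring
      exact_mod_cast this
    rw [h1] at hn'A hn'f
    exact ⟨hn'A, hn'f⟩
  obtain ⟨hxA, hxf⟩ := hmul u x (by simp) hupos hx
  obtain ⟨hyA, hyf⟩ := hmul v y (by simp) hvpos hy
  obtain ⟨hzA, hzf⟩ := hmul w z (by simp) hwpos hz
  have hpt : x ^ 2 + y ^ 2 = z ^ 2 := by
    have : (x : ℚ) ^ 2 + (y : ℚ) ^ 2 = (z : ℚ) ^ 2 := by
      rw [hx, hy, hz]
      calc ((k : ℚ) * u) ^ 2 + (k * v) ^ 2 = k ^ 2 * (u ^ 2 + v ^ 2) := by ring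
        _ = k ^ 2 * w ^ 2 := by rw [huvw]
        _ = (k * w) ^ 2 := by ring
    exact_mod_cast this
  -- the additive part
  have hαz : α (m' * z) = α m' + α k + αK g.1 := by
    rw [hα m' z hm0 hz0, qa_mul α hα hz0 hk0 (g.1 : PQ) (by rw [hz, hw]), hαK, add_assoc]
  have hαx : α (m' * x) = α (m' * z) + αK a.1 := by
    rw [hα m' x hm0 hx0, hα m' z hm0 hz0, qa_mul α hα hx0 hk0 ((g.1 : PQ) + (a.1 : PQ))
      (by rw [hx, hu']), qa_mul α hα hz0 hk0 (g.1 : PQ) (by rw [hz, hw]), hαK, map_add]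
    abel
  have hαy : α (m' * y) = α (m' * z) + αK b.1 := by
    rw [hα m' y hm0 hy0, hα m' z hm0 hz0, qa_mul α hα hy0 hk0 ((g.1 : PQ) + (b.1 : PQ))
      (by rw [hy, hv']), qa_mul α hα hz0 hk0 (g.1 : PQ) (by rw [hz, hw]), hαK, map_add]
    abel
  have hLs : ∀ (i : J) (c : PQ), L i (m' * vl c) = Φ i (c + s ⟨m', hm'⟩) := by
    intro i c
    rw [hΦ]
    show L i (m' * vl c) = L i (vl (c + s ⟨m', hm'⟩))
    rw [vl_add, (hs ⟨m', hm'⟩).1, mul_comm]
  -- one side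
  have hside : ∀ (t : ℕ) (q : ℚ) (c : (qh f hf).ker × (Fin m → ℤ)),
      q = vl ((g.1 : PQ) + (c.1 : PQ)) → ⌊(k : ℚ) * ((m' : ℚ) * q)⌋₊ = m' * t →
      α (m' * t) = α (m' * z) + αK c.1 → ‖DD αK c‖ < ε₁ →
      (∀ i : J, ‖γ ⌊(k : ℚ) * (m' * q)⌋₊ i - L i (m' * q)‖ < ε / 16) →
      (∀ i : J, ‖((bil (C i) (α k) (zr c.2) : ℝ) : UnitAddCircle)‖ < ε / 16 ∧
        ‖((bil (C i) (DD αK c) (α k) : ℝ) : UnitAddCircle)‖ < ε / 16) →
      (∀ i : J, ‖P (⟨m', hm'⟩, i) (g.1 + c.1) - P (⟨m', hm'⟩, i) g.1 -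
        ((bil (C i) (αK g.1 + α m') (zr c.2) : ℝ) : UnitAddCircle) -
        ((bil (C i) (αK c.1) (zr c.2) : ℝ) : UnitAddCircle) -
        ((bil (C i) (αK c.1 - zr c.2) (αK g.1) : ℝ) : UnitAddCircle)‖ < ε₁) →
      (α (m' * t), γ (m' * t)) ∈ U := by
    intro t q c hq htf hαt hDc hclo hblc htw
    have hmove : ∀ i : J, ‖α (m' * z) + αK c.1 - α n₀ - zr (l + c.2)‖ < ε / 4 + ε₁ ∧
        ‖γ (m' * t) i - γ n₀ i -
          ((bil (C i) (α (m' * z) + αK c.1) (zr (l + c.2)) : ℝ) : UnitAddCircle)‖ <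
          ε / 2 + ε / 4 + ε / 16 := by
      intro i
      refine move (C i) (α n₀) (α (m' * z)) (αK c.1) l c.2 (γ (m' * z) i) (γ (m' * t) i) (γ n₀ i)
        hml (hmz i) (by rw [← DD_apply]; exact hDc) ?_ ?_
      · have h1 := hclo i
        rw [htf, hq, hLs i] at h1
        have h2 := hkw ⟨m', hm'⟩ i
        simp only at h2
        rw [hzf, hw, hLs i] at h2
        have h3 := htw i
        rw [hP] at h3
        simp only [AddSubgroup.coe_add] at h3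
        have h4 := hblc i
        have h5 := hε₁b i ⟨m', hm'⟩ _ hDc
        rw [DD_apply] at h4 h5
        simp only at h5
        have he : γ (m' * t) i - γ (m' * z) i -
            ((bil (C i) (α (m' * z)) (zr c.2) : ℝ) : UnitAddCircle) -
            ((bil (C i) (αK c.1) (zr c.2) : ℝ) : UnitAddCircle) -
            ((bil (C i) (αK c.1 - zr c.2) (α (m' * z)) : ℝ) : UnitAddCircle) =
            (γ (m' * t) i - Φ i ((g.1 : PQ) + (c.1 : PQ) + s ⟨m', hm'⟩)) -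
            (γ (m' * z) i - Φ i ((g.1 : PQ) + s ⟨m', hm'⟩)) +
            (Φ i ((g.1 : PQ) + (c.1 : PQ) + s ⟨m', hm'⟩) - Φ i ((g.1 : PQ) + s ⟨m', hm'⟩) -
              ((bil (C i) (αK g.1 + α m') (zr c.2) : ℝ) : UnitAddCircle) -
              ((bil (C i) (αK c.1) (zr c.2) : ℝ) : UnitAddCircle) -
              ((bil (C i) (αK c.1 - zr c.2) (αK g.1) : ℝ) : UnitAddCircle)) -
            ((bil (C i) (α k) (zr c.2) : ℝ) : UnitAddCircle) -
            ((bil (C i) (αK c.1 - zr c.2) (α k) : ℝ) : UnitAddCircle) -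
            ((bil (C i) (αK c.1 - zr c.2) (α m') : ℝ) : UnitAddCircle) := by
          rw [hαz]
          simp only [map_add, map_sub, AddMonoidHom.add_apply, AddMonoidHom.sub_apply,
            AddCircle.coe_add, AddCircle.coe_sub]
          abel
        rw [he]
        refine lt_of_le_of_lt (norm_sub_le _ _) ?_
        refine lt_of_le_of_lt (add_le_add (norm_sub_le _ _) le_rfl) ?_
        refine lt_of_le_of_lt (add_le_add (add_le_add (norm_sub_le _ _) le_rfl) le_rfl) ?_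
        refine lt_of_le_of_lt (add_le_add (add_le_add (add_le_add (norm_add_le _ _) le_rfl)
          le_rfl) le_rfl) ?_
        refine lt_of_le_of_lt (add_le_add (add_le_add (add_le_add (add_le_add (norm_sub_le _ _)
          le_rfl) le_rfl) le_rfl) le_rfl) ?_
        have h6 := h4.1
        have h7 := h4.2
        linarith
      · apply hε₁a i
        · rw [← DD_apply]
          exact hDc
        · have h6 : α (m' * z) - zr l = (α (m' * z) - α n₀ - zr l) + α n₀ := by abel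
          rw [h6]
          have h7 := norm_add_le (α (m' * z) - α n₀ - zr l) (α n₀)
          linarith
    have hdist : ‖α (m' * t) - α n₀ - zr (l + c.2)‖ < ε := by
      have h6 : α (m' * t) - α n₀ - zr (l + c.2) =
          (α (m' * z) - α n₀ - zr l) + (αK c.1 - zr c.2) := by
        rw [hαt, zr_add]
        abel
      rw [h6]
      have h7 := norm_add_le (α (m' * z) - α n₀ - zr l) (αK c.1 - zr c.2)
      have h8 : ‖αK c.1 - zr c.2‖ < ε₁ := hDc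
      linarith
    refine hJU _ _ (l + c.2) hdist ?_
    intro i hi
    have h8 := (hmove ⟨i, hi⟩).2
    simp only at h8
    rw [← hαt] at h8
    linarith
  refine ⟨m' * x, m' * y, m' * z, Nat.mul_pos hm0 hx0, Nat.mul_pos hm0 hy0, Nat.mul_pos hm0 hz0,
    ?_, hxA, hyA, hzA, ?_, ?_, ?_⟩
  · calc (m' * x) ^ 2 + (m' * y) ^ 2 = m' ^ 2 * (x ^ 2 + y ^ 2) := by ring
      _ = (m' * z) ^ 2 := by rw [hpt]; ring
  · exact hside x u a hu' hxf hαx hDa (hku ⟨m', hm'⟩) hka (fun i => (hab (⟨m', hm'⟩, i)).1)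
  · exact hside y v b hv' hyf hαy hDb (hkv ⟨m', hm'⟩) hkb (fun i => (hab (⟨m', hm'⟩, i)).2)
  · refine hJU _ _ l (by linarith) ?_
    intro i hi
    have h4 := hmz ⟨i, hi⟩
    simp only at h4
    linarith

end Pool.Agent.Work.MP_0f91f8_co.Quad
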