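import Pool.Agent.Work.MP_0f91f8_co.Quad.NAbs

/-!
Integer bilinear forms, the group `G × ℤ^m` over a group with a homomorphism to `ℝ^m`, and the lift of
twisted recurrence to it.
-/

namespace Pool.Agent.Work.MP_0f91f8_co.Quad

open Finset

universe u v

/-- an integer bilinear form on `ℝ^m` -/
noncomputable def bil {m : ℕ} (C : Fin m → Fin m → ℤ) :
    (Fin m → ℝ) →+ (Fin m → ℝ) →+ ℝ :=
  AddMonoidHom.mk' (fun u => AddMonoidHom.mk' (fun v => ∑ p, ∑ q, (C p q : ℝ) * u p * v q) (by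
      intro v w
      simp only [Pi.add_apply, mul_add, sum_add_distrib])) (by
    intro u w
    refine AddMonoidHom.ext fun v => ?_
    show ∑ p, ∑ q, (C p q : ℝ) * (u + w) p * v q =
      ∑ p, ∑ q, (C p q : ℝ) * u p * v q + ∑ p, ∑ q, (C p q : ℝ) * w p * v q
    simp only [Pi.add_apply, mul_add, add_mul, sum_add_distrib])

lemma bil_apply {m : ℕ} (C : Fin m → Fin m → ℤ) (u v : Fin m → ℝ) :
    bil C u v = ∑ p, ∑ q, (C p q : ℝ) * u p * v q := rfl

lemma bil_bound {m : ℕ} (C : Fin m → Fin m → ℤ) (u v : Fin m → ℝ) :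
    |bil C u v| ≤ (∑ p, ∑ q, |(C p q : ℝ)|) * ‖u‖ * ‖v‖ := by
  rw [bil_apply, sum_mul, sum_mul]
  refine (abs_sum_le_sum_abs _ _).trans (sum_le_sum fun p _ => ?_)
  rw [sum_mul, sum_mul]
  refine (abs_sum_le_sum_abs _ _).trans (sum_le_sum fun q _ => ?_)
  rw [abs_mul, abs_mul]
  have h1 : |u p| ≤ ‖u‖ := norm_le_pi_norm u p
  have h2 : |v q| ≤ ‖v‖ := norm_le_pi_norm v q
  exact mul_le_mul (mul_le_mul_of_nonneg_left h1 (abs_nonneg _)) h2 (abs_nonneg _) (by positivity)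

/-- integer vectors in `ℝ^m` -/
def zr {m : ℕ} (k : Fin m → ℤ) : Fin m → ℝ := fun p => (k p : ℝ)

lemma zr_add {m : ℕ} (k l : Fin m → ℤ) : zr (k + l) = zr k + zr l := by
  funext p
  simp [zr]

lemma zr_zero {m : ℕ} : zr (0 : Fin m → ℤ) = 0 := by
  funext p
  simp [zr]

lemma bil_int {m : ℕ} (C : Fin m → Fin m → ℤ) (k l : Fin m → ℤ) :
    ((bil C (zr k) (zr l) : ℝ) : UnitAddCircle) = 0 := by
  rw [AddCircle.coe_eq_zero_iff]
  refine ⟨∑ p, ∑ q, C p q * k p * l q, ?_⟩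
  rw [bil_apply]
  simp [zr]

variable {G : Type u} [AddCommGroup G]

/-- the homomorphism to `ℝ^m` on the group of lifts -/
noncomputable def DD {m : ℕ} (α : G →+ (Fin m → ℝ)) : G × (Fin m → ℤ) →+ (Fin m → ℝ) :=
  AddMonoidHom.mk' (fun x => α x.1 - zr x.2) (by
    intro x y
    rw [Prod.fst_add, Prod.snd_add, map_add, zr_add]
    abel)

lemma DD_apply {m : ℕ} (α : G →+ (Fin m → ℝ)) (x : G × (Fin m → ℤ)) :
    DD α x = α x.1 - zr x.2 := rfl

/-- twisted recurrence lifts -/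
lemma tr_lift {m : ℕ} (α : G →+ (Fin m → ℝ)) (Tr : G → G → Prop)
    (hT : ∀ 𝓕 : Set (G →+ UnitAddCircle), 𝓕.Finite → ∀ (κ : G) (δ : ℝ), 0 < δ →
      ∃ a b, Tr a b ∧ ∀ F ∈ 𝓕, ‖F a‖ < δ ∧ ‖F b - F κ‖ < δ)
    (𝓕 : Set (G × (Fin m → ℤ) →+ UnitAddCircle)) (h𝓕 : 𝓕.Finite) (κ : G × (Fin m → ℤ)) (δ : ℝ)
    (hδ : 0 < δ) :
    ∃ a b : G × (Fin m → ℤ), Tr a.1 b.1 ∧ ‖DD α a‖ < δ ∧ ‖DD α b - DD α κ‖ < δ ∧
      ∀ F ∈ 𝓕, ‖F a‖ < δ ∧ ‖F b - F κ‖ < δ := by
  classical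
  -- real lifts of the values on the unit vectors
  have hlift : ∀ (F : G × (Fin m → ℤ) →+ UnitAddCircle) (p : Fin m), ∃ t : ℝ,
      (t : UnitAddCircle) = F (0, Pi.single p 1) := by
    intro F p
    obtain ⟨y, hy, -⟩ := exists_lift (F (0, Pi.single p 1))
    exact ⟨y, hy⟩
  choose t ht using hlift
  -- the homomorphisms on `G`
  obtain ⟨R, hR⟩ : ∃ R : (G × (Fin m → ℤ) →+ UnitAddCircle) → G →+ UnitAddCircle,
      ∀ F g, R F g = F (g, 0) + ((∑ p, t F p * α g p : ℝ) : UnitAddCircle) := by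
    refine ⟨fun F => AddMonoidHom.mk' (fun g => F (g, 0) +
      ((∑ p, t F p * α g p : ℝ) : UnitAddCircle)) ?_, fun F g => rfl⟩
    intro x y
    have h1 : F (x + y, 0) = F (x, 0) + F (y, 0) := by
      rw [← map_add, Prod.mk_add_mk, add_zero]
    have h2 : ∑ p, t F p * α (x + y) p = ∑ p, t F p * α x p + ∑ p, t F p * α y p := by
      rw [map_add, ← sum_add_distrib]
      exact sum_congr rfl fun p _ => by rw [Pi.add_apply, mul_add]
    rw [h1, h2, AddCircle.coe_add]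
    abel
  have hid : ∀ (F : G × (Fin m → ℤ) →+ UnitAddCircle) (x : G × (Fin m → ℤ)),
      F x = R F x.1 - ((∑ p, t F p * DD α x p : ℝ) : UnitAddCircle) := by
    intro F x
    obtain ⟨g, k⟩ := x
    have h1 : F (g, k) = F (g, 0) + F (0, k) := by
      rw [← map_add, Prod.mk_add_mk, add_zero, zero_add]
    have h2 : F (0, k) = ((∑ p, t F p * (k p : ℝ) : ℝ) : UnitAddCircle) := by
      have h3 : ((0 : G), k) = ∑ p, k p • ((0 : G), (Pi.single p 1 : Fin m → ℤ)) := by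
        apply Prod.ext
        · simp [Prod.fst_sum]
        · rw [Prod.snd_sum]
          funext q
          simp [Finset.sum_apply, Pi.single_apply]
      rw [h3, map_sum]
      have h4 : ((∑ p, t F p * (k p : ℝ) : ℝ) : UnitAddCircle) =
          ∑ p, ((t F p * (k p : ℝ) : ℝ) : UnitAddCircle) := by
        exact map_sum (QuotientAddGroup.mk' (AddSubgroup.zmultiples (1 : ℝ))) _ _
      rw [h4]
      apply sum_congr rfl
      intro p _
      rw [map_zsmul, ← ht, ← AddCircle.coe_zsmul, zsmul_eq_mul, mul_comm]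
    rw [h1, h2, hR]
    have h5 : (∑ p, t F p * DD α (g, k) p) = ∑ p, t F p * α g p - ∑ p, t F p * (k p : ℝ) := by
      rw [← sum_sub_distrib]
      apply sum_congr rfl
      intro p _
      rw [DD_apply, Pi.sub_apply, mul_sub]
      rfl
    rw [h5, AddCircle.coe_sub]
    abel
  -- the coordinates of `α`
  obtain ⟨P, hP⟩ : ∃ P : Fin m → G →+ UnitAddCircle, ∀ p g, P p g = ((α g p : ℝ) : UnitAddCircle) :=
    ⟨fun p => AddMonoidHom.mk' (fun g => ((α g p : ℝ) : UnitAddCircle)) (by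
      intro x y
      rw [map_add, Pi.add_apply, AddCircle.coe_add]), fun p g => rfl⟩
  obtain ⟨δ₁, hδ₁, hδ₁le⟩ := exists_pos_le h𝓕.toFinset
    (fun F => δ / (1 + ∑ p, |t F p|)) (fun F _ => by positivity)
  obtain ⟨δ', hδ', hδ'1, hδ'δ⟩ : ∃ δ' : ℝ, 0 < δ' ∧ δ' ≤ δ₁ ∧ δ' ≤ δ :=
    ⟨min δ₁ δ, lt_min hδ₁ hδ, min_le_left _ _, min_le_right _ _⟩
  have hsum : ∀ F ∈ 𝓕, ∀ y : Fin m → ℝ, ‖y‖ < δ' →
      ∀ c : UnitAddCircle, ‖c‖ < δ' → ‖c - ((∑ p, t F p * y p : ℝ) : UnitAddCircle)‖ < δ := by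
    intro F hF y hy c hc
    have h1 : ‖((∑ p, t F p * y p : ℝ) : UnitAddCircle)‖ ≤ (∑ p, |t F p|) * δ' := by
      refine (norm_coe_le _).trans ?_
      rw [sum_mul]
      refine (abs_sum_le_sum_abs _ _).trans (sum_le_sum fun p _ => ?_)
      rw [abs_mul]
      have h2 : |y p| ≤ ‖y‖ := norm_le_pi_norm y p
      exact mul_le_mul_of_nonneg_left (h2.trans hy.le) (abs_nonneg _)
    have h2 := norm_sub_le c ((∑ p, t F p * y p : ℝ) : UnitAddCircle)
    have h3 : δ' * (1 + ∑ p, |t F p|) ≤ δ := by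
      have h4 := hδ'1.trans (hδ₁le F (h𝓕.mem_toFinset.2 hF))
      rwa [le_div_iff₀ (by positivity)] at h4
    linarith
  obtain ⟨a, b, hab, hF⟩ := hT (R '' 𝓕 ∪ Set.range P) ((h𝓕.image _).union (Set.finite_range _))
    κ.1 δ' hδ'
  obtain ⟨ka, hka⟩ : ∃ ka : Fin m → ℤ, ka = fun p => round (α a p) := ⟨_, rfl⟩
  obtain ⟨kb, hkb⟩ : ∃ kb : Fin m → ℤ, kb = fun p => κ.2 p + round (α b p - α κ.1 p) := ⟨_, rfl⟩
  have hDa : ‖DD α (a, ka)‖ < δ' := by
    rw [pi_norm_lt_iff hδ']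
    intro p
    have h1 := (hF (P p) (Or.inr ⟨p, rfl⟩)).1
    rw [hP, UnitAddCircle.norm_eq] at h1
    rw [DD_apply, Pi.sub_apply, hka]
    exact h1
  have hDb : ‖DD α (b, kb) - DD α κ‖ < δ' := by
    rw [pi_norm_lt_iff hδ']
    intro p
    have h1 := (hF (P p) (Or.inr ⟨p, rfl⟩)).2
    rw [hP, hP, ← AddCircle.coe_sub, UnitAddCircle.norm_eq] at h1
    rw [DD_apply, DD_apply, Pi.sub_apply, Pi.sub_apply, Pi.sub_apply, hkb]
    have h2 : α b p - zr (fun p => κ.2 p + round (α b p - α κ.1 p)) p - (α κ.1 p - zr κ.2 p) =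
        α b p - α κ.1 p - (round (α b p - α κ.1 p) : ℝ) := by
      simp only [zr]
      push_cast
      ring
    simp only at h2 ⊢
    rw [h2, Real.norm_eq_abs]
    exact h1
  refine ⟨(a, ka), (b, kb), hab, lt_of_lt_of_le hDa hδ'δ, lt_of_lt_of_le hDb hδ'δ, ?_⟩
  intro F hFm
  have h1 := hF (R F) (Or.inl ⟨F, hFm, rfl⟩)
  constructor
  · rw [hid F]
    exact hsum F hFm _ hDa _ h1.1
  · have h2 : F (b, kb) - F κ = (R F b - R F κ.1) -
        ((∑ p, t F p * (DD α (b, kb) - DD α κ) p : ℝ) : UnitAddCircle) := by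
      rw [hid F (b, kb), hid F κ]
      have h3 : (∑ p, t F p * (DD α (b, kb) - DD α κ) p) =
          ∑ p, t F p * DD α (b, kb) p - ∑ p, t F p * DD α κ p := by
        rw [← sum_sub_distrib]
        apply sum_congr rfl
        intro p _
        rw [Pi.sub_apply, mul_sub]
      rw [h3, AddCircle.coe_sub]
      abel
    rw [h2]
    exact hsum F hFm _ hDb _ h1.2

/-- a biadditive form on the diagonal is a polynomial of degree two without third differences -/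
lemma isP_biadd (B : G →+ G →+ UnitAddCircle) : IsP 2 (fun x => B x x) := by
  intro r
  have h1 : Df r (fun x => B x x) = (fun x => (B.flip r + B r) x) + fun _ => B r r := by
    funext x
    simp only [Df, map_add, AddMonoidHom.add_apply, Pi.add_apply, AddMonoidHom.flip_apply]
    abel
  rw [h1]
  exact (isP_hom _).add (isP_const _ _)

lemma Df_biadd (B : G →+ G →+ UnitAddCircle) (a b c : G) :
    Df a (Df b (Df c (fun x => B x x))) = 0 := by
  have h := isP_biadd B c b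
  exact h.df_zero a

end Pool.Agent.Work.MP_0f91f8_co.Quad
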