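import Pool.Agent.Work.MP_0f91f8_co.Quad.PKer

/-!
Pythagorean triples in return time sets of polynomial functions on the multiplicative semigroup.
-/

open Filter Topology

namespace Pool.Agent.Work.MP_0f91f8_co.Quad

open Bohr

attribute [local instance] Ultrafilter.mul Ultrafilter.semigroup

lemma IsPN.mono {k : ℕ} : ∀ {P : ℕ → UnitAddCircle}, IsPN k P → IsPN (k + 1) P := by
  induction k with
  | zero =>
    intro P hP h hh n hn
    show P (n * h) - P n = P (1 * h) - P 1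
    rw [hP n hn, hP _ (Nat.mul_pos hn hh), hP _ (Nat.mul_pos one_pos hh)]
  | succ k ih =>
    intro P hP h hh
    exact ih (hP h hh)

theorem mainP {I : Type*} {d : ℕ} {φ : ℕ → I → UnitAddCircle}
    (hφ : ∀ i, IsPN d (fun n => φ n i))
    {E : Type*} [CommGroup E] [Finite E] {f : ℕ → E}
    (hf : ∀ m n : ℕ, 0 < m → 0 < n → f (m * n) = f m * f n)
    {Λ : AddSubgroup UnitAddCircle} (hΛ : ∀ y ∈ Λ, ∀ t : ℕ, 1 ≤ t → t • y = 0 → y = 0)
    (hφΛ : ∀ (i : I) (a b c n : ℕ), 0 < a → 0 < b → 0 < c → 0 < n → f a = 1 → f b = 1 → f c = 1 →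
      Dn a (Dn b (Dn c (fun n => φ n i))) n ∈ Λ)
    {n₀ : ℕ} (hn₀ : 0 < n₀)
    {U : Set (I → UnitAddCircle)} (hU : U ∈ 𝓝 (φ n₀)) {A : Set ℕ}
    (hA : ∀ X : Finset ℕ, (∀ x ∈ X, 0 < x) → ∃ k : ℕ, 0 < k ∧ ∀ x ∈ X, x * k ∈ A) :
    ∃ x y z : ℕ, 0 < x ∧ 0 < y ∧ 0 < z ∧ x ^ 2 + y ^ 2 = z ^ 2 ∧ x ∈ A ∧ y ∈ A ∧ z ∈ A ∧
      φ x ∈ U ∧ φ y ∈ U ∧ φ z ∈ U := by
  classical
  -- finitely many coordinates
  obtain ⟨J, hJ, ε, hε, hJU⟩ : ∃ J : Set I, J.Finite ∧ ∃ ε : ℝ, 0 < ε ∧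
      ∀ u : I → UnitAddCircle, (∀ i ∈ J, ‖u i - φ n₀ i‖ < ε) → u ∈ U := by
    rw [nhds_pi, Filter.mem_pi] at hU
    obtain ⟨J, hJ, t, ht, hsub⟩ := hU
    have hex : ∀ i, ∃ r : ℝ, 0 < r ∧ Metric.ball (φ n₀ i) r ⊆ t i := fun i =>
      Metric.mem_nhds_iff.1 (ht i)
    choose r hr hrt using hex
    obtain ⟨ε, hε, hle⟩ := exists_pos_le hJ.toFinset r (fun i _ => hr i)
    refine ⟨J, hJ, ε, hε, fun u hu => hsub fun i hi => hrt i ?_⟩
    rw [Metric.mem_ball, dist_eq_norm]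
    exact lt_of_lt_of_le (hu i hi) (hle i (hJ.mem_toFinset.2 hi))
  have hfinJ : Fintype J := hJ.fintype
  obtain ⟨M, hMpos, hM⟩ := syndP (φ := fun n (i : J) => φ n i) (fun i => hφ i) hn₀ (ε / 4)
    (by positivity)
  obtain ⟨𝒰, hid, h𝒰⟩ := exists_idem hA
  have hpos : ∀ᶠ m in (𝒰 : Filter ℕ), 0 < m := by
    filter_upwards [h𝒰 ∅ (by simp)] with m hm
    exact hm.1
  -- the limit functions
  have hLex : ∀ (i : J) (q : ℚ), ∃ l : UnitAddCircle,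
      Tendsto (fun k : ℕ => φ ⌊(k : ℚ) * q⌋₊ i) (𝒰 : Filter ℕ) (𝓝 l) := by
    intro i q
    exact ⟨_, Ultrafilter.le_nhds_lim (𝒰.map (fun k : ℕ => φ ⌊(k : ℚ) * q⌋₊ i))⟩
  choose L hL using hLex
  obtain ⟨Φ, hΦ⟩ : ∃ Φ : J → PQ → UnitAddCircle, Φ = fun i x => L i (vl x) := ⟨_, rfl⟩
  have hΦP : ∀ i, IsP d (Φ i) := by
    intro i
    rw [hΦ]
    exact isP_lim h𝒰 (fun n => φ n i) (L i) (hφ i) (fun q _ => hL i q)
  have hΦn : ∀ i (n : ℕ) (hn : 0 < n), Φ i (pn n hn) = φ n i := by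
    intro i n hn
    have h1 := plim hid hpos (fun n => φ n i) (hφ i) n hn
    have h2 := hL i n
    rw [hΦ]
    show L i (vl (pn n hn)) = φ n i
    rw [vl_pn]
    refine tendsto_nhds_unique h2 ?_
    have h3 : (fun k : ℕ => φ ⌊(k : ℚ) * (n : ℚ)⌋₊ i) = fun m => φ (n * m) i := by
      funext k
      have : (k : ℚ) * (n : ℚ) = ((n * k : ℕ) : ℚ) := by push_cast; ring
      rw [this, Nat.floor_natCast]
    rw [h3]
    exact h1
  have hDn : ∀ (P : PQ → UnitAddCircle) (p : ℕ → UnitAddCircle),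
      (∀ (n : ℕ) (hn : 0 < n), P (pn n hn) = p n) → ∀ (h : ℕ) (hh : 0 < h) (n : ℕ) (hn : 0 < n),
        Df (pn h hh) P (pn n hn) = Dn h p n := by
    intro P p hP h hh n hn
    simp only [Df, Dn]
    rw [pn_add, hP, hP]
  have hΦΛ : ∀ i, ∀ a ∈ (qh f hf).ker, ∀ b ∈ (qh f hf).ker, ∀ c ∈ (qh f hf).ker, ∀ x,
      Df a (Df b (Df c (Φ i))) x ∈ Λ := by
    intro i
    refine third_mem (ker_gen f hf) Λ (hΦP i) ?_
    intro a b c ha hb hc haH hbH hcH n hn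
    have h1 := hDn _ _ (hDn _ _ (hDn (Φ i) (fun n => φ n i) (hΦn i) c hc) b hb) a ha n hn
    rw [h1]
    have hker : ∀ (m : ℕ) (hm : 0 < m), pn m hm ∈ (qh f hf).ker → f m = 1 := by
      intro m hm hmH
      rw [AddMonoidHom.mem_ker, qh_pn] at hmH
      exact hmH
    exact hφΛ i a b c n ha hb hc hn (hker a ha haH) (hker b hb hbH) (hker c hc hcH)
  -- the recurrence theorem in the kernel
  obtain ⟨s, hs⟩ : ∃ s : M → PQ, ∀ m : M, vl (s m) = ((m : ℕ) : ℚ) :=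
    ⟨fun m => pn m (hMpos _ m.2), fun m => rfl⟩
  obtain ⟨Ψ, hΨ⟩ : ∃ Ψ : (M × J) → (qh f hf).ker → UnitAddCircle,
      Ψ = fun (p : M × J) (x : (qh f hf).ker) => Φ p.2 ((x : PQ) + s p.1) := ⟨_, rfl⟩
  have hΨDf : ∀ (P : PQ → UnitAddCircle) (c : PQ) (h : (qh f hf).ker),
      Df h (fun x : (qh f hf).ker => P ((x : PQ) + c)) =
        fun x : (qh f hf).ker => Df (h : PQ) P ((x : PQ) + c) := by
    intro P c h
    funext x
    simp only [Df]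
    rw [AddSubgroup.coe_add, add_right_comm (x : PQ) (h : PQ) c]
  obtain ⟨a, b, g, ⟨X, Y, Z, hX, hY, hZ, hXYZ, ha, hb⟩, hab⟩ :=
    abs_recP (fun a b : (qh f hf).ker => Tr a b) (tr_rec_ker f hf) (M × J) Ψ d
      (by
        intro p
        rw [hΨ]
        exact IsP.comp_hom (qh f hf).ker.subtype ((hΦP p.2).mono.shift (s p.1)))
      Λ hΛ
      (by
        intro p a b c x
        rw [hΨ]
        simp only
        rw [hΨDf, hΨDf, hΨDf]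
        exact hΦΛ p.2 a a.2 b b.2 c c.2 _)
      (ε / 4) (by positivity)
  obtain ⟨w, hw⟩ : ∃ w : ℚ, w = vl (g : PQ) := ⟨_, rfl⟩
  have hwpos : 0 < w := by rw [hw]; exact vl_pos _
  obtain ⟨u, hu⟩ : ∃ u : ℚ, u = w * (X / Z) := ⟨_, rfl⟩
  obtain ⟨v, hv⟩ : ∃ v : ℚ, v = w * (Y / Z) := ⟨_, rfl⟩
  have hab' : ∀ (m : M) (i : J), ‖L i (m * u) - L i (m * w)‖ < ε / 4 ∧
      ‖L i (m * v) - L i (m * w)‖ < ε / 4 := by
    intro m i
    have h1 := hab (m, i)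
    rw [hΨ, hΦ] at h1
    simp only [AddSubgroup.coe_add, vl_add] at h1
    rw [ha, hb, hs, ← hw, ← hu, ← hv, mul_comm u, mul_comm v, mul_comm w] at h1
    exact h1
  have hupos : 0 < u := by rw [hu]; positivity
  have hvpos : 0 < v := by rw [hv]; positivity
  have huvw : u ^ 2 + v ^ 2 = w ^ 2 := by
    rw [hu, hv]
    field_simp
    rw [← hXYZ]
  have hclose : ∀ q : ℚ, ∀ᶠ k : ℕ in (𝒰 : Filter ℕ), ∀ (m : M) (i : J),
      ‖φ ⌊(k : ℚ) * (m * q)⌋₊ i - L i (m * q)‖ < ε / 4 := by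
    intro q
    rw [eventually_all]
    intro m
    rw [eventually_all]
    intro i
    have h1 := (hL i (m * q)).eventually
      (Metric.ball_mem_nhds (L i (m * q)) (show 0 < ε / 4 by positivity))
    filter_upwards [h1] with k hk
    rwa [dist_eq_norm] at hk
  have hS := h𝒰 ({u, v, w} ∪ M.biUnion (fun m => {(m : ℚ) * u, (m : ℚ) * v, (m : ℚ) * w})) (by
    intro q hq
    simp only [Finset.mem_union, Finset.mem_insert, Finset.mem_singleton, Finset.mem_biUnion] at hq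
    rcases hq with (rfl | rfl | rfl) | ⟨m, hm, hq⟩
    · exact hupos
    · exact hvpos
    · exact hwpos
    · have hm' : (0 : ℚ) < m := by exact_mod_cast hMpos m hm
      rcases hq with rfl | rfl | rfl <;> positivity)
  obtain ⟨k, hk, hku, hkv, hkw⟩ :=
    (hS.and ((hclose u).and ((hclose v).and (hclose w)))).exists
  obtain ⟨x, hx0, -, hx, -⟩ := Em_floor hk (q := u) (by simp) hupos
  obtain ⟨y, hy0, -, hy, -⟩ := Em_floor hk (q := v) (by simp) hvpos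
  obtain ⟨z, hz0, -, hz, -⟩ := Em_floor hk (q := w) (by simp) hwpos
  obtain ⟨m, hm, hmz⟩ := hM z hz0
  have hm0 := hMpos m hm
  have hm0' : (0 : ℚ) < m := by exact_mod_cast hm0
  have hmul : ∀ (q : ℚ) (n : ℕ), q ∈ ({u, v, w} : Finset ℚ) → 0 < q → (n : ℚ) = k * q →
      m * n ∈ A ∧ ⌊(k : ℚ) * ((m : ℚ) * q)⌋₊ = m * n := by
    intro q n hq hq0 hn
    have hmem : (m : ℚ) * q ∈ ({u, v, w} ∪
        M.biUnion (fun m => {(m : ℚ) * u, (m : ℚ) * v, (m : ℚ) * w}) : Finset ℚ) := by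
      refine Finset.mem_union_right _ (Finset.mem_biUnion.2 ⟨m, hm, ?_⟩)
      simp only [Finset.mem_insert, Finset.mem_singleton] at hq ⊢
      rcases hq with rfl | rfl | rfl <;> simp
    obtain ⟨n', -, hn'A, hn', hn'f⟩ := Em_floor hk hmem (by positivity)
    have h1 : n' = m * n := by
      have : (n' : ℚ) = m * n := by rw [hn', hn]; ring
      exact_mod_cast this
    rw [h1] at hn'A hn'f
    exact ⟨hn'A, hn'f⟩
  obtain ⟨hxA, hxf⟩ := hmul u x (by simp) hupos hx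
  obtain ⟨hyA, hyf⟩ := hmul v y (by simp) hvpos hy
  obtain ⟨hzA, hzf⟩ := hmul w z (by simp) hwpos hz
  have hpt : x ^ 2 + y ^ 2 = z ^ 2 := by
    have : (x : ℚ) ^ 2 + (y : ℚ) ^ 2 = (z : ℚ) ^ 2 := by
      rw [hx, hy, hz]
      calc ((k : ℚ) * u) ^ 2 + (k * v) ^ 2 = k ^ 2 * (u ^ 2 + v ^ 2) := by ring
        _ = k ^ 2 * w ^ 2 := by rw [huvw]
        _ = (k * w) ^ 2 := by ring
    exact_mod_cast this
  refine ⟨m * x, m * y, m * z, Nat.mul_pos hm0 hx0, Nat.mul_pos hm0 hy0, Nat.mul_pos hm0 hz0, ?_,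
    hxA, hyA, hzA, ?_, ?_, ?_⟩
  · calc (m * x) ^ 2 + (m * y) ^ 2 = m ^ 2 * (x ^ 2 + y ^ 2) := by ring
      _ = (m * z) ^ 2 := by rw [hpt]; ring
  · apply hJU
    intro i hi
    have h1 := hku ⟨m, hm⟩ ⟨i, hi⟩
    have h2 := (hab' ⟨m, hm⟩ ⟨i, hi⟩).1
    have h3 := hkw ⟨m, hm⟩ ⟨i, hi⟩
    have h4 := hmz ⟨i, hi⟩
    simp only at h1 h2 h3 h4
    rw [hxf] at h1
    rw [hzf] at h3
    have he : φ (m * x) i - φ n₀ i = (φ (m * x) i - L ⟨i, hi⟩ (m * u)) +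
        (L ⟨i, hi⟩ (m * u) - L ⟨i, hi⟩ (m * w)) +
        -(φ (m * z) i - L ⟨i, hi⟩ (m * w)) + (φ (m * z) i - φ n₀ i) := by abel
    rw [he]
    refine lt_of_le_of_lt (norm_add_le _ _) ?_
    have h5 := norm_add₃_le (a := φ (m * x) i - L ⟨i, hi⟩ (m * u))
      (b := L ⟨i, hi⟩ (m * u) - L ⟨i, hi⟩ (m * w))
      (c := -(φ (m * z) i - L ⟨i, hi⟩ (m * w)))
    rw [norm_neg] at h5
    linarith
  · apply hJU
    intro i hi
    have h1 := hkv ⟨m, hm⟩ ⟨i, hi⟩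
    have h2 := (hab' ⟨m, hm⟩ ⟨i, hi⟩).2
    have h3 := hkw ⟨m, hm⟩ ⟨i, hi⟩
    have h4 := hmz ⟨i, hi⟩
    simp only at h1 h2 h3 h4
    rw [hyf] at h1
    rw [hzf] at h3
    have he : φ (m * y) i - φ n₀ i = (φ (m * y) i - L ⟨i, hi⟩ (m * v)) +
        (L ⟨i, hi⟩ (m * v) - L ⟨i, hi⟩ (m * w)) +
        -(φ (m * z) i - L ⟨i, hi⟩ (m * w)) + (φ (m * z) i - φ n₀ i) := by abel
    rw [he]
    refine lt_of_le_of_lt (norm_add_le _ _) ?_
    have h5 := norm_add₃_le (a := φ (m * y) i - L ⟨i, hi⟩ (m * v))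
      (b := L ⟨i, hi⟩ (m * v) - L ⟨i, hi⟩ (m * w))
      (c := -(φ (m * z) i - L ⟨i, hi⟩ (m * w)))
    rw [norm_neg] at h5
    linarith
  · apply hJU
    intro i hi
    have h4 := hmz ⟨i, hi⟩
    simp only at h4
    linarith

end Pool.Agent.Work.MP_0f91f8_co.Quad
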