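import Pool.Agent.Work.MP_0f91f8_co.Quad.NSynd
import Pool.Agent.Work.MP_0f91f8_co.Quad.PMain

/-!
Pythagorean triples in return time sets of two step nilmanifolds with polynomial fibre coordinates.
-/

open Filter Topology

namespace Pool.Agent.Work.MP_0f91f8_co.Quad

open Bohr

attribute [local instance] Ultrafilter.mul Ultrafilter.semigroup

/-- an additive function written multiplicatively -/
def ma {m : ℕ} (α : ℕ → Fin m → ℝ) : ℕ → Multiplicative (Fin m → ℝ) :=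
  fun n => Multiplicative.ofAdd (α n)

lemma ma_mul {m : ℕ} {α : ℕ → Fin m → ℝ}
    (hα : ∀ x y : ℕ, 0 < x → 0 < y → α (x * y) = α x + α y) (x y : ℕ) (hx : 0 < x) (hy : 0 < y) :
    ma α (x * y) = ma α x * ma α y := by
  show Multiplicative.ofAdd (α (x * y)) = _
  rw [hα x y hx hy]
  rfl

/-- the homomorphism of the positive rationals given by an additive function -/
noncomputable def qa {m : ℕ} (α : ℕ → Fin m → ℝ)
    (hα : ∀ x y : ℕ, 0 < x → 0 < y → α (x * y) = α x + α y) : PQ →+ (Fin m → ℝ) :=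
  AddMonoidHom.mk' (fun x => Multiplicative.toAdd (gq (ma α) (vl x))) (by
    intro x y
    rw [vl_add, gq_mul (ma_mul hα) (vl_pos x) (vl_pos y)]
    rfl)

lemma qa_pn {m : ℕ} (α : ℕ → Fin m → ℝ)
    (hα : ∀ x y : ℕ, 0 < x → 0 < y → α (x * y) = α x + α y) (n : ℕ) (hn : 0 < n) :
    qa α hα (pn n hn) = α n := by
  show Multiplicative.toAdd (gq (ma α) (vl (pn n hn))) = α n
  rw [vl_pn, gq_nat (ma_mul hα) hn]
  rfl

lemma qa_mul {m : ℕ} (α : ℕ → Fin m → ℝ)
    (hα : ∀ x y : ℕ, 0 < x → 0 < y → α (x * y) = α x + α y) {n k : ℕ} (hn : 0 < n) (hk : 0 < k)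
    (g : PQ) (h : (n : ℚ) = k * vl g) : α n = α k + qa α hα g := by
  have h1 : pn n hn = pn k hk + g := by
    apply vl_inj
    rw [vl_add, vl_pn, vl_pn, h]
  rw [← qa_pn α hα n hn, h1, map_add, qa_pn]

section

variable {K : Type*} [AddCommGroup K] {m : ℕ}

lemma isP_bilpart (αK : K →+ (Fin m → ℝ)) (C : Fin m → Fin m → ℤ) (w : Fin m → ℝ) :
    IsP 2 (fun x : K × (Fin m → ℤ) => ((bil C (αK x.1 + w) (zr x.2) : ℝ) : UnitAddCircle)) := by
  obtain ⟨B, hB⟩ : ∃ B : K × (Fin m → ℤ) →+ K × (Fin m → ℤ) →+ UnitAddCircle,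
      ∀ x y, B x y = ((bil C (αK x.1) (zr y.2) : ℝ) : UnitAddCircle) := by
    refine ⟨AddMonoidHom.mk' (fun x => AddMonoidHom.mk'
      (fun y => ((bil C (αK x.1) (zr y.2) : ℝ) : UnitAddCircle)) ?_) ?_, fun x y => rfl⟩
    · intro y z
      rw [Prod.snd_add, zr_add, map_add, AddCircle.coe_add]
    · intro x y
      refine AddMonoidHom.ext fun z => ?_
      show ((bil C (αK (x + y).1) (zr z.2) : ℝ) : UnitAddCircle) =
        ((bil C (αK x.1) (zr z.2) : ℝ) : UnitAddCircle) +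
          ((bil C (αK y.1) (zr z.2) : ℝ) : UnitAddCircle)
      rw [Prod.fst_add, map_add, map_add, AddMonoidHom.add_apply, AddCircle.coe_add]
  obtain ⟨χ, hχ⟩ : ∃ χ : K × (Fin m → ℤ) →+ UnitAddCircle,
      ∀ x, χ x = ((bil C w (zr x.2) : ℝ) : UnitAddCircle) := by
    refine ⟨AddMonoidHom.mk' (fun y => ((bil C w (zr y.2) : ℝ) : UnitAddCircle)) ?_,
      fun x => rfl⟩
    intro y z
    rw [Prod.snd_add, zr_add, map_add, AddCircle.coe_add]
  have h1 : (fun x : K × (Fin m → ℤ) => ((bil C (αK x.1 + w) (zr x.2) : ℝ) : UnitAddCircle)) =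
      (fun x => B x x) + fun x => χ x := by
    funext x
    rw [Pi.add_apply, hB, hχ, map_add, AddMonoidHom.add_apply, AddCircle.coe_add]
  rw [h1]
  exact (isP_biadd B).add ((isP_hom χ).le (by omega))

/-- the twisted difference does not depend on the lift -/
lemma tw_formula (αK : K →+ (Fin m → ℝ)) (C : Fin m → Fin m → ℤ) (w : Fin m → ℝ)
    (P : K → UnitAddCircle) (r x : K × (Fin m → ℤ)) :
    Tw (DD αK) (bil C) r (fun x : K × (Fin m → ℤ) => P x.1 -
      ((bil C (αK x.1 + w) (zr x.2) : ℝ) : UnitAddCircle)) x =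
    P (x.1 + r.1) - P x.1 - ((bil C (αK x.1 + w) (zr r.2) : ℝ) : UnitAddCircle) -
      ((bil C (αK r.1) (zr r.2) : ℝ) : UnitAddCircle) -
      ((bil C (αK r.1 - zr r.2) (αK x.1) : ℝ) : UnitAddCircle) := by
  have h1 := bil_int C r.2 x.2
  simp only [Tw, Df, DD_apply, Prod.fst_add, Prod.snd_add, zr_add, map_add, map_sub,
    AddMonoidHom.add_apply, AddMonoidHom.sub_apply, AddCircle.coe_add, AddCircle.coe_sub, h1]
  abel

end

/-- moving a point of the nilmanifold by a small element -/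
lemma move {m : ℕ} (C : Fin m → Fin m → ℤ) (A₀ z' a' : Fin m → ℝ) (l k : Fin m → ℤ)
    (γz γx γ₀ : UnitAddCircle) {e₁ e₂ e₃ e₄ e₅ : ℝ} (h1 : ‖z' - A₀ - zr l‖ < e₁)
    (h2 : ‖γz - γ₀ - ((bil C z' (zr l) : ℝ) : UnitAddCircle)‖ < e₂) (h3 : ‖a' - zr k‖ < e₃)
    (h4 : ‖γx - γz - ((bil C z' (zr k) : ℝ) : UnitAddCircle) -
      ((bil C a' (zr k) : ℝ) : UnitAddCircle) -
      ((bil C (a' - zr k) z' : ℝ) : UnitAddCircle)‖ < e₄)
    (h5 : ‖((bil C (a' - zr k) (z' - zr l) : ℝ) : UnitAddCircle)‖ < e₅) :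
    ‖z' + a' - A₀ - zr (l + k)‖ < e₁ + e₃ ∧
      ‖γx - γ₀ - ((bil C (z' + a') (zr (l + k)) : ℝ) : UnitAddCircle)‖ < e₄ + e₂ + e₅ := by
  constructor
  · have h6 : z' + a' - A₀ - zr (l + k) = (z' - A₀ - zr l) + (a' - zr k) := by
      rw [zr_add]
      abel
    rw [h6]
    exact lt_of_le_of_lt (norm_add_le _ _) (add_lt_add h1 h3)
  · have h7 := bil_int C k l
    have h6 : γx - γ₀ - ((bil C (z' + a') (zr (l + k)) : ℝ) : UnitAddCircle) =
        (γx - γz - ((bil C z' (zr k) : ℝ) : UnitAddCircle) -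
          ((bil C a' (zr k) : ℝ) : UnitAddCircle) -
          ((bil C (a' - zr k) z' : ℝ) : UnitAddCircle)) +
        (γz - γ₀ - ((bil C z' (zr l) : ℝ) : UnitAddCircle)) +
        ((bil C (a' - zr k) (z' - zr l) : ℝ) : UnitAddCircle) := by
      simp only [zr_add, map_add, map_sub, AddMonoidHom.add_apply, AddMonoidHom.sub_apply,
        AddCircle.coe_add, AddCircle.coe_sub, h7]
      abel
    rw [h6]
    exact lt_of_le_of_lt (norm_add₃_le) (by linarith)

end Pool.Agent.Work.MP_0f91f8_co.Quad
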