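import Pool.Agent.Work.MP_0f91f8_co.Quad.PDual

/-!
Twisted Bohr recurrence of a set of pairs implies recurrence for polynomial functions with values in
a torus whose third differences generate a torsion free group.
-/

namespace Pool.Agent.Work.MP_0f91f8_co.Quad

open Finset

universe u v

variable {G : Type u} [AddCommGroup G]

lemma Df_sum {ι : Type v} (s : Finset ι) (ψ : ι → ℤ) (φ : ι → G → UnitAddCircle) (h : G) :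
    Df h (∑ i ∈ s, ψ i • φ i) = ∑ i ∈ s, ψ i • Df h (φ i) := by
  classical
  induction s using Finset.induction_on with
  | empty => rw [sum_empty, sum_empty, Df_zero]
  | insert a s ha ih => rw [sum_insert ha, sum_insert ha, Df_add, Df_zsmul, ih]

omit [AddCommGroup G] in
lemma sum_zsmul_apply {ι : Type v} [Fintype ι] (ψ : ι → ℤ) (φ : ι → G → UnitAddCircle) (x : G) :
    (∑ i, ψ i • φ i) x = ∑ i, ψ i • φ i x := by
  rw [Finset.sum_apply]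
  rfl

theorem abs_recP (Tr : G → G → Prop)
    (hT : ∀ 𝓕 : Set (G →+ UnitAddCircle), 𝓕.Finite → ∀ (κ : G) (δ : ℝ), 0 < δ →
      ∃ a b, Tr a b ∧ ∀ F ∈ 𝓕, ‖F a‖ < δ ∧ ‖F b - F κ‖ < δ)
    (ι : Type v) [Fintype ι] (φ : ι → G → UnitAddCircle) (k : ℕ) (hφ : ∀ i, IsP (k + 1) (φ i))
    (Λ : AddSubgroup UnitAddCircle) (hΛ : TF Λ)
    (hφΛ : ∀ i a b c x, Df a (Df b (Df c (φ i))) x ∈ Λ)
    (ε : ℝ) (hε : 0 < ε) :
    ∃ a b g, Tr a b ∧ ∀ i, ‖φ i (g + a) - φ i g‖ < ε ∧ ‖φ i (g + b) - φ i g‖ < ε := by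
  classical
  obtain ⟨n, hn⟩ := exists_nearP.{u, v} (ι ⊕ ι) ε hε
  set Ψ : Finset (ι → ℤ) := Fintype.piFinset (fun _ => Finset.Icc (-(n : ℤ)) n) with hΨ
  have hmemΨ : ∀ ψ : ι → ℤ, (∀ i, |ψ i| ≤ n) → ψ ∈ Ψ := by
    intro ψ h
    rw [hΨ, Fintype.mem_piFinset]
    intro i
    rw [Finset.mem_Icc]
    exact abs_le.1 (h i)
  obtain ⟨Q, hQ⟩ : ∃ Q : (ι → ℤ) → G → UnitAddCircle, Q = fun ψ => ∑ i, ψ i • φ i := ⟨_, rfl⟩
  have hQP : ∀ ψ, IsP (k + 1) (Q ψ) := by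
    intro ψ
    rw [hQ]
    exact IsP.sum _ _ fun i _ => (hφ i).zsmul (ψ i)
  have hQΛ : ∀ ψ a b c x, Df a (Df b (Df c (Q ψ))) x ∈ Λ := by
    intro ψ a b c x
    rw [hQ]
    simp only
    rw [Df_sum, Df_sum, Df_sum, sum_zsmul_apply]
    exact Λ.sum_mem fun i _ => Λ.zsmul_mem (hφΛ i a b c x) _
  have hχex : ∀ (ψ : ι → ℤ) (l : List G), ∃ χ : G →+ UnitAddCircle,
      ∀ x ∈ Rad l.length (Q ψ), χ x = Dl l (Df x (Q ψ)) 0 := fun ψ l => exists_symbol (Q ψ) l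
  choose χ hχ using hχex
  set U₀ : Set G := {κ | ∀ ψ ∈ Ψ, ‖χ ψ [] κ‖ < 1 / 12} with hU₀
  have h0 : (0 : G) ∈ U₀ := by
    intro ψ _
    rw [map_zero, norm_zero]
    norm_num
  set nc : G → ℕ := fun κ =>
    ((Ψ ×ˢ range (k + 1)).filter (fun p => κ ∈ Rad p.2 (Q p.1))).card with hnc
  obtain ⟨κ, hκ, hmin⟩ : ∃ κ ∈ U₀, ∀ κ' ∈ U₀, nc κ ≤ nc κ' := by
    obtain ⟨κ, hκ, h⟩ := (measure nc).wf.has_min U₀ ⟨0, h0⟩
    exact ⟨κ, hκ, fun κ' hκ' => not_lt.1 (h κ' hκ')⟩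
  have hmono : ∀ (ψ : ι → ℤ) (i j : ℕ), i ≤ j → ∀ x, x ∈ Rad i (Q ψ) → x ∈ Rad j (Q ψ) :=
    fun ψ i j hij x hx => IsP.le hij hx
  have hlex : ∀ ψ : ι → ℤ, ∃ l : List G, κ ∉ Rad 0 (Q ψ) →
      1 ≤ l.length ∧ l.length ≤ k ∧ κ ∈ Rad l.length (Q ψ) ∧
        (∀ j, j < l.length → κ ∉ Rad j (Q ψ)) ∧ Dl l (Df κ (Q ψ)) 0 ≠ 0 := by
    intro ψ
    by_cases h : κ ∈ Rad 0 (Q ψ)
    · exact ⟨[], fun h' => absurd h h'⟩
    have hex : ∃ j, κ ∈ Rad j (Q ψ) := ⟨k, hQP ψ κ⟩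
    have hfind := Nat.find_spec hex
    obtain ⟨j, hj⟩ : ∃ j, j = Nat.find hex := ⟨_, rfl⟩
    rw [← hj] at hfind
    have hjk : j ≤ k := by rw [hj]; exact Nat.find_min' hex (hQP ψ κ)
    have hjmin : ∀ i, i < j → κ ∉ Rad i (Q ψ) := by
      intro i hi
      rw [hj] at hi
      exact Nat.find_min hex hi
    have hj1 : 1 ≤ j := by
      rcases Nat.eq_zero_or_pos j with h' | h'
      · rw [h'] at hfind; exact absurd hfind h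
      · exact h'
    obtain ⟨j', rfl⟩ : ∃ j', j = j' + 1 := ⟨j - 1, by omega⟩
    have hnot : ¬ ∀ l : List G, l.length = j' + 1 → Dl l (Df κ (Q ψ)) = 0 := fun hall =>
      hjmin j' (Nat.lt_succ_self _) (isP_of_Dl _ hall)
    push Not at hnot
    obtain ⟨l, hl, hl0⟩ := hnot
    refine ⟨l, fun _ => ⟨by omega, by omega, by rw [hl]; exact hfind, by rw [hl]; exact hjmin, ?_⟩⟩
    intro h1
    apply hl0
    have hc := Dl_const l (Df κ (Q ψ)) hl hfind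
    funext x
    rw [hc x, h1]
    rfl
  choose l hl using hlex
  obtain ⟨δ, hδ, hδle⟩ := exists_pos_le Ψ (fun ψ => min (1 / 12 - ‖χ ψ [] κ‖)
    (if κ ∈ Rad 0 (Q ψ) then 1 else ‖χ ψ (l ψ) κ‖ / 2)) (by
      intro ψ hψ
      apply lt_min
      · have := hκ ψ hψ
        linarith
      · split_ifs with h
        · exact one_pos
        · have h1 := hl ψ h
          rw [hχ ψ (l ψ) κ h1.2.2.1]
          have := norm_pos_iff.2 h1.2.2.2.2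
          linarith)
  have hδχ : ∀ ψ ∈ Ψ, δ ≤ 1 / 12 - ‖χ ψ [] κ‖ := fun ψ hψ => (hδle ψ hψ).trans (min_le_left _ _)
  have hδk : ∀ ψ ∈ Ψ, κ ∉ Rad 0 (Q ψ) → 2 * δ ≤ ‖χ ψ (l ψ) κ‖ := by
    intro ψ hψ h
    have := (hδle ψ hψ).trans (min_le_right _ _)
    rw [if_neg h] at this
    linarith
  -- the test homomorphisms
  set 𝓕 : Set (G →+ UnitAddCircle) := ((fun ψ => χ ψ []) '' (Ψ : Set (ι → ℤ))) ∪
    ((fun p : (ι → ℤ) × (ι → ℤ) => χ p.1 (l p.2)) ''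
      ((Ψ ×ˢ Ψ : Finset _) : Set ((ι → ℤ) × (ι → ℤ)))) with h𝓕
  have h𝓕fin : 𝓕.Finite := ((Finset.finite_toSet _).image _).union ((Finset.finite_toSet _).image _)
  obtain ⟨a, b, hab, hF⟩ := hT 𝓕 h𝓕fin κ δ hδ
  have hFχ : ∀ ψ ∈ Ψ, ‖χ ψ [] a‖ < δ ∧ ‖χ ψ [] b - χ ψ [] κ‖ < δ := fun ψ hψ =>
    hF _ (Or.inl ⟨ψ, hψ, rfl⟩)
  have hFk : ∀ ψ ∈ Ψ, ∀ ψ' ∈ Ψ, ‖χ ψ (l ψ') a‖ < δ ∧ ‖χ ψ (l ψ') b - χ ψ (l ψ') κ‖ < δ := by
    intro ψ hψ ψ' hψ'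
    have h1 : χ ψ (l ψ') ∈ 𝓕 := by
      refine Or.inr ⟨(ψ, ψ'), ?_, rfl⟩
      rw [Finset.mem_coe, Finset.mem_product]
      exact ⟨hψ, hψ'⟩
    exact hF _ h1
  have hbU : b ∈ U₀ := by
    intro ψ hψ
    have h1 := (hFχ ψ hψ).2
    have h2 := hδχ ψ hψ
    have h3 : ‖χ ψ [] b‖ ≤ ‖χ ψ [] b - χ ψ [] κ‖ + ‖χ ψ [] κ‖ := by
      have := norm_add_le (χ ψ [] b - χ ψ [] κ) (χ ψ [] κ)
      rwa [sub_add_cancel] at this
    linarith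
  have hsub : (Ψ ×ˢ range (k + 1)).filter (fun p => b ∈ Rad p.2 (Q p.1)) ⊆
      (Ψ ×ˢ range (k + 1)).filter (fun p => κ ∈ Rad p.2 (Q p.1)) := by
    rintro ⟨ψ, j⟩ hp
    rw [Finset.mem_filter, Finset.mem_product] at hp ⊢
    obtain ⟨⟨hψ, hj⟩, hb⟩ := hp
    simp only at hψ hj hb
    refine ⟨⟨hψ, hj⟩, ?_⟩
    simp only
    by_contra hne
    have hκ0 : κ ∉ Rad 0 (Q ψ) := fun h => hne (hmono ψ 0 j (Nat.zero_le _) κ h)
    obtain ⟨hl1, hlk, hlκ, hlmin, hlne⟩ := hl ψ hκ0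
    have hjl : j < (l ψ).length := by
      by_contra hge
      exact hne (hmono ψ _ _ (not_lt.1 hge) κ hlκ)
    have hbL : b ∈ Rad (l ψ).length (Q ψ) := hmono ψ j _ hjl.le b hb
    have hb0 : Dl (l ψ) (Df b (Q ψ)) = 0 := by
      apply Dl_eq_zero (j := (l ψ).length - 1) (l ψ) _ (by omega)
      exact hmono ψ j _ (by omega) b hb
    have h1 := (hFk ψ hψ ψ hψ).2
    rw [hχ ψ (l ψ) b hbL, hb0, Pi.zero_apply, zero_sub, norm_neg] at h1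
    have h2 := hδk ψ hψ hκ0
    linarith
  have heq : (Ψ ×ˢ range (k + 1)).filter (fun p => b ∈ Rad p.2 (Q p.1)) =
      (Ψ ×ˢ range (k + 1)).filter (fun p => κ ∈ Rad p.2 (Q p.1)) :=
    Finset.eq_of_subset_of_card_le hsub (hmin b hbU)
  have hbκ : ∀ ψ ∈ Ψ, ∀ j ≤ k, κ ∈ Rad j (Q ψ) → b ∈ Rad j (Q ψ) := by
    intro ψ hψ j hj h
    have : (ψ, j) ∈ (Ψ ×ˢ range (k + 1)).filter (fun p => b ∈ Rad p.2 (Q p.1)) := by
      rw [heq, Finset.mem_filter, Finset.mem_product, Finset.mem_range]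
      exact ⟨⟨hψ, by omega⟩, h⟩
    exact (Finset.mem_filter.1 this).2
  obtain ⟨g, hg⟩ := hn G (fun j => Sum.elim (fun i => Df a (φ i)) (fun i => Df b (φ i)) j) (by
    intro ψ hψ
    have h1 : ψ ∘ Sum.inl ∈ Ψ := hmemΨ _ fun i => hψ _
    have h2 : ψ ∘ Sum.inr ∈ Ψ := hmemΨ _ fun i => hψ _
    obtain ⟨ψ₁, hψ₁⟩ : ∃ ψ₁, ψ₁ = ψ ∘ Sum.inl := ⟨_, rfl⟩
    obtain ⟨ψ₂, hψ₂⟩ : ∃ ψ₂, ψ₂ = ψ ∘ Sum.inr := ⟨_, rfl⟩
    rw [← hψ₁] at h1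
    rw [← hψ₂] at h2
    have hfun : ∑ j, ψ j • (fun j => Sum.elim (fun i => Df a (φ i)) (fun i => Df b (φ i)) j) j =
        Df a (Q ψ₁) + Df b (Q ψ₂) := by
      rw [Fintype.sum_sum_type, hQ]
      simp only [Sum.elim_inl, Sum.elim_inr]
      rw [Df_sum, Df_sum, hψ₁, hψ₂]
      rfl
    have hfun' : ∀ g, ∑ j, ψ j • (fun j => Sum.elim (fun i => Df a (φ i))
        (fun i => Df b (φ i)) j) j g = (Df a (Q ψ₁) + Df b (Q ψ₂)) g := by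
      intro g
      rw [← hfun, Finset.sum_apply]
      rfl
    by_cases hconst : IsP 0 (Df a (Q ψ₁) + Df b (Q ψ₂))
    · right
      have hκ2 : κ ∈ Rad 0 (Q ψ₂) := by
        by_contra hκ0
        obtain ⟨hl1, hlk, hlκ, hlmin, hlne⟩ := hl ψ₂ hκ0
        have hbL : b ∈ Rad (l ψ₂).length (Q ψ₂) := hbκ ψ₂ h2 _ hlk hlκ
        have haL : a ∈ Rad (l ψ₂).length (Q ψ₁) := by
          show IsP (l ψ₂).length (Df a (Q ψ₁))
          have e1 : Df a (Q ψ₁) = (Df a (Q ψ₁) + Df b (Q ψ₂)) - Df b (Q ψ₂) := by abel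
          rw [e1]
          exact (hconst.le (Nat.zero_le _)).sub hbL
        have h3 : Dl (l ψ₂) (Df a (Q ψ₁) + Df b (Q ψ₂)) = 0 :=
          Dl_eq_zero (j := (l ψ₂).length - 1) (l ψ₂) _ (by omega) (hconst.le (Nat.zero_le _))
        have h4 := congrFun h3 0
        rw [Dl_add, Pi.add_apply, Pi.zero_apply, ← hχ ψ₁ (l ψ₂) a haL, ← hχ ψ₂ (l ψ₂) b hbL] at h4
        have h5 := (hFk _ h1 _ h2).1
        have h6 := (hFk _ h2 _ h2).2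
        have h7 := hδk _ h2 hκ0
        have h8 : ‖χ ψ₂ (l ψ₂) b‖ < δ := by
          rw [eq_neg_of_add_eq_zero_right h4, norm_neg]
          exact h5
        have h9 : ‖χ ψ₂ (l ψ₂) κ‖ ≤ ‖χ ψ₂ (l ψ₂) b‖ + ‖χ ψ₂ (l ψ₂) b - χ ψ₂ (l ψ₂) κ‖ := by
          have := norm_sub_le (χ ψ₂ (l ψ₂) b) (χ ψ₂ (l ψ₂) b - χ ψ₂ (l ψ₂) κ)
          rwa [sub_sub_cancel] at this
        linarith
      have hb0 : b ∈ Rad 0 (Q ψ₂) := hbκ ψ₂ h2 0 (Nat.zero_le _) hκ2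
      have ha0 : a ∈ Rad 0 (Q ψ₁) := by
        show IsP 0 (Df a (Q ψ₁))
        have e1 : Df a (Q ψ₁) = (Df a (Q ψ₁) + Df b (Q ψ₂)) - Df b (Q ψ₂) := by abel
        rw [e1]
        exact hconst.sub hb0
      refine ⟨(Df a (Q ψ₁) + Df b (Q ψ₂)) 0, ?_, fun g => by rw [hfun' g]; exact hconst g⟩
      have h4 : χ ψ₁ [] a = Df a (Q ψ₁) 0 := hχ ψ₁ [] a ha0
      have h5 : χ ψ₂ [] b = Df b (Q ψ₂) 0 := hχ ψ₂ [] b hb0
      rw [Pi.add_apply, ← h4, ← h5]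
      have h6 := (hFχ _ h1).1
      have h7 := hbU _ h2
      have h8 := hδχ _ h1
      have h9 := norm_nonneg (χ ψ₁ [] κ)
      refine (norm_add_le _ _).trans ?_
      linarith
    · left
      rw [hfun]
      refine null_of_nonconst hΛ (k := k) _ ((hQP ψ₁ a).add (hQP ψ₂ b)) ?_ hconst
      intro c d x
      rw [Df_add, Df_add, Pi.add_apply]
      exact Λ.add_mem (hQΛ ψ₁ c d a x) (hQΛ ψ₂ c d b x))
  refine ⟨a, b, g, hab, fun i => ⟨hg (Sum.inl i), hg (Sum.inr i)⟩⟩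

end Pool.Agent.Work.MP_0f91f8_co.Quad
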