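import Pool.Agent.Work.MP_0f91f8_co.BohrFinal
import Pool.Agent.Work.MP_0f91f8_co.Quad.Lim
import Pool.Agent.Work.MP_0f91f8_co.Quad.PAbs

/-!
Polynomial functions on the multiplicative semigroup of positive integers, idempotent ultrafilters,
syndetic return times and the extension to the positive rationals.
-/

open Filter Topology

namespace Pool.Agent.Work.MP_0f91f8_co.Quad

open Bohr

attribute [local instance] Ultrafilter.mul Ultrafilter.semigroup

/-- polynomial of degree at most `k` on the multiplicative semigroup of positive integers -/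
def IsPN : ℕ → (ℕ → UnitAddCircle) → Prop
  | 0, P => ∀ n, 0 < n → P n = P 1
  | (k + 1), P => ∀ h, 0 < h → IsPN k (fun n => P (n * h) - P n)

lemma exists_ulim (𝒰 : Ultrafilter ℕ) (F : ℕ → UnitAddCircle) :
    ∃ l : UnitAddCircle, Tendsto F (𝒰 : Filter ℕ) (𝓝 l) :=
  ⟨_, Ultrafilter.le_nhds_lim (𝒰.map F)⟩

/-- limits along idempotent ultrafilters -/
lemma plim {𝒰 : Ultrafilter ℕ} (hid : 𝒰 * 𝒰 = 𝒰) (hpos : ∀ᶠ m in (𝒰 : Filter ℕ), 0 < m) {k : ℕ} :
    ∀ φ : ℕ → UnitAddCircle, IsPN k φ → ∀ n, 0 < n →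
      Tendsto (fun m => φ (n * m)) (𝒰 : Filter ℕ) (𝓝 (φ n)) := by
  induction k with
  | zero =>
    intro φ hφ n hn
    have h1 : ∀ᶠ m in (𝒰 : Filter ℕ), φ n = φ (n * m) := by
      filter_upwards [hpos] with m hm
      rw [hφ _ (Nat.mul_pos hn hm), hφ n hn]
    exact tendsto_const_nhds.congr' h1
  | succ k ih =>
    intro φ hφ
    have hex := fun n : ℕ => exists_ulim 𝒰 (fun m => φ (n * m))
    choose Φ hΦ using hex
    have hdiff : ∀ h, 0 < h → Φ h - Φ 1 = φ h - φ 1 := by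
      intro h hh
      have h1 := ih _ (hφ h hh) 1 one_pos
      have h2 := (hΦ h).sub (hΦ 1)
      refine tendsto_nhds_unique h2 ?_
      have h3 : (fun m => φ (h * m) - φ (1 * m)) = fun m => φ (1 * m * h) - φ (1 * m) := by
        funext m
        rw [one_mul, mul_comm h m]
      rw [h3]
      simpa using h1
    obtain ⟨c, hc⟩ : ∃ c, c = Φ 1 - φ 1 := ⟨_, rfl⟩
    have hΦc : ∀ h, 0 < h → Φ h = φ h + c := by
      intro h hh
      have h1 := hdiff h hh
      rw [hc]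
      calc Φ h = (Φ h - Φ 1) + Φ 1 := by abel
        _ = (φ h - φ 1) + Φ 1 := by rw [h1]
        _ = _ := by abel
    have hc0 : c = 0 := by
      by_contra hne
      have hcpos : 0 < ‖c‖ := norm_pos_iff.2 hne
      have h1 : ∀ᶠ m in (𝒰 : Filter ℕ), ‖φ m - Φ 1‖ < ‖c‖ / 3 := by
        have h2 := (hΦ 1).eventually (Metric.ball_mem_nhds (Φ 1) (show 0 < ‖c‖ / 3 by positivity))
        filter_upwards [h2] with m hm
        rw [dist_eq_norm, one_mul] at hm
        exact hm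
      have h2 : ∀ᶠ m in (𝒰 : Filter ℕ), ∀ᶠ m' in (𝒰 : Filter ℕ),
          ‖φ (m * m') - Φ 1‖ < ‖c‖ / 3 := by
        have h2' : ∀ᶠ m in ((𝒰 * 𝒰 : Ultrafilter ℕ) : Filter ℕ), ‖φ m - Φ 1‖ < ‖c‖ / 3 := by
          rw [hid]
          exact h1
        exact (Ultrafilter.eventually_mul 𝒰 𝒰 (fun m => ‖φ m - Φ 1‖ < ‖c‖ / 3)).1 h2'
      obtain ⟨m, hm, hm1, hm2⟩ := (hpos.and (h1.and h2)).exists
      have h3 := (hΦ m).eventually (Metric.ball_mem_nhds (Φ m) (show 0 < ‖c‖ / 3 by positivity))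
      obtain ⟨m', hm', hm3⟩ := (hm2.and h3).exists
      rw [dist_eq_norm, hΦc m hm] at hm3
      have he : c = -(φ (m * m') - (φ m + c)) + (φ (m * m') - Φ 1) + -(φ m - Φ 1) := by abel
      have h4 := norm_add₃_le (a := -(φ (m * m') - (φ m + c))) (b := φ (m * m') - Φ 1)
        (c := -(φ m - Φ 1))
      rw [← he, norm_neg, norm_neg] at h4
      linarith
    intro n hn
    have := hΦ n
    rwa [hΦc n hn, hc0, add_zero] at this

/-- return times are syndetic -/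
lemma syndP {ι : Type*} [Finite ι] {k : ℕ} {φ : ℕ → ι → UnitAddCircle}
    (h : ∀ i, IsPN k (fun n => φ n i)) {n₀ : ℕ} (hn₀ : 0 < n₀) (ε : ℝ) (hε : 0 < ε) :
    ∃ M : Finset ℕ, (∀ m ∈ M, 0 < m) ∧ ∀ n, 0 < n → ∃ m ∈ M, ∀ i,
      ‖φ (m * n) i - φ n₀ i‖ < ε := by
  classical
  by_contra hcon
  push Not at hcon
  have hstep : ∀ M : {M : Finset ℕ // ∀ m ∈ M, 0 < m}, ∃ n, 0 < n ∧ ∀ m ∈ M.1,
      ∃ i, ε ≤ ‖φ (m * n) i - φ n₀ i‖ := fun M => hcon M.1 M.2
  choose nxt hnxt using hstep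
  obtain ⟨st, hst0, hst⟩ : ∃ st : ℕ → {M : Finset ℕ // ∀ m ∈ M, 0 < m},
      st 0 = ⟨{n₀}, by simpa using hn₀⟩ ∧
      ∀ k, (st (k + 1)).1 = (st k).1 ∪ (st k).1.image (fun m => m * nxt (st k)) := by
    let g : {M : Finset ℕ // ∀ m ∈ M, 0 < m} → {M : Finset ℕ // ∀ m ∈ M, 0 < m} := fun M =>
      ⟨M.1 ∪ M.1.image (fun m => m * nxt M), by
        intro q hq
        rcases Finset.mem_union.1 hq with h | h
        · exact M.2 q h
        · obtain ⟨q', hq', rfl⟩ := Finset.mem_image.1 h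
          exact Nat.mul_pos (M.2 q' hq') (hnxt M).1⟩
    exact ⟨fun k => Nat.rec ⟨{n₀}, by simpa using hn₀⟩ (fun _ M => g M) k, rfl, fun _ => rfl⟩
  obtain ⟨a, ha⟩ : ∃ a : Stream' ℕ, a = fun k => nxt (st k) := ⟨_, rfl⟩
  have hbad : ∀ (s : Stream' ℕ) (m : ℕ), m ∈ Hindman.FP s → ∀ k, s = a.drop k → ∀ f ∈ (st k).1,
      0 < m ∧ ∃ i, ε ≤ ‖φ (f * m) i - φ n₀ i‖ := by
    intro s m hm
    induction hm with
    | head' s =>
      intro k hk f hf
      have h1 : s.head = nxt (st k) := by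
        rw [hk, Stream'.head_drop, ha]
        rfl
      rw [h1]
      exact ⟨(hnxt (st k)).1, (hnxt (st k)).2 f hf⟩
    | tail' s m hm ih =>
      intro k hk f hf
      refine ih (k + 1) ?_ f ?_
      · rw [hk, Stream'.tail_eq_drop, Stream'.drop_drop]
      · rw [hst]
        exact Finset.mem_union_left _ hf
    | cons' s m hm ih =>
      intro k hk f hf
      have h1 : s.head = nxt (st k) := by
        rw [hk, Stream'.head_drop, ha]
        rfl
      have h2 := ih (k + 1) (by rw [hk, Stream'.tail_eq_drop, Stream'.drop_drop])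
        (f * nxt (st k)) (by
          rw [hst]
          exact Finset.mem_union_right _ (Finset.mem_image_of_mem _ hf))
      rw [h1, ← mul_assoc]
      exact ⟨Nat.mul_pos (hnxt (st k)).1 h2.1, h2.2⟩
  have hbad' : ∀ m ∈ Hindman.FP a, 0 < m ∧ ∃ i, ε ≤ ‖φ (n₀ * m) i - φ n₀ i‖ := by
    intro m hm
    apply hbad a m hm 0 rfl
    rw [hst0]
    exact Finset.mem_singleton_self _
  obtain ⟨𝒱, hid, h𝒱⟩ := Hindman.exists_idempotent_ultrafilter_le_FP a
  have hpos : ∀ᶠ m in (𝒱 : Filter ℕ), 0 < m := h𝒱.mono fun m hm => (hbad' m hm).1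
  have hall : ∀ᶠ m in (𝒱 : Filter ℕ), ∀ i, ‖φ (n₀ * m) i - φ n₀ i‖ < ε := by
    rw [eventually_all]
    intro i
    have h1 := (plim hid hpos (fun n => φ n i) (h i) n₀ hn₀).eventually
      (Metric.ball_mem_nhds _ hε)
    filter_upwards [h1] with m hm
    rw [dist_eq_norm] at hm
    exact hm
  obtain ⟨m, hm1, hm2⟩ := (h𝒱.and hall).exists
  obtain ⟨i, hi⟩ := (hbad' m hm1).2
  have := hm2 i
  linarith

/-- good multipliers for a thick set -/
def Em (A : Set ℕ) (S : Finset ℚ) : Set ℕ :=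
  {k | 0 < k ∧ ∀ q ∈ S, ∃ n : ℕ, n ∈ A ∧ (n : ℚ) = k * q}

/-- an idempotent ultrafilter of good multipliers -/
lemma exists_idem {A : Set ℕ}
    (hA : ∀ X : Finset ℕ, (∀ x ∈ X, 0 < x) → ∃ k : ℕ, 0 < k ∧ ∀ x ∈ X, x * k ∈ A) :
    ∃ 𝒰 : Ultrafilter ℕ, 𝒰 * 𝒰 = 𝒰 ∧ ∀ S : Finset ℚ, (∀ q ∈ S, 0 < q) →
      ∀ᶠ k in (𝒰 : Filter ℕ), k ∈ Em A S := by
  classical
  have hne : Nonempty {S : Finset ℚ // ∀ q ∈ S, 0 < q} := ⟨⟨∅, by simp⟩⟩
  have hdir : Directed (· ≥ ·) (fun p : {S : Finset ℚ // ∀ q ∈ S, 0 < q} => 𝓟 (Em A p.1)) := by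
    rintro ⟨S₁, h₁⟩ ⟨S₂, h₂⟩
    refine ⟨⟨S₁ ∪ S₂, ?_⟩, ?_, ?_⟩
    · intro q hq
      rcases Finset.mem_union.1 hq with h | h
      · exact h₁ q h
      · exact h₂ q h
    · apply principal_mono.2
      rintro k ⟨hk, hkS⟩
      exact ⟨hk, fun q hq => hkS q (Finset.mem_union_left _ hq)⟩
    · apply principal_mono.2
      rintro k ⟨hk, hkS⟩
      exact ⟨hk, fun q hq => hkS q (Finset.mem_union_right _ hq)⟩
  have hbot : NeBot (⨅ p : {S : Finset ℚ // ∀ q ∈ S, 0 < q}, 𝓟 (Em A p.1)) := by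
    apply iInf_neBot_of_directed' hdir
    rintro ⟨S, hS⟩
    rw [principal_neBot_iff]
    exact exists_dilate hA S hS
  obtain ⟨𝒲, h𝒲⟩ : ∃ 𝒲 : Ultrafilter ℕ,
      (𝒲 : Filter ℕ) ≤ ⨅ p : {S : Finset ℚ // ∀ q ∈ S, 0 < q}, 𝓟 (Em A p.1) :=
    ⟨Ultrafilter.of _, Ultrafilter.of_le _⟩
  let T : Set (Ultrafilter ℕ) :=
    ⋂ p : {S : Finset ℚ // ∀ q ∈ S, 0 < q}, {𝒰 | Em A p.1 ∈ 𝒰}
  obtain ⟨𝒰, h𝒰, hid⟩ := exists_idempotent_in_compact_subsemigroup
    (M := Ultrafilter ℕ) Ultrafilter.continuous_mul_left T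
    ⟨𝒲, by
      rw [Set.mem_iInter]
      intro p
      have h1 : (𝒲 : Filter ℕ) ≤ 𝓟 (Em A p.1) := h𝒲.trans (iInf_le _ _)
      exact le_principal_iff.1 h1⟩
    (IsClosed.isCompact (isClosed_iInter fun p => ultrafilter_isClosed_basic _))
    (by
      intro U hU V hV
      rw [Set.mem_iInter] at hU hV ⊢
      rintro ⟨S, hS⟩
      show ∀ᶠ k in ((U * V : Ultrafilter ℕ) : Filter ℕ), k ∈ Em A S
      rw [Ultrafilter.eventually_mul]
      have h1 : ∀ᶠ k in (U : Filter ℕ), k ∈ Em A ∅ := hU ⟨∅, by simp⟩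
      filter_upwards [h1] with m hm
      have hm0 : (0 : ℚ) < m := by exact_mod_cast hm.1
      have h2 : ∀ᶠ k in (V : Filter ℕ), k ∈ Em A (S.image (fun q => (m : ℚ) * q)) := by
        refine hV ⟨S.image (fun q => (m : ℚ) * q), ?_⟩
        intro q hq
        obtain ⟨q', hq', rfl⟩ := Finset.mem_image.1 hq
        exact mul_pos hm0 (hS q' hq')
      filter_upwards [h2] with m' hm'
      refine ⟨Nat.mul_pos hm.1 hm'.1, fun q hq => ?_⟩
      obtain ⟨n, hnA, hn⟩ := hm'.2 (m * q) (Finset.mem_image_of_mem _ hq)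
      refine ⟨n, hnA, ?_⟩
      rw [hn]
      push_cast
      ring)
  refine ⟨𝒰, hid, fun S hS => ?_⟩
  rw [Set.mem_iInter] at h𝒰
  exact h𝒰 ⟨S, hS⟩

lemma Em_floor {A : Set ℕ} {S : Finset ℚ} {k : ℕ} (hk : k ∈ Em A S) {q : ℚ} (hq : q ∈ S)
    (hq0 : 0 < q) : ∃ n : ℕ, 0 < n ∧ n ∈ A ∧ (n : ℚ) = k * q ∧ ⌊(k : ℚ) * q⌋₊ = n := by
  obtain ⟨n, hnA, hn⟩ := hk.2 q hq
  have hk0 : (0 : ℚ) < k := by exact_mod_cast hk.1
  have hn0 : (0 : ℚ) < n := by rw [hn]; positivity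
  exact ⟨n, by exact_mod_cast hn0, hnA, hn, by rw [← hn, Nat.floor_natCast]⟩

/-- natural numbers in the group of positive rationals -/
def pn (n : ℕ) (h : 0 < n) : PQ := pq (n : ℚ) (by exact_mod_cast h)

lemma vl_pn (n : ℕ) (h : 0 < n) : vl (pn n h) = n := rfl

lemma exists_pn (x : PQ) : ∃ (u v : ℕ) (hu : 0 < u) (hv : 0 < v), x = pn u hu - pn v hv := by
  obtain ⟨u, v, hu, hv, h⟩ := exists_nat_div (vl_pos x)
  refine ⟨u, v, hu, hv, ?_⟩
  rw [eq_sub_iff_add_eq]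
  apply vl_inj
  rw [vl_add, vl_pn, vl_pn, h]
  have : (v : ℚ) ≠ 0 := by exact_mod_cast hv.ne'
  rw [div_mul_cancel₀ _ this]

lemma Df_sub_step (a b : PQ) (P : PQ → UnitAddCircle) (x : PQ) :
    Df (a - b) P x = Df a P (x - b) - Df b P (x - b) := by
  simp only [Df]
  have e1 : x + (a - b) = x - b + a := by abel
  have e2 : x - b + b = x := by abel
  rw [e1, e2]
  abel

/-- the limit function of a polynomial function is a polynomial function -/
lemma isP_lim {A : Set ℕ} {𝒰 : Ultrafilter ℕ} (h𝒰 : ∀ S : Finset ℚ, (∀ q ∈ S, 0 < q) →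
      ∀ᶠ k in (𝒰 : Filter ℕ), k ∈ Em A S) {k : ℕ} :
    ∀ (φ : ℕ → UnitAddCircle) (L : ℚ → UnitAddCircle), IsPN k φ →
      (∀ q, 0 < q → Tendsto (fun j : ℕ => φ ⌊(j : ℚ) * q⌋₊) (𝒰 : Filter ℕ) (𝓝 (L q))) →
      IsP k (fun x : PQ => L (vl x)) := by
  induction k with
  | zero =>
    intro φ L hφ hL
    have h1 : ∀ q, 0 < q → L q = φ 1 := by
      intro q hq
      refine tendsto_nhds_unique (hL q hq) ?_
      have h2 : ∀ᶠ j : ℕ in (𝒰 : Filter ℕ), φ 1 = φ ⌊(j : ℚ) * q⌋₊ := by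
        filter_upwards [h𝒰 {q} (by simpa using hq)] with j hj
        obtain ⟨n, hn0, -, -, hn⟩ := Em_floor hj (Finset.mem_singleton_self q) hq
        rw [hn, hφ n hn0]
      exact tendsto_const_nhds.congr' h2
    intro x
    show L (vl x) = L (vl 0)
    rw [h1 _ (vl_pos x), h1 _ (vl_pos 0)]
  | succ k ih =>
    intro φ L hφ hL h
    have hnat : ∀ (n : ℕ) (hn : 0 < n), IsP k (Df (pn n hn) (fun x : PQ => L (vl x))) := by
      intro n hn
      have hn' : (0 : ℚ) < n := by exact_mod_cast hn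
      have h1 : Df (pn n hn) (fun x : PQ => L (vl x)) =
          fun x : PQ => (fun q : ℚ => L (q * n) - L q) (vl x) := by
        funext x
        simp only [Df, vl_add, vl_pn]
      rw [h1]
      apply ih (fun m => φ (m * n) - φ m) (fun q : ℚ => L (q * n) - L q) (hφ n hn)
      intro q hq
      have h2 := (hL (q * n) (by positivity)).sub (hL q hq)
      refine h2.congr' ?_
      filter_upwards [h𝒰 {q, q * n} (by
        intro q' hq'
        rw [Finset.mem_insert, Finset.mem_singleton] at hq'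
        rcases hq' with rfl | rfl <;> positivity)] with j hj
      obtain ⟨m, hm0, -, hm, hmf⟩ := Em_floor hj (q := q) (by simp) hq
      obtain ⟨m', hm'0, -, hm', hmf'⟩ := Em_floor hj (q := q * n) (by simp) (by positivity)
      rw [hmf, hmf']
      have h3 : m' = m * n := by
        have : (m' : ℚ) = m * n := by rw [hm', hm]; ring
        exact_mod_cast this
      rw [h3]
    obtain ⟨u, v, hu, hv, rfl⟩ := exists_pn h
    have h1 : Df (pn u hu - pn v hv) (fun x : PQ => L (vl x)) =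
        fun x => (Df (pn u hu) (fun x : PQ => L (vl x)) - Df (pn v hv) (fun x : PQ => L (vl x)))
          (x + -(pn v hv)) := by
      funext x
      rw [Df_sub_step, Pi.sub_apply, sub_eq_add_neg x]
    rw [h1]
    exact IsP.shift _ ((hnat u hu).sub (hnat v hv))

/-- values in a subgroup propagate from natural to rational points -/
lemma mem_of_nat (Λ : AddSubgroup UnitAddCircle) {k : ℕ} : ∀ R : PQ → UnitAddCircle, IsP k R →
    (∀ (n : ℕ) (hn : 0 < n), R (pn n hn) ∈ Λ) → ∀ x, R x ∈ Λ := by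
  induction k with
  | zero =>
    intro R hR hn x
    rw [hR x, ← hR (pn 1 one_pos)]
    exact hn 1 one_pos
  | succ k ih =>
    intro R hR hn x
    obtain ⟨u, v, hu, hv, rfl⟩ := exists_pn x
    have h1 : ∀ y, Df (pn v hv) R y ∈ Λ := by
      apply ih _ (hR _)
      intro n hn0
      simp only [Df]
      have h2 : pn n hn0 + pn v hv = pn (n * v) (Nat.mul_pos hn0 hv) := by
        apply vl_inj
        rw [vl_add, vl_pn, vl_pn, vl_pn]
        push_cast
        rfl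
      rw [h2]
      exact Λ.sub_mem (hn _ _) (hn _ _)
    have h2 := h1 (pn u hu - pn v hv)
    simp only [Df, sub_add_cancel] at h2
    have h3 : R (pn u hu - pn v hv) = R (pn u hu) - (R (pn u hu) - R (pn u hu - pn v hv)) := by
      abel
    rw [h3]
    exact Λ.sub_mem (hn u hu) h2

end Pool.Agent.Work.MP_0f91f8_co.Quad
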