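import Pool.Agent.Work.MP_0f91f8_co.Quad.NLift
import Pool.Agent.Work.MP_0f91f8_co.Quad.PNat

/-!
Idempotent ultrafilters and syndetic return times for two step nilmanifolds.
-/

open Filter Topology

namespace Pool.Agent.Work.MP_0f91f8_co.Quad

open Bohr

attribute [local instance] Ultrafilter.mul Ultrafilter.semigroup

/-- additive functions tend to zero along idempotent ultrafilters -/
lemma addlim {𝒰 : Ultrafilter ℕ} (hid : 𝒰 * 𝒰 = 𝒰) (hpos : ∀ᶠ m in (𝒰 : Filter ℕ), 0 < m)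
    (F : ℕ → UnitAddCircle) (hF : ∀ x y : ℕ, 0 < x → 0 < y → F (x * y) = F x + F y) :
    Tendsto F (𝒰 : Filter ℕ) (𝓝 0) := by
  have h1 : F 1 = 0 := by
    have := hF 1 1 one_pos one_pos
    rw [mul_one] at this
    exact left_eq_add.1 this
  have h2 : IsPN 1 F := by
    intro h hh n hn
    show F (n * h) - F n = F (1 * h) - F 1
    rw [hF n h hn hh, hF 1 h one_pos hh]
    abel
  have h3 := plim hid hpos F h2 1 one_pos
  simpa [h1] using h3

section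

variable {m : ℕ} {α : ℕ → Fin m → ℝ}

/-- the nearest integer vector -/
noncomputable def rd {m : ℕ} (u : Fin m → ℝ) : Fin m → ℤ := fun p => round (u p)

lemma rd_add {u v : Fin m → ℝ} (hu : ‖u - zr (rd u)‖ < 1 / 4) (hv : ‖v - zr (rd v)‖ < 1 / 4) :
    rd (u + v) = rd u + rd v := by
  funext p
  have h1 : |u p - round (u p)| < 1 / 4 := lt_of_le_of_lt (norm_le_pi_norm (u - zr (rd u)) p) hu
  have h2 : |v p - round (v p)| < 1 / 4 := lt_of_le_of_lt (norm_le_pi_norm (v - zr (rd v)) p) hv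
  show round (u p + v p) = round (u p) + round (v p)
  have h3 : |u p + v p - ((round (u p) + round (v p) : ℤ) : ℝ)| < 1 / 2 := by
    push_cast
    have h4 : u p + v p - ((round (u p) : ℝ) + round (v p)) =
        (u p - round (u p)) + (v p - round (v p)) := by ring
    rw [h4]
    have := abs_add_le (u p - round (u p)) (v p - round (v p))
    linarith
  rw [round_eq, Int.floor_eq_iff]
  rw [abs_lt] at h3
  constructor <;> linarith [h3.1, h3.2]

lemma rd_small {𝒰 : Ultrafilter ℕ} (hid : 𝒰 * 𝒰 = 𝒰) (hpos : ∀ᶠ m in (𝒰 : Filter ℕ), 0 < m)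
    (hα : ∀ x y : ℕ, 0 < x → 0 < y → α (x * y) = α x + α y) (δ : ℝ) (hδ : 0 < δ) :
    ∀ᶠ n in (𝒰 : Filter ℕ), ‖α n - zr (rd (α n))‖ < δ := by
  have h1 : ∀ p, ∀ᶠ n in (𝒰 : Filter ℕ), ‖((α n p : ℝ) : UnitAddCircle)‖ < δ := by
    intro p
    have h2 := addlim hid hpos (fun n => ((α n p : ℝ) : UnitAddCircle)) (by
      intro x y hx hy
      rw [hα x y hx hy, Pi.add_apply, AddCircle.coe_add])
    have h3 := h2.eventually (Metric.ball_mem_nhds _ hδ)
    filter_upwards [h3] with n hn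
    rwa [dist_zero_right] at hn
  have h2 : ∀ᶠ n in (𝒰 : Filter ℕ), ∀ p, ‖((α n p : ℝ) : UnitAddCircle)‖ < δ :=
    eventually_all.2 h1
  filter_upwards [h2] with n hn
  rw [pi_norm_lt_iff hδ]
  intro p
  have h3 := hn p
  rw [UnitAddCircle.norm_eq] at h3
  exact h3

lemma bil_left_lim {𝒰 : Ultrafilter ℕ} (hid : 𝒰 * 𝒰 = 𝒰) (hpos : ∀ᶠ m in (𝒰 : Filter ℕ), 0 < m)
    (hα : ∀ x y : ℕ, 0 < x → 0 < y → α (x * y) = α x + α y) (C : Fin m → Fin m → ℤ)
    (u : Fin m → ℝ) :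
    Tendsto (fun n => ((bil C (α n) u : ℝ) : UnitAddCircle)) (𝒰 : Filter ℕ) (𝓝 0) := by
  apply addlim hid hpos
  intro x y hx hy
  rw [hα x y hx hy, map_add, AddMonoidHom.add_apply, AddCircle.coe_add]

lemma bil_right_lim {𝒰 : Ultrafilter ℕ} (hid : 𝒰 * 𝒰 = 𝒰) (hpos : ∀ᶠ m in (𝒰 : Filter ℕ), 0 < m)
    (hα : ∀ x y : ℕ, 0 < x → 0 < y → α (x * y) = α x + α y) (C : Fin m → Fin m → ℤ)
    (u : Fin m → ℝ) :
    Tendsto (fun n => ((bil C u (α n) : ℝ) : UnitAddCircle)) (𝒰 : Filter ℕ) (𝓝 0) := by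
  apply addlim hid hpos
  intro x y hx hy
  rw [hα x y hx hy, map_add, AddCircle.coe_add]

/-- a bilinear form with one small argument is small -/
lemma bil_small (C : Fin m → Fin m → ℤ) (R : ℝ) (ε : ℝ) (hε : 0 < ε) :
    ∃ δ : ℝ, 0 < δ ∧ ∀ u v : Fin m → ℝ, ‖u‖ < δ → ‖v‖ ≤ R →
      ‖((bil C u v : ℝ) : UnitAddCircle)‖ < ε ∧ ‖((bil C v u : ℝ) : UnitAddCircle)‖ < ε := by
  obtain ⟨K, hK⟩ : ∃ K : ℝ, K = (∑ p, ∑ q, |(C p q : ℝ)|) + 1 := ⟨_, rfl⟩
  have hK0 : 0 < K := by rw [hK]; positivity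
  have hb : ∀ u v : Fin m → ℝ, |bil C u v| ≤ K * ‖u‖ * ‖v‖ := by
    intro u v
    refine (bil_bound C u v).trans ?_
    have h1 : 0 ≤ ‖u‖ * ‖v‖ := by positivity
    rw [hK]
    nlinarith
  refine ⟨ε / (K * (|R| + 1)), by positivity, fun u v hu hv => ?_⟩
  have hR : ‖v‖ ≤ |R| + 1 := hv.trans (by linarith [le_abs_self R])
  have h1 : K * ‖u‖ * ‖v‖ < ε := by
    have h2 : K * ‖u‖ * ‖v‖ ≤ K * ‖u‖ * (|R| + 1) :=
      mul_le_mul_of_nonneg_left hR (by positivity)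
    have h3 : ‖u‖ * (K * (|R| + 1)) < ε := by
      rwa [lt_div_iff₀ (by positivity)] at hu
    calc K * ‖u‖ * ‖v‖ ≤ K * ‖u‖ * (|R| + 1) := h2
      _ = ‖u‖ * (K * (|R| + 1)) := by ring
      _ < ε := h3
  constructor
  · exact lt_of_le_of_lt ((norm_coe_le _).trans (hb u v)) h1
  · refine lt_of_le_of_lt ((norm_coe_le _).trans (hb v u)) ?_
    calc K * ‖v‖ * ‖u‖ = K * ‖u‖ * ‖v‖ := by ring
      _ < ε := h1

lemma bil_rd_left (C : Fin m → Fin m → ℤ) (u : Fin m → ℝ) (k : Fin m → ℤ) :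
    ((bil C u (zr k) : ℝ) : UnitAddCircle) =
      ((bil C (u - zr (rd u)) (zr k) : ℝ) : UnitAddCircle) := by
  have h1 : u = (u - zr (rd u)) + zr (rd u) := by abel
  conv_lhs => rw [h1]
  rw [map_add, AddMonoidHom.add_apply, AddCircle.coe_add, bil_int, add_zero]

/-- the bilinear form of a value and its integer part tends to zero -/
lemma bil_self_lim {𝒰 : Ultrafilter ℕ} (hid : 𝒰 * 𝒰 = 𝒰) (hpos : ∀ᶠ m in (𝒰 : Filter ℕ), 0 < m)
    (hα : ∀ x y : ℕ, 0 < x → 0 < y → α (x * y) = α x + α y) (C : Fin m → Fin m → ℤ) :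
    Tendsto (fun n => ((bil C (α n) (zr (rd (α n))) : ℝ) : UnitAddCircle)) (𝒰 : Filter ℕ)
      (𝓝 0) := by
  obtain ⟨c, hc⟩ : ∃ c : ℕ → UnitAddCircle,
      c = fun n => ((bil C (α n) (zr (rd (α n))) : ℝ) : UnitAddCircle) := ⟨_, rfl⟩
  rw [← hc]
  obtain ⟨L, hL⟩ := exists_ulim 𝒰 c
  have hL0 : L = 0 := by
    by_contra hne
    have hLpos : 0 < ‖L‖ := norm_pos_iff.2 hne
    obtain ⟨η, hη, h3η⟩ : ∃ η : ℝ, 0 < η ∧ 6 * η = ‖L‖ := ⟨‖L‖ / 6, by positivity, by ring⟩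
    have h1 : ∀ᶠ n in (𝒰 : Filter ℕ), ‖c n - L‖ < η := by
      have h2 := hL.eventually (Metric.ball_mem_nhds L hη)
      filter_upwards [h2] with n hn
      rwa [dist_eq_norm] at hn
    have h2 : ∀ᶠ n in (𝒰 : Filter ℕ), ∀ᶠ n' in (𝒰 : Filter ℕ), ‖c (n * n') - L‖ < η := by
      have h2' : ∀ᶠ n in ((𝒰 * 𝒰 : Ultrafilter ℕ) : Filter ℕ), ‖c n - L‖ < η := by
        rw [hid]
        exact h1
      exact (Ultrafilter.eventually_mul 𝒰 𝒰 (fun n => ‖c n - L‖ < η)).1 h2'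
    obtain ⟨n, hn, hn1, hn2, hn3⟩ :=
      (hpos.and (h1.and (h2.and (rd_small hid hpos hα (1 / 4) (by norm_num))))).exists
    -- the cross terms tend to zero
    obtain ⟨δ, hδ, hδs⟩ := bil_small C ‖α n‖ η hη
    obtain ⟨δ', hδ', hδs'⟩ := bil_small C ‖zr (rd (α n))‖ η hη
    have h5 := (bil_right_lim hid hpos hα C (α n)).eventually (Metric.ball_mem_nhds _ hη)
    have h6 := (bil_left_lim hid hpos hα C (zr (rd (α n)))).eventually
      (Metric.ball_mem_nhds _ hη)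
    obtain ⟨n', hn', hn'1, hn'2, hn'3, hn'4, hn'5, hn'6⟩ :=
      (hpos.and (h1.and (hn2.and (h5.and (h6.and ((rd_small hid hpos hα (1 / 4)
        (by norm_num)).and (rd_small hid hpos hα δ hδ))))))).exists
    rw [dist_zero_right] at hn'3 hn'4
    have h7 : c (n * n') = c n + c n' +
        (((bil C (α n) (α n') : ℝ) : UnitAddCircle) -
          ((bil C (α n) (α n' - zr (rd (α n'))) : ℝ) : UnitAddCircle)) +
        ((bil C (α n') (zr (rd (α n))) : ℝ) : UnitAddCircle) := by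
      rw [← AddCircle.coe_sub, ← map_sub, sub_sub_cancel, hc]
      simp only
      rw [hα n n' hn hn', rd_add hn3 hn'5, zr_add]
      simp only [map_add, AddMonoidHom.add_apply, AddCircle.coe_add]
      abel
    have h8 := (hδs _ (α n) hn'6 le_rfl).2
    have h9 : L = (c (n * n') - L) - (c n - L) - (c n' - L) -
        ((bil C (α n) (α n') : ℝ) : UnitAddCircle) +
        ((bil C (α n) (α n' - zr (rd (α n'))) : ℝ) : UnitAddCircle) -
        ((bil C (α n') (zr (rd (α n))) : ℝ) : UnitAddCircle) + 0 := by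
      rw [h7]
      abel
    have h10 : ‖L‖ < 6 * η := by
      calc ‖L‖ = ‖(c (n * n') - L) - (c n - L) - (c n' - L) -
            ((bil C (α n) (α n') : ℝ) : UnitAddCircle) +
            ((bil C (α n) (α n' - zr (rd (α n'))) : ℝ) : UnitAddCircle) -
            ((bil C (α n') (zr (rd (α n))) : ℝ) : UnitAddCircle)‖ := by
            rw [add_zero] at h9
            rw [← h9]
        _ ≤ ‖c (n * n') - L‖ + ‖c n - L‖ + ‖c n' - L‖ +
            ‖((bil C (α n) (α n') : ℝ) : UnitAddCircle)‖ +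
            ‖((bil C (α n) (α n' - zr (rd (α n'))) : ℝ) : UnitAddCircle)‖ +
            ‖((bil C (α n') (zr (rd (α n))) : ℝ) : UnitAddCircle)‖ := by
            refine (norm_sub_le _ _).trans (add_le_add ?_ le_rfl)
            refine (norm_add_le _ _).trans (add_le_add ?_ le_rfl)
            refine (norm_sub_le _ _).trans (add_le_add ?_ le_rfl)
            refine (norm_sub_le _ _).trans (add_le_add ?_ le_rfl)
            exact norm_sub_le _ _
        _ < 6 * η := by linarith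
    linarith
  rw [← hL0]
  exact hL

variable {ι : Type*} [Finite ι] {k : ℕ} {γ : ℕ → ι → UnitAddCircle}

/-- return along an idempotent ultrafilter -/
lemma nlim {𝒰 : Ultrafilter ℕ} (hid : 𝒰 * 𝒰 = 𝒰) (hpos : ∀ᶠ m in (𝒰 : Filter ℕ), 0 < m)
    (hα : ∀ x y : ℕ, 0 < x → 0 < y → α (x * y) = α x + α y)
    (hγ : ∀ i, IsPN k (fun n => γ n i)) (C : ι → Fin m → Fin m → ℤ) {n₀ : ℕ} (hn₀ : 0 < n₀)
    (ε : ℝ) (hε : 0 < ε) :
    ∀ᶠ n in (𝒰 : Filter ℕ), ∃ l : Fin m → ℤ, ‖α (n₀ * n) - α n₀ - zr l‖ < ε ∧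
      ∀ i, ‖γ (n₀ * n) i - γ n₀ i - ((bil (C i) (α (n₀ * n)) (zr l) : ℝ) : UnitAddCircle)‖ < ε := by
  classical
  have h1 : ∀ᶠ n in (𝒰 : Filter ℕ), ∀ i,
      ‖γ (n₀ * n) i - γ n₀ i‖ < ε / 4 ∧
      ‖((bil (C i) (α n₀) (α n) : ℝ) : UnitAddCircle)‖ < ε / 4 ∧
      ‖((bil (C i) (α n) (zr (rd (α n))) : ℝ) : UnitAddCircle)‖ < ε / 4 ∧
      ‖((bil (C i) (α n₀) (α n - zr (rd (α n))) : ℝ) : UnitAddCircle)‖ < ε / 4 := by
    rw [eventually_all]
    intro i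
    have h2 := (plim hid hpos (fun n => γ n i) (hγ i) n₀ hn₀).eventually
      (Metric.ball_mem_nhds _ (show 0 < ε / 4 by positivity))
    have h3 := (bil_right_lim hid hpos hα (C i) (α n₀)).eventually
      (Metric.ball_mem_nhds _ (show 0 < ε / 4 by positivity))
    have h4 := (bil_self_lim hid hpos hα (C i)).eventually
      (Metric.ball_mem_nhds _ (show 0 < ε / 4 by positivity))
    obtain ⟨δ, hδ, hδs⟩ := bil_small (C i) ‖α n₀‖ (ε / 4) (by positivity)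
    filter_upwards [h2, h3, h4, rd_small hid hpos hα δ hδ] with n a1 a2 a3 a4
    rw [dist_eq_norm] at a1
    rw [dist_zero_right] at a2 a3
    exact ⟨a1, a2, a3, (hδs _ (α n₀) a4 le_rfl).2⟩
  filter_upwards [h1, hpos, rd_small hid hpos hα ε hε] with n hn hn0 hnr
  refine ⟨rd (α n), ?_, fun i => ?_⟩
  · rw [hα n₀ n hn₀ hn0, add_sub_cancel_left]
    exact hnr
  · obtain ⟨a1, a2, a3, a4⟩ := hn i
    have h2 : γ (n₀ * n) i - γ n₀ i -
        ((bil (C i) (α (n₀ * n)) (zr (rd (α n))) : ℝ) : UnitAddCircle) =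
        (γ (n₀ * n) i - γ n₀ i) - ((bil (C i) (α n₀) (α n) : ℝ) : UnitAddCircle) +
          ((bil (C i) (α n₀) (α n - zr (rd (α n))) : ℝ) : UnitAddCircle) -
          ((bil (C i) (α n) (zr (rd (α n))) : ℝ) : UnitAddCircle) := by
      rw [hα n₀ n hn₀ hn0]
      simp only [map_add, map_sub, AddMonoidHom.add_apply, AddCircle.coe_add, AddCircle.coe_sub]
      abel
    rw [h2]
    refine lt_of_le_of_lt (norm_sub_le _ _) ?_
    have h3 := norm_add_le ((γ (n₀ * n) i - γ n₀ i) -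
      ((bil (C i) (α n₀) (α n) : ℝ) : UnitAddCircle))
      ((bil (C i) (α n₀) (α n - zr (rd (α n))) : ℝ) : UnitAddCircle)
    have h4 := norm_sub_le (γ (n₀ * n) i - γ n₀ i)
      ((bil (C i) (α n₀) (α n) : ℝ) : UnitAddCircle)
    linarith

/-- return times are syndetic -/
lemma syndN (hα : ∀ x y : ℕ, 0 < x → 0 < y → α (x * y) = α x + α y)
    (hγ : ∀ i, IsPN k (fun n => γ n i)) (C : ι → Fin m → Fin m → ℤ) {n₀ : ℕ} (hn₀ : 0 < n₀)
    (ε : ℝ) (hε : 0 < ε) :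
    ∃ M : Finset ℕ, (∀ m ∈ M, 0 < m) ∧ ∀ n, 0 < n → ∃ m' ∈ M, ∃ l : Fin m → ℤ,
      ‖α (m' * n) - α n₀ - zr l‖ < ε ∧
      ∀ i, ‖γ (m' * n) i - γ n₀ i - ((bil (C i) (α (m' * n)) (zr l) : ℝ) : UnitAddCircle)‖ < ε := by
  classical
  obtain ⟨good, hgood⟩ : ∃ good : ℕ → Prop, good = fun n => ∃ l : Fin m → ℤ,
      ‖α n - α n₀ - zr l‖ < ε ∧
      ∀ i, ‖γ n i - γ n₀ i - ((bil (C i) (α n) (zr l) : ℝ) : UnitAddCircle)‖ < ε := ⟨_, rfl⟩
  suffices h : ∃ M : Finset ℕ, (∀ m ∈ M, 0 < m) ∧ ∀ n, 0 < n → ∃ m' ∈ M, good (m' * n) by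
    rw [hgood] at h
    exact h
  by_contra hcon
  push Not at hcon
  have hstep : ∀ M : {M : Finset ℕ // ∀ m ∈ M, 0 < m}, ∃ n, 0 < n ∧ ∀ m ∈ M.1,
      ¬ good (m * n) := fun M => hcon M.1 M.2
  choose nxt hnxt using hstep
  obtain ⟨st, hst0, hst⟩ : ∃ st : ℕ → {M : Finset ℕ // ∀ m ∈ M, 0 < m},
      st 0 = ⟨{n₀}, by simpa using hn₀⟩ ∧
      ∀ k, (st (k + 1)).1 = (st k).1 ∪ (st k).1.image (fun m => m * nxt (st k)) := by
    let g : {M : Finset ℕ // ∀ m ∈ M, 0 < m} → {M : Finset ℕ // ∀ m ∈ M, 0 < m} := fun M =>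
      ⟨M.1 ∪ M.1.image (fun m => m * nxt M), by
        intro q hq
        rcases Finset.mem_union.1 hq with h | h
        · exact M.2 q h
        · obtain ⟨q', hq', rfl⟩ := Finset.mem_image.1 h
          exact Nat.mul_pos (M.2 q' hq') (hnxt M).1⟩
    exact ⟨fun k => Nat.rec ⟨{n₀}, by simpa using hn₀⟩ (fun _ M => g M) k, rfl, fun _ => rfl⟩
  obtain ⟨a, ha⟩ : ∃ a : Stream' ℕ, a = fun k => nxt (st k) := ⟨_, rfl⟩
  have hbad : ∀ (s : Stream' ℕ) (m : ℕ), m ∈ Hindman.FP s → ∀ k, s = a.drop k → ∀ f ∈ (st k).1,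
      0 < m ∧ ¬ good (f * m) := by
    intro s m hm
    induction hm with
    | head' s =>
      intro k hk f hf
      have h1 : s.head = nxt (st k) := by
        rw [hk, Stream'.head_drop, ha]
        rfl
      rw [h1]
      exact ⟨(hnxt (st k)).1, (hnxt (st k)).2 f hf⟩
    | tail' s m hm ih =>
      intro k hk f hf
      refine ih (k + 1) ?_ f ?_
      · rw [hk, Stream'.tail_eq_drop, Stream'.drop_drop]
      · rw [hst]
        exact Finset.mem_union_left _ hf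
    | cons' s m hm ih =>
      intro k hk f hf
      have h1 : s.head = nxt (st k) := by
        rw [hk, Stream'.head_drop, ha]
        rfl
      have h2 := ih (k + 1) (by rw [hk, Stream'.tail_eq_drop, Stream'.drop_drop])
        (f * nxt (st k)) (by
          rw [hst]
          exact Finset.mem_union_right _ (Finset.mem_image_of_mem _ hf))
      rw [h1, ← mul_assoc]
      exact ⟨Nat.mul_pos (hnxt (st k)).1 h2.1, h2.2⟩
  have hbad' : ∀ m ∈ Hindman.FP a, 0 < m ∧ ¬ good (n₀ * m) := by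
    intro m hm
    apply hbad a m hm 0 rfl
    rw [hst0]
    exact Finset.mem_singleton_self _
  obtain ⟨𝒱, hid, h𝒱⟩ := Hindman.exists_idempotent_ultrafilter_le_FP a
  have hpos : ∀ᶠ m in (𝒱 : Filter ℕ), 0 < m := h𝒱.mono fun m hm => (hbad' m hm).1
  have hall := nlim hid hpos hα hγ C hn₀ ε hε
  obtain ⟨n, hn1, hn2⟩ := (h𝒱.and hall).exists
  apply (hbad' n hn1).2
  rw [hgood]
  exact hn2

end

end Pool.Agent.Work.MP_0f91f8_co.Quad
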