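import Pool.Agent.Work.MP_0f91f8_co.Quad.PAbs

/-!
Twisted differences `g ↦ Q (g + r) - Q g - W (D r) (D g)` on an abelian group `G` with a homomorphism
`D` to a vector space: radicals and symbols.
-/

namespace Pool.Agent.Work.MP_0f91f8_co.Quad

open Finset

universe u v

variable {G : Type u} [AddCommGroup G]

lemma isP_const (k : ℕ) (c : UnitAddCircle) : IsP k (fun _ : G => c) :=
  IsP.le (Nat.zero_le k) (fun _ => rfl)

lemma isP_hom (χ : G →+ UnitAddCircle) : IsP 1 (fun g => χ g) := by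
  intro h x
  show χ (x + h) - χ x = χ (0 + h) - χ 0
  simp

lemma Df_const (h : G) (c : UnitAddCircle) : Df h (fun _ : G => c) = 0 := by
  funext x
  simp [Df]

section

variable {E : Type*} [AddCommGroup E]

/-- the homomorphism `g ↦ w (D g)` to the circle -/
noncomputable def hwm (D : G →+ E) (w : E →+ ℝ) : G →+ UnitAddCircle :=
  AddMonoidHom.mk' (fun g => ((w (D g) : ℝ) : UnitAddCircle)) (by
    intro x y
    rw [map_add, map_add, AddCircle.coe_add])

lemma hwm_apply (D : G →+ E) (w : E →+ ℝ) (g : G) : hwm D w g = ((w (D g) : ℝ) : UnitAddCircle) :=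
  rfl

/-- twisted difference -/
noncomputable def Tw (D : G →+ E) (W : E →+ E →+ ℝ) (r : G) (Q : G → UnitAddCircle) :
    G → UnitAddCircle := fun g => Df r Q g - ((W (D r) (D g) : ℝ) : UnitAddCircle)

lemma Tw_eq (D : G →+ E) (W : E →+ E →+ ℝ) (r : G) (Q : G → UnitAddCircle) :
    Tw D W r Q = Df r Q - (fun g => hwm D (W (D r)) g) := rfl

lemma Tw_add (D : G →+ E) (W : E →+ E →+ ℝ) (r s : G) (Q : G → UnitAddCircle) :
    Tw D W (r + s) Q = Tw D W r Q + Tw D W s Q + Df s (Tw D W r Q) +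
      fun _ => ((W (D r) (D s) : ℝ) : UnitAddCircle) := by
  funext g
  simp only [Tw, Df, Pi.add_apply, map_add, AddMonoidHom.add_apply, AddCircle.coe_add]
  rw [← add_assoc g r s, add_right_comm g r s]
  abel

lemma Tw_zero (D : G →+ E) (W : E →+ E →+ ℝ) (Q : G → UnitAddCircle) : Tw D W 0 Q = 0 := by
  funext g
  simp [Tw, Df]

lemma Tw_neg (D : G →+ E) (W : E →+ E →+ ℝ) (r : G) (Q : G → UnitAddCircle) :
    Tw D W (-r) Q = -(fun x => Tw D W r Q (x + -r)) +
      fun _ => ((W (D r) (D r) : ℝ) : UnitAddCircle) := by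
  funext g
  simp only [Tw, Df, Pi.add_apply, Pi.neg_apply, map_add, map_neg, AddMonoidHom.neg_apply,
    AddCircle.coe_add, AddCircle.coe_neg, neg_add_cancel_right]
  abel

lemma IsP.tw {k : ℕ} {Q : G → UnitAddCircle} (hQ : IsP (k + 2) Q) (D : G →+ E) (W : E →+ E →+ ℝ)
    (r : G) : IsP (k + 1) (Tw D W r Q) := by
  rw [Tw_eq]
  exact (hQ r).sub ((isP_hom _).le (by omega))

lemma Df_hom (χ : G →+ UnitAddCircle) (h : G) : Df h (fun g => χ g) = fun _ => χ h := by
  funext x
  simp [Df]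

lemma Df_sub (h : G) (P Q : G → UnitAddCircle) : Df h (P - Q) = Df h P - Df h Q := by
  rw [sub_eq_add_neg, Df_add, Df_neg, ← sub_eq_add_neg]

lemma DfDf_Tw (D : G →+ E) (W : E →+ E →+ ℝ) (c d r : G) (Q : G → UnitAddCircle) :
    Df c (Df d (Tw D W r Q)) = Df c (Df d (Df r Q)) := by
  rw [Tw_eq, Df_sub, Df_hom, Df_sub, Df_const, sub_zero]

/-- steps for which the twisted difference has degree at most `j` -/
def RadW (D : G →+ E) (W : E →+ E →+ ℝ) (j : ℕ) (Q : G → UnitAddCircle) : AddSubgroup G where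
  carrier := {r | IsP j (Tw D W r Q)}
  zero_mem' := by
    show IsP j (Tw D W 0 Q)
    rw [Tw_zero]
    exact isP_zero j
  add_mem' := by
    intro a b ha hb
    show IsP j (Tw D W (a + b) Q)
    rw [Tw_add]
    exact ((IsP.add ha hb).add (IsP.df ha b)).add (isP_const j _)
  neg_mem' := by
    intro a ha
    show IsP j (Tw D W (-a) Q)
    rw [Tw_neg]
    exact (IsP.shift (-a) ha).neg.add (isP_const j _)

lemma mem_RadW {D : G →+ E} {W : E →+ E →+ ℝ} {j : ℕ} {Q : G → UnitAddCircle} {r : G} :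
    r ∈ RadW D W j Q ↔ IsP j (Tw D W r Q) := Iff.rfl

/-- the symbol on the radical extends to a homomorphism -/
lemma exists_symbolW (D : G →+ E) (W : E →+ E →+ ℝ) (Q : G → UnitAddCircle) (l : List G)
    (hl : l ≠ []) :
    ∃ χ : G →+ UnitAddCircle, ∀ x ∈ RadW D W l.length Q, χ x = Dl l (Tw D W x Q) 0 := by
  let f : RadW D W l.length Q →+ UnitAddCircle :=
    AddMonoidHom.mk' (fun x => Dl l (Tw D W (x : G) Q) 0) (by
      intro x y
      have h1 : Dl l (Df (y : G) (Tw D W (x : G) Q)) = 0 := by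
        have := Dl_eq_zero (j := l.length) ((y : G) :: l) (Tw D W (x : G) Q) rfl x.2
        exact this
      have h2 : Dl l (fun _ : G => ((W (D x) (D y) : ℝ) : UnitAddCircle)) = 0 := by
        have hpos : 0 < l.length := List.length_pos_iff.2 hl
        exact Dl_eq_zero (j := l.length - 1) l _ (by omega) (isP_const _ _)
      rw [AddSubgroup.coe_add, Tw_add, Dl_add, Dl_add, Dl_add, h1, h2, add_zero, add_zero]
      rfl)
  obtain ⟨χ, hχ⟩ := (Module.Baer.of_divisible UnitAddCircle).extension_property_addMonoidHom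
    (RadW D W l.length Q).subtype (RadW D W l.length Q).subtype_injective f
  exact ⟨χ, fun x hx => DFunLike.congr_fun hχ ⟨x, hx⟩⟩

lemma real_eq_of_circle {x y : ℝ} (h : (x : UnitAddCircle) = (y : UnitAddCircle))
    (hxy : |x - y| < 1) : x = y := by
  have h1 : ((x - y : ℝ) : UnitAddCircle) = 0 := by
    rw [AddCircle.coe_sub, h, sub_self]
  rw [AddCircle.coe_eq_zero_iff] at h1
  obtain ⟨n, hn⟩ := h1
  rw [zsmul_eq_mul, mul_one] at hn
  rw [← hn] at hxy
  have h2 : |n| < 1 := by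
    have : ((|n| : ℤ) : ℝ) < 1 := by
      rw [Int.cast_abs]
      exact hxy
    exact_mod_cast this
  have h3 : n = 0 := Int.abs_lt_one_iff.1 h2
  rw [h3, Int.cast_zero] at hn
  linarith

end

section

variable {E : Type*} [SeminormedAddCommGroup E]

/-- the symbol on small elements of the radical -/
lemma exists_symbolW0 (D : G →+ E) (W : E →+ E →+ ℝ) {K : ℝ}
    (hW : ∀ u v, |W u v| ≤ K * ‖u‖ * ‖v‖) (Q : G → UnitAddCircle) :
    ∃ η : ℝ, 0 < η ∧ ∃ χ : G →+ UnitAddCircle, ∀ x ∈ RadW D W 0 Q, ‖D x‖ < η →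
      Tw D W x Q 0 = χ x + ((W (D x) (D x) / 2 : ℝ) : UnitAddCircle) := by
  obtain ⟨K', hK'⟩ : ∃ K' : ℝ, K' = |K| + 1 := ⟨_, rfl⟩
  have hK0 : 0 < K' := by rw [hK']; positivity
  have hW' : ∀ u v, |W u v| ≤ K' * ‖u‖ * ‖v‖ := by
    intro u v
    refine (hW u v).trans ?_
    have h1 : K ≤ K' := by rw [hK']; linarith [le_abs_self K]
    have h2 : 0 ≤ ‖u‖ * ‖v‖ := by positivity
    nlinarith
  obtain ⟨η, hη, hη1, hη2⟩ : ∃ η : ℝ, 0 < η ∧ η ≤ 1 ∧ K' * η ≤ 1 / 4 := by
    refine ⟨min 1 (1 / (4 * K')), lt_min one_pos (by positivity), min_le_left _ _, ?_⟩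
    calc K' * min 1 (1 / (4 * K')) ≤ K' * (1 / (4 * K')) :=
          mul_le_mul_of_nonneg_left (min_le_right _ _) hK0.le
      _ = 1 / 4 := by field_simp
  have hsmall : ∀ x y : G, ‖D x‖ < η → ‖D y‖ < η → |W (D x) (D y)| ≤ 1 / 4 := by
    intro x y hx hy
    refine (hW' _ _).trans ?_
    have h1 : K' * ‖D x‖ * ‖D y‖ ≤ K' * η * 1 :=
      mul_le_mul (mul_le_mul_of_nonneg_left hx.le hK0.le) (hy.le.trans hη1) (norm_nonneg _)
        (by positivity)
    linarith
  -- the twisted cocycle identity on the radical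
  have hcoc : ∀ x y : G, x ∈ RadW D W 0 Q →
      Tw D W (x + y) Q 0 = Tw D W x Q 0 + Tw D W y Q 0 + ((W (D x) (D y) : ℝ) : UnitAddCircle) := by
    intro x y hx
    rw [Tw_add]
    simp only [Pi.add_apply]
    rw [(mem_RadW.1 hx).df_zero y, Pi.zero_apply, add_zero]
  set S : AddSubgroup G := AddSubgroup.closure {x | x ∈ RadW D W 0 Q ∧ ‖D x‖ < η} with hS
  have hSR : S ≤ RadW D W 0 Q := by
    rw [hS, AddSubgroup.closure_le]
    exact fun x hx => hx.1
  have hgen : ∀ x ∈ {x | x ∈ RadW D W 0 Q ∧ ‖D x‖ < η}, ∀ y ∈ {x | x ∈ RadW D W 0 Q ∧ ‖D x‖ < η},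
      W (D x) (D y) = W (D y) (D x) := by
    intro x hx y hy
    have h1 := hcoc x y hx.1
    have h2 := hcoc y x hy.1
    rw [add_comm y x, h1, add_comm (Tw D W y Q 0) (Tw D W x Q 0)] at h2
    have h3 := add_left_cancel h2
    apply real_eq_of_circle h3
    have h4 := hsmall x y hx.2 hy.2
    have h5 := hsmall y x hy.2 hx.2
    have h6 := abs_sub (W (D x) (D y)) (W (D y) (D x))
    linarith
  have hsym1 : ∀ x ∈ {x | x ∈ RadW D W 0 Q ∧ ‖D x‖ < η}, ∀ y ∈ S,
      W (D x) (D y) = W (D y) (D x) := by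
    intro x hx y hy
    rw [hS] at hy
    induction hy using AddSubgroup.closure_induction with
    | mem y hy => exact hgen x hx y hy
    | zero => simp
    | add y z _ _ hy hz =>
      rw [map_add, map_add, map_add, AddMonoidHom.add_apply, hy, hz]
    | neg y _ hy =>
      rw [map_neg, map_neg, map_neg, AddMonoidHom.neg_apply, hy]
  have hsym : ∀ x ∈ S, ∀ y ∈ S, W (D x) (D y) = W (D y) (D x) := by
    intro x hx y hy
    rw [hS] at hx
    induction hx using AddSubgroup.closure_induction with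
    | mem x hx => exact hsym1 x hx y hy
    | zero => simp
    | add x z _ _ hx hz =>
      rw [map_add, map_add, map_add, AddMonoidHom.add_apply, hx, hz]
    | neg x _ hx =>
      rw [map_neg, map_neg, map_neg, AddMonoidHom.neg_apply, hx]
  let f : S →+ UnitAddCircle :=
    AddMonoidHom.mk' (fun x => Tw D W (x : G) Q 0 -
      ((W (D (x : G)) (D (x : G)) / 2 : ℝ) : UnitAddCircle)) (by
      intro x y
      have h1 := hcoc x y (hSR x.2)
      have h2 := hsym x x.2 y y.2
      rw [AddSubgroup.coe_add, h1]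
      have h3 : W (D ((x : G) + y)) (D ((x : G) + y)) / 2 =
          W (D x) (D x) / 2 + W (D y) (D y) / 2 + W (D x) (D y) := by
        simp only [map_add, AddMonoidHom.add_apply]
        rw [← h2]
        ring
      rw [h3, AddCircle.coe_add, AddCircle.coe_add]
      abel)
  obtain ⟨χ, hχ⟩ := (Module.Baer.of_divisible UnitAddCircle).extension_property_addMonoidHom
    S.subtype S.subtype_injective f
  refine ⟨η, hη, χ, fun x hx hxη => ?_⟩
  have hxS : x ∈ S := by
    rw [hS]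
    exact AddSubgroup.subset_closure ⟨hx, hxη⟩
  have h1 : χ x = Tw D W x Q 0 - ((W (D x) (D x) / 2 : ℝ) : UnitAddCircle) :=
    DFunLike.congr_fun hχ ⟨x, hxS⟩
  rw [h1, sub_add_cancel]

end

end Pool.Agent.Work.MP_0f91f8_co.Quad
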