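import Pool.Agent.Work.MP_0f91f8_co.Quad.PMean

/-!
Finite duality for functions whose bounded degree combinations are constant or have mean zero.
-/

namespace Pool.Agent.Work.MP_0f91f8_co.Quad

open Finset

universe u v

variable {G : Type u} [AddCommGroup G]

/-- a positive trigonometric polynomial is not small in mean -/
lemma exists_largeP {J : Type*} [Fintype J] [Nonempty J] (W : J → G → UnitAddCircle)
    (hW : ∀ j k, Null (fun g => W j g - W k g) ∨
      ∃ c : UnitAddCircle, ‖c‖ ≤ 1 / 6 ∧ ∀ g, W j g - W k g = c)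
    (c : J → ℝ) (hc : ∀ j, 0 ≤ c j) (hc1 : ∑ j, c j = 1) :
    ∃ g : G, 1 / (4 * (Fintype.card J : ℝ)) ≤ ‖∑ j, (c j : ℂ) * ee (W j g)‖ ^ 2 := by
  classical
  obtain ⟨M, hM⟩ : ∃ M : ℝ, M = (Fintype.card J : ℝ) := ⟨_, rfl⟩
  rw [← hM]
  have hMpos : 0 < M := by rw [hM]; exact_mod_cast Fintype.card_pos
  obtain ⟨K, δ', hδ', hK⟩ := exists_sample
    ((univ : Finset (J × J)).filter (fun p => Null (fun g => W p.1 g - W p.2 g)))
    (fun p g => W p.1 g - W p.2 g) (fun p hp => (mem_filter.1 hp).2) (1 / (4 * M)) (by positivity)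
  obtain ⟨S, hS, hSn, g, hgI⟩ := exists_inv K δ' hδ'
  have hg := hK S g hgI
  by_contra hcon
  push Not at hcon
  set f : G → ℂ := fun x => ∑ j, (c j : ℂ) * ee (W j x) with hf
  -- expansion of the square
  have hexp : ∀ x, ((‖f x‖ ^ 2 : ℝ) : ℂ) =
      ∑ j, ∑ k, (c j : ℂ) * c k * ee (W j x - W k x) := by
    intro x
    have h1 : ((‖f x‖ ^ 2 : ℝ) : ℂ) = f x * (starRingEnd ℂ) (f x) := by
      rw [Complex.mul_conj, Complex.normSq_eq_norm_sq]
    rw [h1, hf]
    simp only [map_sum, map_mul, Complex.conj_ofReal, ← ee_neg]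
    rw [sum_mul_sum]
    apply sum_congr rfl
    intro j _
    apply sum_congr rfl
    intro k _
    rw [sub_eq_add_neg, ee_add]
    ring
  -- sum over the sample
  have hsum : ((∑ a, ‖f (g a)‖ ^ 2 : ℝ) : ℂ) =
      ∑ j, ∑ k, (c j : ℂ) * c k * ∑ a, ee (W j (g a) - W k (g a)) := by
    push_cast
    have : ∀ a, ((‖f (g a)‖ : ℂ)) ^ 2 = ((‖f (g a)‖ ^ 2 : ℝ) : ℂ) := by intro a; push_cast; rfl
    simp only [this, hexp]
    rw [sum_comm]
    apply sum_congr rfl
    intro j _
    rw [sum_comm]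
    apply sum_congr rfl
    intro k _
    rw [← mul_sum]
  have hcardS : (0 : ℝ) < Fintype.card S := by exact_mod_cast Fintype.card_pos
  have hterm : ∀ j k, (if j = k then (1 / 2 : ℝ) * (c j * c k) * Fintype.card S else 0) -
      c j * c k * (1 / (4 * M) * Fintype.card S) ≤
      ((c j : ℂ) * c k * ∑ a, ee (W j (g a) - W k (g a))).re := by
    intro j k
    have hcc : 0 ≤ c j * c k := mul_nonneg (hc j) (hc k)
    have hre : ((c j : ℂ) * c k * ∑ a, ee (W j (g a) - W k (g a))).re =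
        c j * c k * (∑ a, ee (W j (g a) - W k (g a))).re := by
      rw [← Complex.ofReal_mul, Complex.re_ofReal_mul]
    rw [hre]
    have h4 : 0 ≤ c j * c k * (1 / (4 * M) * Fintype.card S) := by positivity
    by_cases hjk' : j = k
    · rw [if_pos hjk', hjk']
      have h1 : (∑ a : S, ee (W k (g a) - W k (g a))).re = Fintype.card S := by
        simp [ee_zero]
      rw [h1]
      rw [hjk'] at h4 hcc
      have : 0 ≤ c k * c k * Fintype.card S := by positivity
      nlinarith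
    rw [if_neg hjk']
    rcases hW j k with hjk | ⟨c₀, hc₀, hc₁⟩
    · rw [zero_sub, ← mul_neg]
      apply mul_le_mul_of_nonneg_left _ hcc
      have h1 := hg (j, k) (mem_filter.2 ⟨mem_univ _, hjk⟩)
      have h2 := Complex.abs_re_le_norm (∑ a, ee (W j (g a) - W k (g a)))
      exact (abs_le.1 (h2.trans h1)).1
    · have h1 : (∑ a : S, ee (W j (g a) - W k (g a))) = (Fintype.card S : ℝ) * ee c₀ := by
        simp only [hc₁, sum_const, card_univ, nsmul_eq_mul]
        push_cast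
        rfl
      rw [h1, Complex.re_ofReal_mul, ee_re]
      have h2 : 1 / 2 ≤ Real.cos (2 * Real.pi * ‖c₀‖) := by
        rw [← Real.cos_pi_div_three]
        apply Real.cos_le_cos_of_nonneg_of_le_pi
        · have := norm_nonneg c₀
          positivity
        · have := Real.pi_pos
          linarith
        · have := Real.pi_pos
          nlinarith
      have h3 : 0 ≤ c j * c k * ((Fintype.card S : ℝ) * Real.cos (2 * Real.pi * ‖c₀‖)) := by
        have : 0 ≤ Real.cos (2 * Real.pi * ‖c₀‖) := by linarith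
        positivity
      linarith
  have hlow : (1 / 2 : ℝ) * (∑ j, c j * c j) * Fintype.card S - 1 / (4 * M) * Fintype.card S ≤
      ∑ a, ‖f (g a)‖ ^ 2 := by
    have h1 : (∑ a, ‖f (g a)‖ ^ 2 : ℝ) = (((∑ a, ‖f (g a)‖ ^ 2 : ℝ) : ℂ)).re := by
      rw [Complex.ofReal_re]
    rw [h1, hsum, Complex.re_sum]
    have h2 : ∀ j, (∑ k, (c j : ℂ) * c k * ∑ a, ee (W j (g a) - W k (g a))).re =
        ∑ k, ((c j : ℂ) * c k * ∑ a, ee (W j (g a) - W k (g a))).re :=
      fun j => Complex.re_sum _ _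
    simp only [h2]
    refine le_trans ?_ (sum_le_sum fun j _ => sum_le_sum fun k _ => hterm j k)
    simp only [sum_sub_distrib, sum_ite_eq, mem_univ, if_true]
    have h3 : ∑ j, ∑ k, c j * c k * (1 / (4 * M) * (Fintype.card S : ℝ)) =
        1 / (4 * M) * Fintype.card S := by
      have : ∀ j, ∑ k, c j * c k * (1 / (4 * M) * (Fintype.card S : ℝ)) =
          c j * (1 / (4 * M) * Fintype.card S) := by
        intro j
        rw [← sum_mul, ← mul_sum, hc1, mul_one]
      simp only [this]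
      rw [← sum_mul, hc1, one_mul]
    rw [h3]
    rw [mul_sum, sum_mul]
  have hcs : 1 / M ≤ ∑ j, c j * c j := by
    have h1 := sq_sum_le_card_mul_sum_sq (s := (univ : Finset J)) (f := c)
    rw [hc1, card_univ, ← hM] at h1
    rw [div_le_iff₀ hMpos]
    have h2 : ∑ j, c j * c j = ∑ j, c j ^ 2 := sum_congr rfl fun j _ => by ring
    rw [h2]
    linarith [h1]
  have hup : ∑ a, ‖f (g a)‖ ^ 2 < ∑ _a : S, 1 / (4 * M) := by
    apply sum_lt_sum_of_nonempty univ_nonempty
    intro a _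
    exact hcon (g a)
  rw [sum_const, card_univ, nsmul_eq_mul] at hup
  have h5 : (1 / 2 : ℝ) * (1 / M) * Fintype.card S ≤
      (1 / 2 : ℝ) * (∑ j, c j * c j) * Fintype.card S := by
    apply mul_le_mul_of_nonneg_right _ hcardS.le
    linarith
  have h6 : (1 / 2 : ℝ) * (1 / M) * Fintype.card S - 1 / (4 * M) * Fintype.card S =
      Fintype.card S * (1 / (4 * M)) := by
    field_simp
    ring
  linarith

/-- finite duality, uniform in the group and in the functions -/
theorem exists_nearP (ι : Type v) [Fintype ι] (ε : ℝ) (hε : 0 < ε) :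
    ∃ n : ℕ, ∀ (G : Type u) [AddCommGroup G] (V : ι → G → UnitAddCircle),
      (∀ ψ : ι → ℤ, (∀ i, |ψ i| ≤ n) → Null (∑ i, ψ i • V i) ∨
        ∃ c : UnitAddCircle, ‖c‖ ≤ 1 / 6 ∧ ∀ g, ∑ i, ψ i • V i g = c) →
      ∃ g : G, ∀ i, ‖V i g‖ < ε := by
  classical
  set ε' : ℝ := min ε (1 / 2) with hε'
  have hε'0 : 0 < ε' := lt_min hε (by norm_num)
  have hε'h : ε' ≤ 1 / 2 := min_le_right _ _
  set ρ : ℝ := (1 + Real.cos (2 * Real.pi * ε')) / 2 with hρ
  have hpi := Real.pi_pos
  have hρ0 : 0 ≤ ρ := by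
    have := Real.neg_one_le_cos (2 * Real.pi * ε')
    rw [hρ]
    linarith
  have hρ1 : ρ < 1 := by
    have h1 : Real.cos (2 * Real.pi * ε') < Real.cos 0 := by
      apply Real.cos_lt_cos_of_nonneg_of_le_pi le_rfl
      · nlinarith
      · positivity
    rw [Real.cos_zero] at h1
    rw [hρ]
    linarith
  obtain ⟨n, hn⟩ := exists_deg (Fintype.card ι) ρ hρ0 hρ1
  refine ⟨n, fun G _ V hψ => ?_⟩
  -- the trigonometric polynomial
  set c : (ι → Fin (n + 1)) → ℝ := fun j => ∏ i, ((n.choose (j i) : ℝ) / 2 ^ n) with hc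
  set W : (ι → Fin (n + 1)) → G → UnitAddCircle := fun j g => ∑ i, (j i : ℕ) • V i g with hWdef
  have hcond : ∀ j k, Null (fun g => W j g - W k g) ∨
      ∃ c : UnitAddCircle, ‖c‖ ≤ 1 / 6 ∧ ∀ g, W j g - W k g = c := by
    intro j k
    have e1 : ∀ g, ∑ i, (((j i : ℕ) : ℤ) - ((k i : ℕ) : ℤ)) • V i g = W j g - W k g := by
      intro g
      simp only [hWdef, sub_smul, natCast_zsmul, sum_sub_distrib]
    have h1 := hψ (fun i => ((j i : ℕ) : ℤ) - ((k i : ℕ) : ℤ)) (by
      intro i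
      have h2 := (j i).is_lt
      have h3 := (k i).is_lt
      rw [abs_le]
      constructor <;> omega)
    rcases h1 with h1 | ⟨c₀, hc₀, hc₁⟩
    · left
      have e2 : (∑ i, (((j i : ℕ) : ℤ) - ((k i : ℕ) : ℤ)) • V i) =
          (fun g => W j g - W k g) := by
        funext g
        rw [← e1 g, Finset.sum_apply]
        rfl
      rw [← e2]
      exact h1
    · right
      refine ⟨c₀, hc₀, fun g => ?_⟩
      rw [← e1 g]
      exact hc₁ g
  have hc0 : ∀ j, 0 ≤ c j := fun j => prod_nonneg fun i _ => by positivity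
  have hsum1 : ∑ t : Fin (n + 1), ((n.choose t : ℝ) / 2 ^ n) = 1 := by
    rw [Fin.sum_univ_eq_sum_range (fun t => (n.choose t : ℝ) / 2 ^ n), ← sum_div]
    have h1 : ∑ t ∈ range (n + 1), (n.choose t : ℝ) = 2 ^ n := by
      have := Nat.sum_range_choose n
      exact_mod_cast this
    rw [h1, div_self (by positivity)]
  have hc1 : ∑ j, c j = 1 := by
    rw [hc]
    rw [← Fintype.prod_sum (fun (_ : ι) (t : Fin (n + 1)) => (n.choose t : ℝ) / 2 ^ n)]
    rw [hsum1]
    exact prod_const_one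
  obtain ⟨g, hg⟩ := exists_largeP W hcond c hc0 hc1
  refine ⟨g, ?_⟩
  by_contra hcon
  push Not at hcon
  obtain ⟨i₀, hi₀⟩ := hcon
  -- the value of the polynomial
  have hval : ∑ j, (c j : ℂ) * ee (W j g) = ∏ i, ((1 + ee (V i g)) / 2) ^ n := by
    have h1 : ∀ i, ((1 + ee (V i g)) / 2) ^ n =
        ∑ t : Fin (n + 1), (((n.choose t : ℝ) / 2 ^ n : ℝ) : ℂ) * ee ((t : ℕ) • V i g) := by
      intro i
      rw [div_pow, add_comm, add_pow, sum_div,
        Fin.sum_univ_eq_sum_range (fun t => (((n.choose t : ℝ) / 2 ^ n : ℝ) : ℂ) *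
          ee (t • V i g))]
      apply sum_congr rfl
      intro t _
      rw [one_pow, mul_one, ee_nsmul]
      push_cast
      ring
    simp only [h1]
    rw [Fintype.prod_sum]
    apply sum_congr rfl
    intro j _
    rw [prod_mul_distrib, ← ee_sum]
    congr 1
    rw [hc]
    push_cast
    rfl
  rw [hval, norm_prod, ← prod_pow] at hg
  have hle : ∀ i, (‖((1 + ee (V i g)) / 2) ^ n‖ ^ 2) =
      ((1 + Real.cos (2 * Real.pi * ‖V i g‖)) / 2) ^ n := by
    intro i
    rw [norm_pow, ← pow_mul, mul_comm, pow_mul, normSq_half]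
  simp only [hle] at hg
  have hone : ∀ i, 0 ≤ (1 + Real.cos (2 * Real.pi * ‖V i g‖)) / 2 ∧
      (1 + Real.cos (2 * Real.pi * ‖V i g‖)) / 2 ≤ 1 := by
    intro i
    have h1 := Real.neg_one_le_cos (2 * Real.pi * ‖V i g‖)
    have h2 := Real.cos_le_one (2 * Real.pi * ‖V i g‖)
    constructor <;> linarith
  have hbig : (1 + Real.cos (2 * Real.pi * ‖V i₀ g‖)) / 2 ≤ ρ := by
    have h1 : Real.cos (2 * Real.pi * ‖V i₀ g‖) ≤ Real.cos (2 * Real.pi * ε') := by
      apply Real.cos_le_cos_of_nonneg_of_le_pi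
      · positivity
      · have := norm_le_half (V i₀ g)
        nlinarith
      · have : ε' ≤ ‖V i₀ g‖ := (min_le_left _ _).trans hi₀
        nlinarith
    rw [hρ]
    linarith
  have hprod : ∏ i, ((1 + Real.cos (2 * Real.pi * ‖V i g‖)) / 2) ^ n ≤ ρ ^ n := by
    rw [← mul_prod_erase univ _ (mem_univ i₀)]
    have h1 : ∏ i ∈ univ.erase i₀, ((1 + Real.cos (2 * Real.pi * ‖V i g‖)) / 2) ^ n ≤ 1 :=
      prod_le_one (fun i _ => pow_nonneg (hone i).1 n) (fun i _ => pow_le_one₀ (hone i).1 (hone i).2)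
    have h2 := pow_le_pow_left₀ (hone i₀).1 hbig n
    have h3 : 0 ≤ ∏ i ∈ univ.erase i₀, ((1 + Real.cos (2 * Real.pi * ‖V i g‖)) / 2) ^ n :=
      prod_nonneg fun i _ => pow_nonneg (hone i).1 n
    calc _ ≤ ρ ^ n * 1 := mul_le_mul h2 h1 h3 (pow_nonneg hρ0 n)
      _ = ρ ^ n := mul_one _
  have hcard : (Fintype.card (ι → Fin (n + 1)) : ℝ) = ((n : ℝ) + 1) ^ Fintype.card ι := by
    rw [Fintype.card_fun, Fintype.card_fin]
    push_cast
    rfl
  rw [hcard] at hg
  linarith

end Pool.Agent.Work.MP_0f91f8_co.Quad
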