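import Pool.Agent.Work.MP_0f91f8_co.Quad.Fin
import Pool.Agent.Work.MP_0f91f8_co.Quad.PNat

/-!
Passing to the kernel of a multiplicative function with finitely many values.
-/

open Filter Topology

namespace Pool.Agent.Work.MP_0f91f8_co.Quad

open Bohr

universe u v

/-- difference on the multiplicative semigroup of positive integers -/
def Dn (h : ℕ) (P : ℕ → UnitAddCircle) : ℕ → UnitAddCircle := fun n => P (n * h) - P n

/-- the homomorphism of the group of positive rationals given by a multiplicative function -/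
noncomputable def qh {E : Type*} [CommGroup E] (f : ℕ → E)
    (hf : ∀ m n : ℕ, 0 < m → 0 < n → f (m * n) = f m * f n) : PQ →+ Additive E :=
  AddMonoidHom.mk' (fun x => Additive.ofMul (gq f (vl x))) (by
    intro x y
    show Additive.ofMul (gq f (vl (x + y))) = _
    rw [vl_add, gq_mul hf (vl_pos x) (vl_pos y)]
    rfl)

lemma qh_pn {E : Type*} [CommGroup E] (f : ℕ → E)
    (hf : ∀ m n : ℕ, 0 < m → 0 < n → f (m * n) = f m * f n) (n : ℕ) (hn : 0 < n) :
    qh f hf (pn n hn) = Additive.ofMul (f n) := by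
  show Additive.ofMul (gq f (vl (pn n hn))) = _
  rw [vl_pn, gq_nat hf hn]

lemma pn_add (m n : ℕ) (hm : 0 < m) (hn : 0 < n) :
    pn m hm + pn n hn = pn (m * n) (Nat.mul_pos hm hn) := by
  apply vl_inj
  rw [vl_add, vl_pn, vl_pn, vl_pn]
  push_cast
  rfl

lemma nsmul_pn (m : ℕ) (hm : 0 < m) (k : ℕ) : k • pn m hm = pn (m ^ k) (pow_pos hm k) := by
  induction k with
  | zero =>
    apply vl_inj
    rw [zero_nsmul, vl_zero, vl_pn]
    simp
  | succ k ih =>
    rw [succ_nsmul, ih, pn_add]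
    rfl

lemma ker_gen {E : Type*} [CommGroup E] [Finite E] (f : ℕ → E)
    (hf : ∀ m n : ℕ, 0 < m → 0 < n → f (m * n) = f m * f n) (a : PQ) (ha : a ∈ (qh f hf).ker) :
    ∃ (u v : ℕ) (hu : 0 < u) (hv : 0 < v), pn u hu ∈ (qh f hf).ker ∧ pn v hv ∈ (qh f hf).ker ∧
      a = pn u hu - pn v hv := by
  obtain ⟨u, v, hu, hv, rfl⟩ := exists_pn a
  have hE : ∀ e : Additive E, Nat.card E • e = 0 := by
    intro e
    have h1 : (Additive.toMul e) ^ Nat.card E = 1 := pow_card_eq_one'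
    have h2 : Additive.ofMul ((Additive.toMul e) ^ Nat.card E) = Nat.card E • e := rfl
    rw [← h2, h1]
    rfl
  have hr : 0 < Nat.card E := Nat.card_pos
  obtain ⟨r, hr'⟩ : ∃ r, Nat.card E = r + 1 := ⟨Nat.card E - 1, by omega⟩
  rw [hr'] at hE
  have hv' : (r + 1) • pn v hv ∈ (qh f hf).ker := by
    rw [AddMonoidHom.mem_ker, map_nsmul]
    exact hE _
  have hu' : pn u hu + r • pn v hv ∈ (qh f hf).ker := by
    have e1 : pn u hu + r • pn v hv = (pn u hu - pn v hv) + (r + 1) • pn v hv := by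
      rw [succ_nsmul]
      abel
    rw [e1]
    exact (qh f hf).ker.add_mem ha hv'
  rw [nsmul_pn] at hv'
  rw [nsmul_pn, pn_add] at hu'
  refine ⟨_, _, _, _, hu', hv', ?_⟩
  rw [← pn_add u (v ^ r) hu (pow_pos hv r), ← nsmul_pn v hv, ← nsmul_pn v hv, succ_nsmul]
  abel

lemma third_mem {H : AddSubgroup PQ} (hH : ∀ a ∈ H, ∃ (u v : ℕ) (hu : 0 < u) (hv : 0 < v),
      pn u hu ∈ H ∧ pn v hv ∈ H ∧ a = pn u hu - pn v hv)
    (Λ : AddSubgroup UnitAddCircle) {k : ℕ} {Φ : PQ → UnitAddCircle} (hΦ : IsP k Φ)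
    (h : ∀ (a b c : ℕ) (ha : 0 < a) (hb : 0 < b) (hc : 0 < c), pn a ha ∈ H → pn b hb ∈ H →
      pn c hc ∈ H → ∀ (n : ℕ) (hn : 0 < n),
        Df (pn a ha) (Df (pn b hb) (Df (pn c hc) Φ)) (pn n hn) ∈ Λ) :
    ∀ a ∈ H, ∀ b ∈ H, ∀ c ∈ H, ∀ x, Df a (Df b (Df c Φ)) x ∈ Λ := by
  have hstep : ∀ (P : PQ → UnitAddCircle), (∀ (a : ℕ) (ha : 0 < a), pn a ha ∈ H → ∀ x,
      Df (pn a ha) P x ∈ Λ) → ∀ a ∈ H, ∀ x, Df a P x ∈ Λ := by
    intro P hP a ha x
    obtain ⟨u, v, hu, hv, huH, hvH, rfl⟩ := hH a ha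
    rw [Df_sub_step]
    exact Λ.sub_mem (hP u hu huH _) (hP v hv hvH _)
  have h0 : ∀ (a b c : ℕ) (ha : 0 < a) (hb : 0 < b) (hc : 0 < c), pn a ha ∈ H → pn b hb ∈ H →
      pn c hc ∈ H → ∀ x, Df (pn a ha) (Df (pn b hb) (Df (pn c hc) Φ)) x ∈ Λ := by
    intro a b c ha hb hc haH hbH hcH
    exact mem_of_nat Λ _ (((hΦ.df _).df _).df _) (h a b c ha hb hc haH hbH hcH)
  intro a ha b hb c hc
  have h1 : ∀ (b c : ℕ) (hb : 0 < b) (hc : 0 < c), pn b hb ∈ H → pn c hc ∈ H → ∀ x,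
      Df a (Df (pn b hb) (Df (pn c hc) Φ)) x ∈ Λ := fun b c hb hc hbH hcH =>
    hstep _ (fun a' ha' haH' => h0 a' b c ha' hb hc haH' hbH hcH) a ha
  have h2 : ∀ (c : ℕ) (hc : 0 < c), pn c hc ∈ H → ∀ x,
      Df a (Df b (Df (pn c hc) Φ)) x ∈ Λ := by
    intro c hc hcH x
    rw [Df_comm]
    refine hstep _ (fun b' hb' hbH' y => ?_) b hb x
    rw [Df_comm]
    exact h1 b' c hb' hc hbH' hcH y
  intro x
  rw [Df_comm b c, Df_comm a c]
  refine hstep _ (fun c' hc' hcH' y => ?_) c hc x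
  rw [Df_comm, Df_comm _ b]
  exact h2 c' hc' hcH' y

lemma IsP.comp_hom {G H : Type*} [AddCommGroup G] [AddCommGroup H] (j : H →+ G) {k : ℕ} :
    ∀ {P : G → UnitAddCircle}, IsP k P → IsP k (fun x => P (j x)) := by
  induction k with
  | zero =>
    intro P hP x
    show P (j x) = P (j 0)
    rw [hP (j x), hP (j 0)]
  | succ k ih =>
    intro P hP h
    have h1 : Df h (fun x => P (j x)) = fun x => Df (j h) P (j x) := by
      funext x
      simp only [Df, map_add]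
    rw [h1]
    exact ih (hP (j h))

/-- recurrence in the kernel -/
lemma tr_rec_ker {E : Type*} [CommGroup E] [Finite E] (f : ℕ → E)
    (hf : ∀ m n : ℕ, 0 < m → 0 < n → f (m * n) = f m * f n)
    (𝓕 : Set ((qh f hf).ker →+ UnitAddCircle)) (h𝓕 : 𝓕.Finite) (κ : (qh f hf).ker) (δ : ℝ)
    (hδ : 0 < δ) :
    ∃ a b : (qh f hf).ker, Tr a b ∧ ∀ F ∈ 𝓕, ‖F a‖ < δ ∧ ‖F b - F κ‖ < δ := by
  classical
  have hext : ∀ F : (qh f hf).ker →+ UnitAddCircle, ∃ F' : PQ →+ UnitAddCircle,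
      ∀ x : (qh f hf).ker, F' x = F x := by
    intro F
    obtain ⟨χ, hχ⟩ := (Module.Baer.of_divisible UnitAddCircle).extension_property_addMonoidHom
      (qh f hf).ker.subtype (qh f hf).ker.subtype_injective F
    exact ⟨χ, fun x => DFunLike.congr_fun hχ x⟩
  choose ext hext using hext
  have hchar : ∀ e : Additive E, ∃ χ : Additive E →+ UnitAddCircle, e ≠ 0 → χ e ≠ 0 := by
    intro e
    by_cases he : e = 0
    · exact ⟨0, fun h => absurd he h⟩
    · obtain ⟨χ, hχ⟩ := exists_hom_ne he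
      exact ⟨χ, fun _ => hχ⟩
  choose χ hχ using hchar
  have hfinE : Finite (Additive E) := inferInstanceAs (Finite E)
  have hftE : Fintype (Additive E) := Fintype.ofFinite _
  obtain ⟨δ₀, hδ₀, hδ₀le⟩ := exists_pos_le (Finset.univ : Finset (Additive E))
    (fun e => if e = 0 then 1 else ‖χ e e‖) (by
      intro e _
      split_ifs with h
      · exact one_pos
      · exact norm_pos_iff.2 (hχ e h))
  obtain ⟨a, b, hab, hF⟩ := tr_rec (ext '' 𝓕 ∪ Set.range (fun e => (χ e).comp (qh f hf)))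
    ((h𝓕.image _).union (Set.finite_range _)) (κ : PQ) (min δ δ₀) (lt_min hδ hδ₀)
  have hker : ∀ c : PQ, (∀ e, ‖χ e (qh f hf c)‖ < δ₀) → c ∈ (qh f hf).ker := by
    intro c hc
    rw [AddMonoidHom.mem_ker]
    by_contra hne
    have h1 := hc (qh f hf c)
    have h2 := hδ₀le (qh f hf c) (Finset.mem_univ _)
    rw [if_neg hne] at h2
    linarith
  have ha : a ∈ (qh f hf).ker := by
    apply hker
    intro e
    have h1 := (hF ((χ e).comp (qh f hf)) (Or.inr ⟨e, rfl⟩)).1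
    exact lt_of_lt_of_le h1 (min_le_right _ _)
  have hb : b ∈ (qh f hf).ker := by
    apply hker
    intro e
    have h1 := (hF ((χ e).comp (qh f hf)) (Or.inr ⟨e, rfl⟩)).2
    have h2 : (χ e).comp (qh f hf) (κ : PQ) = 0 := by
      rw [AddMonoidHom.comp_apply, AddMonoidHom.mem_ker.1 κ.2, map_zero]
    rw [h2, sub_zero] at h1
    exact lt_of_lt_of_le h1 (min_le_right _ _)
  refine ⟨⟨a, ha⟩, ⟨b, hb⟩, hab, fun F hFmem => ?_⟩
  have h1 := hF (ext F) (Or.inl ⟨F, hFmem, rfl⟩)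
  have h2 := hext F ⟨a, ha⟩
  have h3 := hext F ⟨b, hb⟩
  have h4 := hext F κ
  rw [← h2, ← h3, ← h4]
  exact ⟨lt_of_lt_of_le h1.1 (min_le_left _ _), lt_of_lt_of_le h1.2 (min_le_left _ _)⟩

end Pool.Agent.Work.MP_0f91f8_co.Quad
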