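import Pool.Agent.Work.MP_0f91f8_co.Quad.PPoly

/-!
Almost invariant finite averages: exponentials of nonconstant polynomials whose second differences
are torsion free have mean zero.
-/

namespace Pool.Agent.Work.MP_0f91f8_co.Quad

open Finset

universe u v

variable {G : Type u} [AddCommGroup G]

/-- almost invariant samples -/
def Inv (K : Finset G) (δ : ℝ) (S : Type) [Fintype S] (g : S → G) : Prop :=
  ∀ h ∈ K, ∀ F : G → ℂ, (∀ x, ‖F x‖ ≤ 1) →
    ‖∑ s, F (g s + h) - ∑ s, F (g s)‖ ≤ δ * Fintype.card S

/-- mean zero for all sufficiently invariant samples -/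
def Null (P : G → UnitAddCircle) : Prop :=
  ∀ δ : ℝ, 0 < δ → ∃ (K : Finset G) (δ' : ℝ), 0 < δ' ∧
    ∀ (S : Type) [Fintype S] [Nonempty S] (g : S → G), Inv K δ' S g →
      ‖∑ s, ee (P (g s))‖ ≤ δ * Fintype.card S

lemma Inv.mono {K K' : Finset G} {δ δ' : ℝ} {S : Type} [Fintype S] {g : S → G}
    (h : Inv K δ S g) (hK : K' ⊆ K) (hδ : δ ≤ δ') : Inv K' δ' S g := by
  intro x hx F hF
  refine (h x (hK hx) F hF).trans ?_
  apply mul_le_mul_of_nonneg_right hδ
  positivity

lemma exists_inv (K : Finset G) (δ : ℝ) (hδ : 0 < δ) :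
    ∃ (S : Type) (_ : Fintype S) (_ : Nonempty S) (g : S → G), Inv K δ S g := by
  classical
  induction K using Finset.induction_on with
  | empty => exact ⟨Unit, inferInstance, inferInstance, fun _ => 0, by intro h hh; simp at hh⟩
  | insert h K hh ih =>
    obtain ⟨S, hS, hSn, g, hg⟩ := ih
    obtain ⟨N, hN⟩ := exists_nat_gt (2 / δ)
    have hN0 : 0 < N := by
      have : (0 : ℝ) < N := lt_of_le_of_lt (by positivity) hN
      exact_mod_cast this
    refine ⟨S × Fin N, inferInstance, ⟨(Classical.arbitrary S, ⟨0, hN0⟩)⟩,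
      fun x => g x.1 + (x.2 : ℕ) • h, ?_⟩
    have hsum : ∀ F : G → ℂ, ∑ x : S × Fin N, F (g x.1 + (x.2 : ℕ) • h) =
        ∑ t ∈ range N, ∑ s, F (g s + t • h) := by
      intro F
      rw [Fintype.sum_prod_type, sum_comm,
        ← Fin.sum_univ_eq_sum_range (fun t => ∑ s, F (g s + t • h))]
    intro k hk F hF
    have hcard : (Fintype.card (S × Fin N) : ℝ) = Fintype.card S * N := by
      rw [Fintype.card_prod, Fintype.card_fin]
      push_cast
      rfl
    rw [hcard]
    have e1 : ∑ x : S × Fin N, F (g x.1 + (x.2 : ℕ) • h + k) =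
        ∑ t ∈ range N, ∑ s, F (g s + t • h + k) := hsum (fun y => F (y + k))
    rw [e1, hsum F]
    rcases mem_insert.1 hk with rfl | hk
    · have e2 : ∑ t ∈ range N, ∑ s, F (g s + t • k + k) - ∑ t ∈ range N, ∑ s, F (g s + t • k) =
          ∑ s, F (g s + N • k) - ∑ s, F (g s + 0 • k) := by
        rw [← sum_sub_distrib, ← sum_range_sub (fun t => ∑ s, F (g s + t • k)) N]
        apply sum_congr rfl
        intro t _
        congr 1
        apply sum_congr rfl
        intro s _
        rw [succ_nsmul, add_assoc]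
      rw [e2]
      have e3 : ∀ t : ℕ, ‖∑ s, F (g s + t • k)‖ ≤ Fintype.card S := by
        intro t
        refine (norm_sum_le _ _).trans ?_
        calc ∑ s, ‖F (g s + t • k)‖ ≤ ∑ _s : S, (1 : ℝ) := sum_le_sum fun s _ => hF _
          _ = Fintype.card S := by simp
      refine (norm_sub_le _ _).trans ?_
      rw [div_lt_iff₀ hδ] at hN
      have hc : (0 : ℝ) ≤ Fintype.card S := by positivity
      calc _ ≤ (Fintype.card S : ℝ) + Fintype.card S := add_le_add (e3 N) (e3 0)
        _ = 2 * Fintype.card S := by ring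
        _ ≤ (N * δ) * Fintype.card S := mul_le_mul_of_nonneg_right hN.le hc
        _ = δ * (Fintype.card S * N) := by ring
    · rw [← sum_sub_distrib]
      refine (norm_sum_le _ _).trans ?_
      calc ∑ t ∈ range N, ‖∑ s, F (g s + t • h + k) - ∑ s, F (g s + t • h)‖
          ≤ ∑ t ∈ range N, δ * Fintype.card S := by
            apply sum_le_sum
            intro t _
            have := hg k hk (fun y => F (y + t • h)) (fun y => hF _)
            have e4 : ∀ s, g s + k + t • h = g s + t • h + k := fun s => add_right_comm _ _ _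
            simp only [e4] at this
            exact this
        _ = δ * (Fintype.card S * N) := by
            rw [sum_const, card_range, nsmul_eq_mul]
            ring

/-- samples for finitely many null functions -/
lemma exists_sample {J : Type*} (s : Finset J) (P : J → G → UnitAddCircle)
    (hP : ∀ j ∈ s, Null (P j)) (δ : ℝ) (hδ : 0 < δ) :
    ∃ (K : Finset G) (δ' : ℝ), 0 < δ' ∧ ∀ (S : Type) [Fintype S] [Nonempty S] (g : S → G),
      Inv K δ' S g → ∀ j ∈ s, ‖∑ a, ee (P j (g a))‖ ≤ δ * Fintype.card S := by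
  classical
  induction s using Finset.induction_on with
  | empty => exact ⟨∅, 1, one_pos, fun S _ _ g _ j hj => by simp at hj⟩
  | insert j s hj ih =>
    obtain ⟨K, δ₁, hδ₁, h1⟩ := ih fun i hi => hP i (mem_insert_of_mem hi)
    obtain ⟨K', δ₂, hδ₂, h2⟩ := hP j (mem_insert_self _ _) δ hδ
    refine ⟨K ∪ K', min δ₁ δ₂, lt_min hδ₁ hδ₂, fun S _ _ g hg i hi => ?_⟩
    rcases mem_insert.1 hi with rfl | hi
    · exact h2 S g (hg.mono subset_union_right (min_le_right _ _))
    · exact h1 S g (hg.mono subset_union_left (min_le_left _ _)) i hi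

/-- the van der Corput inequality for samples -/
lemma vdc {S : Type} [Fintype S] [Nonempty S] (g : S → G) (P : G → UnitAddCircle) (h : G)
    (N : ℕ) (hN : 0 < N) (δ₁ δ₂ : ℝ) (hδ₂ : 0 ≤ δ₂)
    (h1 : ∀ i < N, ‖∑ s, ee (P (g s + i • h)) - ∑ s, ee (P (g s))‖ ≤ δ₁ * Fintype.card S)
    (h2 : ∀ i < N, ∀ j < N, i ≠ j →
      ‖∑ s, ee (P (g s + i • h) - P (g s + j • h))‖ ≤ δ₂ * Fintype.card S) :
    ‖∑ s, ee (P (g s))‖ ≤ (Real.sqrt (1 / N + δ₂) + δ₁) * Fintype.card S := by
  classical
  obtain ⟨M, hM⟩ : ∃ M : ℝ, M = (Fintype.card S : ℝ) := ⟨_, rfl⟩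
  rw [← hM] at h1 h2 ⊢
  have hMpos : 0 < M := by rw [hM]; exact_mod_cast Fintype.card_pos
  have hN' : (0 : ℝ) < N := by exact_mod_cast hN
  obtain ⟨A, hA⟩ : ∃ A : ℂ, A = ∑ s, ee (P (g s)) := ⟨_, rfl⟩
  rw [← hA] at h1 ⊢
  -- the sum of the translates
  have h3 : (N : ℝ) * ‖A‖ ≤ ‖∑ i ∈ range N, ∑ s, ee (P (g s + i • h))‖ + N * (δ₁ * M) := by
    have e1 : (N : ℂ) * A = ∑ i ∈ range N, ∑ s, ee (P (g s + i • h)) -
        ∑ i ∈ range N, (∑ s, ee (P (g s + i • h)) - A) := by
      rw [sum_sub_distrib, sum_const, card_range, nsmul_eq_mul]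
      ring
    have e2 : (N : ℝ) * ‖A‖ = ‖(N : ℂ) * A‖ := by
      rw [norm_mul]
      congr 1
      simp
    rw [e2, e1]
    refine (norm_sub_le _ _).trans ?_
    have e3 : ‖∑ i ∈ range N, (∑ s, ee (P (g s + i • h)) - A)‖ ≤ N * (δ₁ * M) := by
      refine (norm_sum_le _ _).trans ?_
      calc _ ≤ ∑ _i ∈ range N, δ₁ * M := sum_le_sum fun i hi => h1 i (mem_range.1 hi)
        _ = N * (δ₁ * M) := by rw [sum_const, card_range, nsmul_eq_mul]
    linarith
  -- Cauchy-Schwarz
  have h4 : ‖∑ i ∈ range N, ∑ s, ee (P (g s + i • h))‖ ^ 2 ≤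
      M * ∑ s, ‖∑ i ∈ range N, ee (P (g s + i • h))‖ ^ 2 := by
    rw [sum_comm]
    have e1 : ‖∑ s, ∑ i ∈ range N, ee (P (g s + i • h))‖ ≤
        ∑ s, ‖∑ i ∈ range N, ee (P (g s + i • h))‖ := norm_sum_le _ _
    have e2 := sq_sum_le_card_mul_sum_sq (s := (univ : Finset S))
      (f := fun s => ‖∑ i ∈ range N, ee (P (g s + i • h))‖)
    rw [card_univ, ← hM] at e2
    exact (pow_le_pow_left₀ (norm_nonneg _) e1 2).trans e2
  have h5 : ∑ s, ‖∑ i ∈ range N, ee (P (g s + i • h))‖ ^ 2 ≤ M * N + N ^ 2 * (δ₂ * M) := by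
    have e1 : ((∑ s, ‖∑ i ∈ range N, ee (P (g s + i • h))‖ ^ 2 : ℝ) : ℂ) =
        ∑ i ∈ range N, ∑ j ∈ range N, ∑ s, ee (P (g s + i • h) - P (g s + j • h)) := by
      have e2 : ∀ s, ((‖∑ i ∈ range N, ee (P (g s + i • h))‖ ^ 2 : ℝ) : ℂ) =
          ∑ i ∈ range N, ∑ j ∈ range N, ee (P (g s + i • h) - P (g s + j • h)) := by
        intro s
        rw [← Complex.normSq_eq_norm_sq, ← Complex.mul_conj, map_sum, sum_mul_sum]
        apply sum_congr rfl
        intro i _
        apply sum_congr rfl
        intro j _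
        rw [sub_eq_add_neg, ee_add, ee_neg]
      rw [Complex.ofReal_sum]
      simp only [e2]
      rw [sum_comm]
      apply sum_congr rfl
      intro i _
      rw [sum_comm]
    have e3 : ∀ i ∈ range N, ∀ j ∈ range N,
        ‖∑ s, ee (P (g s + i • h) - P (g s + j • h))‖ ≤ (if i = j then M else 0) + δ₂ * M := by
      intro i hi j hj
      by_cases hij : i = j
      · rw [if_pos hij]
        have e4 : ‖∑ s, ee (P (g s + i • h) - P (g s + j • h))‖ ≤ M := by
          refine (norm_sum_le _ _).trans ?_
          simp only [norm_ee, sum_const, card_univ, nsmul_eq_mul, mul_one]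
          rw [hM]
        have : 0 ≤ δ₂ * M := by positivity
        linarith
      · rw [if_neg hij, zero_add]
        exact h2 i (mem_range.1 hi) j (mem_range.1 hj) hij
    have e5 : ∑ s, ‖∑ i ∈ range N, ee (P (g s + i • h))‖ ^ 2 =
        ‖((∑ s, ‖∑ i ∈ range N, ee (P (g s + i • h))‖ ^ 2 : ℝ) : ℂ)‖ := by
      rw [Complex.norm_real, Real.norm_of_nonneg]
      exact sum_nonneg fun s _ => sq_nonneg _
    rw [e5, e1]
    refine (norm_sum_le _ _).trans ?_
    calc ∑ i ∈ range N, ‖∑ j ∈ range N, ∑ s, ee (P (g s + i • h) - P (g s + j • h))‖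
        ≤ ∑ i ∈ range N, ∑ j ∈ range N, ((if i = j then M else 0) + δ₂ * M) := by
          apply sum_le_sum
          intro i hi
          refine (norm_sum_le _ _).trans ?_
          exact sum_le_sum fun j hj => e3 i hi j hj
      _ = M * N + N ^ 2 * (δ₂ * M) := by
          have e6 : ∀ i ∈ range N, ∑ j ∈ range N, ((if i = j then M else 0) + δ₂ * M) =
              M + N * (δ₂ * M) := by
            intro i hi
            rw [sum_add_distrib, sum_ite_eq, if_pos hi, sum_const, card_range, nsmul_eq_mul]
          rw [sum_congr rfl e6, sum_const, card_range, nsmul_eq_mul]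
          ring
  have h6 : ‖∑ i ∈ range N, ∑ s, ee (P (g s + i • h))‖ ≤ N * M * Real.sqrt (1 / N + δ₂) := by
    rw [← Real.sqrt_sq (norm_nonneg (∑ i ∈ range N, ∑ s, ee (P (g s + i • h))))]
    have e7 : (N : ℝ) * M = Real.sqrt ((N * M) ^ 2) := (Real.sqrt_sq (by positivity)).symm
    rw [e7, ← Real.sqrt_mul (by positivity)]
    apply Real.sqrt_le_sqrt
    refine h4.trans ?_
    calc M * ∑ s, ‖∑ i ∈ range N, ee (P (g s + i • h))‖ ^ 2 ≤ M * (M * N + N ^ 2 * (δ₂ * M)) :=
          mul_le_mul_of_nonneg_left h5 hMpos.le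
      _ = (N * M) ^ 2 * (1 / N + δ₂) := by
          field_simp
  have h7 : (N : ℝ) * ‖A‖ ≤ N * ((Real.sqrt (1 / N + δ₂) + δ₁) * M) := by
    calc (N : ℝ) * ‖A‖ ≤ N * M * Real.sqrt (1 / N + δ₂) + N * (δ₁ * M) := by linarith
      _ = N * ((Real.sqrt (1 / N + δ₂) + δ₁) * M) := by ring
  exact le_of_mul_le_mul_left h7 hN'

theorem null_of_nonconst {Λ : AddSubgroup UnitAddCircle} (hΛ : TF Λ) {k : ℕ} :
    ∀ P : G → UnitAddCircle, IsP k P → (∀ a b x, Df a (Df b P) x ∈ Λ) → ¬ IsP 0 P → Null P := by
  classical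
  induction k with
  | zero => intro P hP _ hne; exact absurd hP hne
  | succ k ih =>
    intro P hP hPΛ hne δ hδ
    by_cases hc : ∀ h, IsP 0 (Df h P)
    · -- the linear case
      obtain ⟨x, hx⟩ : ∃ x, P x ≠ P 0 := by
        by_contra hcon
        push Not at hcon
        exact hne hcon
      obtain ⟨θ, hθ⟩ : ∃ θ, θ = Df x P 0 := ⟨_, rfl⟩
      have hθ0 : θ ≠ 0 := by
        rw [hθ]
        simp only [Df, zero_add]
        exact sub_ne_zero.2 hx
      have hz : ee θ ≠ 1 := fun h' => hθ0 (ee_eq_one h')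
      have hz' : 0 < ‖ee θ - 1‖ := norm_pos_iff.2 (sub_ne_zero.2 hz)
      refine ⟨{x}, δ * ‖ee θ - 1‖, by positivity, fun S _ _ g hg => ?_⟩
      have h1 := hg x (mem_singleton_self _) (fun y => ee (P y)) (fun y => (norm_ee _).le)
      have h2 : ∀ y, ee (P (y + x)) = ee θ * ee (P y) := by
        intro y
        rw [← ee_add]
        congr 1
        have h3 := hc x y
        rw [← hθ] at h3
        rw [← h3]
        simp only [Df]
        abel
      simp only [h2] at h1
      rw [← mul_sum] at h1
      have h4 : ee θ * ∑ s, ee (P (g s)) - ∑ s, ee (P (g s)) =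
          (ee θ - 1) * ∑ s, ee (P (g s)) := by ring
      rw [h4, norm_mul] at h1
      have h5 : ‖ee θ - 1‖ * ‖∑ s, ee (P (g s))‖ ≤ ‖ee θ - 1‖ * (δ * Fintype.card S) := by
        calc _ ≤ δ * ‖ee θ - 1‖ * Fintype.card S := h1
          _ = _ := by ring
      exact le_of_mul_le_mul_left h5 hz'
    · push Not at hc
      obtain ⟨h, hh⟩ := hc
      obtain ⟨N, hN⟩ := exists_nat_gt (8 / δ ^ 2)
      have hN0' : (0 : ℝ) < N := lt_of_le_of_lt (by positivity) hN
      have hN0 : 0 < N := by exact_mod_cast hN0'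
      -- differences of translates are null
      have hnull : ∀ p ∈ ((range N ×ˢ range N).filter (fun p => p.1 ≠ p.2)),
          Null (fun x => P (x + p.1 • h) - P (x + p.2 • h)) := by
        rintro ⟨i, j⟩ hp
        rw [mem_filter] at hp
        have hij : i ≠ j := hp.2
        simp only
        have hshift : ∀ i : ℕ, IsP (k + 1) (fun x => P (x + i • h)) := fun i =>
          IsP.shift (i • h) hP
        apply ih
        · -- degree
          rcases lt_or_gt_of_ne hij with hlt | hgt
          · obtain ⟨t, rfl⟩ : ∃ t, j = i + t := ⟨j - i, by omega⟩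
            have e1 : (fun x => P (x + i • h) - P (x + (i + t) • h)) =
                -(fun x => Df (t • h) P (x + i • h)) := by
              funext x
              simp only [Df, Pi.neg_apply]
              rw [add_smul, ← add_assoc]
              abel
            rw [e1]
            exact (IsP.shift _ (hP _)).neg
          · obtain ⟨t, rfl⟩ : ∃ t, i = j + t := ⟨i - j, by omega⟩
            have e1 : (fun x => P (x + (j + t) • h) - P (x + j • h)) =
                (fun x => Df (t • h) P (x + j • h)) := by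
              funext x
              simp only [Df]
              rw [add_smul, ← add_assoc]
            rw [e1]
            exact IsP.shift _ (hP _)
        · intro a b x
          have e1 : Df a (Df b (fun x => P (x + i • h) - P (x + j • h))) x =
              Df a (Df b P) (x + i • h) - Df a (Df b P) (x + j • h) := by
            have c1 : ∀ y : G, x + a + b + y = x + y + a + b := fun y => by abel
            have c2 : ∀ y : G, x + a + y = x + y + a := fun y => by abel
            have c3 : ∀ y : G, x + b + y = x + y + b := fun y => by abel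
            simp only [Df]
            rw [c1, c1, c2 (i • h), c2 (j • h), c3 (i • h), c3 (j • h)]
            abel
          rw [e1]
          exact Λ.sub_mem (hPΛ _ _ _) (hPΛ _ _ _)
        · intro hcon
          rcases lt_or_gt_of_ne hij with hlt | hgt
          · obtain ⟨t, rfl⟩ : ∃ t, j = i + t := ⟨j - i, by omega⟩
            have ht : 1 ≤ t := by omega
            apply tf_nonconst hΛ h ht hP hPΛ hh
            have e1 : Df (t • h) P = -(fun x => (fun x => P (x + i • h) -
                P (x + (i + t) • h)) (x + -(i • h))) := by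
              funext x
              simp only [Df, Pi.neg_apply]
              rw [neg_add_cancel_right, add_smul, ← add_assoc, neg_add_cancel_right]
              abel
            rw [e1]
            exact (IsP.shift _ hcon).neg
          · obtain ⟨t, rfl⟩ : ∃ t, i = j + t := ⟨i - j, by omega⟩
            have ht : 1 ≤ t := by omega
            apply tf_nonconst hΛ h ht hP hPΛ hh
            have e1 : Df (t • h) P = (fun x => (fun x => P (x + (j + t) • h) -
                P (x + j • h)) (x + -(j • h))) := by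
              funext x
              simp only [Df]
              rw [neg_add_cancel_right, add_smul, ← add_assoc, neg_add_cancel_right]
            rw [e1]
            exact IsP.shift _ hcon
      obtain ⟨K, δ', hδ', hK⟩ := exists_sample _ (fun p : ℕ × ℕ => fun x =>
        P (x + p.1 • h) - P (x + p.2 • h)) hnull (δ ^ 2 / 8) (by positivity)
      refine ⟨K ∪ (range N).image (fun i => i • h), min δ' (δ / 2),
        lt_min hδ' (by positivity), fun S _ _ g hg => ?_⟩
      have h1 := hK S g (hg.mono subset_union_left (min_le_left _ _))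
      have h2 := vdc g P h N hN0 (δ / 2) (δ ^ 2 / 8) (by positivity)
        (by
          intro i hi
          exact (hg.mono (subset_refl _) (min_le_right _ _)) (i • h)
            (mem_union_right _ (mem_image_of_mem _ (mem_range.2 hi)))
            (fun y => ee (P y)) (fun y => (norm_ee _).le))
        (by
          intro i hi j hj hij
          apply h1 (i, j)
          rw [mem_filter, mem_product, mem_range, mem_range]
          exact ⟨⟨hi, hj⟩, hij⟩)
      refine h2.trans ?_
      apply mul_le_mul_of_nonneg_right _ (by positivity)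
      have h3 : Real.sqrt (1 / N + δ ^ 2 / 8) ≤ δ / 2 := by
        rw [show δ / 2 = Real.sqrt ((δ / 2) ^ 2) from (Real.sqrt_sq (by positivity)).symm]
        apply Real.sqrt_le_sqrt
        rw [div_lt_iff₀ (by positivity)] at hN
        have h4 : 1 / (N : ℝ) ≤ δ ^ 2 / 8 := by
          rw [div_le_iff₀ hN0']
          linarith
        nlinarith
      linarith

end Pool.Agent.Work.MP_0f91f8_co.Quad
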