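import Pool.Agent.Work.MP_0f91f8_co.Quad.Abs

/-!
Polynomial functions on an abelian group with values in the circle group.
-/

namespace Pool.Agent.Work.MP_0f91f8_co.Quad

open Finset

universe u v

variable {G : Type u} [AddCommGroup G]

/-- difference -/
def Df (h : G) (P : G → UnitAddCircle) : G → UnitAddCircle := fun x => P (x + h) - P x

/-- polynomial of degree at most `k` -/
def IsP : ℕ → (G → UnitAddCircle) → Prop
  | 0, P => ∀ x, P x = P 0
  | (k + 1), P => ∀ h, IsP k (Df h P)

lemma Df_add (h : G) (P Q : G → UnitAddCircle) : Df h (P + Q) = Df h P + Df h Q := by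
  funext x
  simp only [Df, Pi.add_apply]
  abel

lemma Df_neg (h : G) (P : G → UnitAddCircle) : Df h (-P) = -Df h P := by
  funext x
  simp only [Df, Pi.neg_apply]
  abel

lemma Df_zero (h : G) : Df h (0 : G → UnitAddCircle) = 0 := by
  funext x
  simp [Df]

lemma Df_zsmul (h : G) (n : ℤ) (P : G → UnitAddCircle) : Df h (n • P) = n • Df h P := by
  funext x
  simp only [Df, Pi.smul_apply, smul_sub]

lemma Df_comm (a b : G) (P : G → UnitAddCircle) : Df a (Df b P) = Df b (Df a P) := by
  funext x
  simp only [Df]
  rw [add_right_comm x a b]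
  abel

lemma Df_add_step (a b : G) (P : G → UnitAddCircle) :
    Df (a + b) P = Df a P + Df b P + Df a (Df b P) := by
  funext x
  simp only [Df, Pi.add_apply]
  rw [← add_assoc x a b]
  abel

lemma isP_zero (k : ℕ) : IsP k (0 : G → UnitAddCircle) := by
  induction k with
  | zero => intro x; rfl
  | succ k ih => intro h; rw [Df_zero]; exact ih

lemma IsP.add {k : ℕ} : ∀ {P Q : G → UnitAddCircle}, IsP k P → IsP k Q → IsP k (P + Q) := by
  induction k with
  | zero =>
    intro P Q hP hQ x
    rw [Pi.add_apply, Pi.add_apply, hP x, hQ x]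
  | succ k ih =>
    intro P Q hP hQ h
    rw [Df_add]
    exact ih (hP h) (hQ h)

lemma IsP.neg {k : ℕ} : ∀ {P : G → UnitAddCircle}, IsP k P → IsP k (-P) := by
  induction k with
  | zero =>
    intro P hP x
    rw [Pi.neg_apply, Pi.neg_apply, hP x]
  | succ k ih =>
    intro P hP h
    rw [Df_neg]
    exact ih (hP h)

lemma IsP.sub {k : ℕ} {P Q : G → UnitAddCircle} (hP : IsP k P) (hQ : IsP k Q) :
    IsP k (P - Q) := by
  rw [sub_eq_add_neg]
  exact hP.add hQ.neg

lemma IsP.zsmul {k : ℕ} (n : ℤ) : ∀ {P : G → UnitAddCircle}, IsP k P → IsP k (n • P) := by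
  induction k with
  | zero =>
    intro P hP x
    rw [Pi.smul_apply, Pi.smul_apply, hP x]
  | succ k ih =>
    intro P hP h
    rw [Df_zsmul]
    exact ih (hP h)

lemma IsP.sum {k : ℕ} {ι : Type*} (s : Finset ι) (P : ι → G → UnitAddCircle)
    (h : ∀ i ∈ s, IsP k (P i)) : IsP k (∑ i ∈ s, P i) := by
  classical
  induction s using Finset.induction_on with
  | empty => rw [sum_empty]; exact isP_zero k
  | insert a s ha ih =>
    rw [sum_insert ha]
    exact (h a (mem_insert_self _ _)).add (ih fun i hi => h i (mem_insert_of_mem hi))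

lemma IsP.shift {k : ℕ} (c : G) : ∀ {P : G → UnitAddCircle}, IsP k P →
    IsP k (fun x => P (x + c)) := by
  induction k with
  | zero =>
    intro P hP x
    show P (x + c) = P (0 + c)
    rw [hP (x + c), hP (0 + c)]
  | succ k ih =>
    intro P hP h
    have : Df h (fun x => P (x + c)) = fun x => Df h P (x + c) := by
      funext x
      simp only [Df]
      rw [add_right_comm x h c]
    rw [this]
    exact ih (hP h)

lemma IsP.df_zero {P : G → UnitAddCircle} (hP : IsP 0 P) (h : G) : Df h P = 0 := by
  funext x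
  simp only [Df, Pi.zero_apply]
  rw [hP (x + h), hP x, sub_self]

lemma IsP.mono {k : ℕ} : ∀ {P : G → UnitAddCircle}, IsP k P → IsP (k + 1) P := by
  induction k with
  | zero =>
    intro P hP h
    rw [hP.df_zero h]
    exact isP_zero 0
  | succ k ih =>
    intro P hP h
    exact ih (hP h)

lemma IsP.le {j k : ℕ} (hjk : j ≤ k) {P : G → UnitAddCircle} (h : IsP j P) : IsP k P := by
  induction k, hjk using Nat.le_induction with
  | base => exact h
  | succ n _ ih => exact ih.mono

lemma IsP.df {k : ℕ} {P : G → UnitAddCircle} (hP : IsP k P) (h : G) : IsP k (Df h P) :=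
  hP.mono h

/-- iterated differences -/
def Dl : List G → (G → UnitAddCircle) → (G → UnitAddCircle)
  | [], P => P
  | (h :: l), P => Dl l (Df h P)

lemma Dl_add (l : List G) : ∀ P Q : G → UnitAddCircle, Dl l (P + Q) = Dl l P + Dl l Q := by
  induction l with
  | nil => intro P Q; rfl
  | cons h l ih =>
    intro P Q
    show Dl l (Df h (P + Q)) = Dl l (Df h P) + Dl l (Df h Q)
    rw [Df_add, ih]

lemma Dl_eq_zero {j : ℕ} : ∀ (l : List G) (P : G → UnitAddCircle), l.length = j + 1 → IsP j P →
    Dl l P = 0 := by
  induction j with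
  | zero =>
    intro l P hl hP
    match l, hl with
    | [h], _ => exact hP.df_zero h
  | succ j ih =>
    intro l P hl hP
    match l, hl with
    | (h :: l), hl =>
      exact ih l (Df h P) (by simpa using hl) (hP h)

lemma isP_of_Dl {j : ℕ} : ∀ (P : G → UnitAddCircle), (∀ l : List G, l.length = j + 1 →
    Dl l P = 0) → IsP j P := by
  induction j with
  | zero =>
    intro P h x
    have h1 := congrFun (h [x] rfl) 0
    have h2 : P (0 + x) - P 0 = 0 := h1
    rw [zero_add, sub_eq_zero] at h2
    exact h2
  | succ j ih =>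
    intro P h a
    apply ih
    intro l hl
    exact h (a :: l) (by simpa using hl)

lemma Dl_const {j : ℕ} : ∀ (l : List G) (P : G → UnitAddCircle), l.length = j → IsP j P →
    IsP 0 (Dl l P) := by
  induction j with
  | zero =>
    intro l P hl hP
    match l, hl with
    | [], _ => exact hP
  | succ j ih =>
    intro l P hl hP
    match l, hl with
    | (h :: l), hl => exact ih l (Df h P) (by simpa using hl) (hP h)

/-- steps for which the difference has degree at most `j` -/
def Rad (j : ℕ) (Q : G → UnitAddCircle) : AddSubgroup G where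
  carrier := {h | IsP j (Df h Q)}
  zero_mem' := by
    show IsP j (Df 0 Q)
    have : Df 0 Q = 0 := by
      funext x
      simp [Df]
    rw [this]
    exact isP_zero j
  add_mem' := by
    intro a b ha hb
    show IsP j (Df (a + b) Q)
    rw [Df_add_step]
    exact (IsP.add ha hb).add (IsP.df hb a)
  neg_mem' := by
    intro a ha
    show IsP j (Df (-a) Q)
    have : Df (-a) Q = -(fun x => Df a Q (x + -a)) := by
      funext x
      simp only [Df, Pi.neg_apply]
      rw [neg_add_cancel_right]
      abel
    rw [this]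
    exact (IsP.shift (-a) ha).neg

lemma mem_Rad {j : ℕ} {Q : G → UnitAddCircle} {h : G} : h ∈ Rad j Q ↔ IsP j (Df h Q) := Iff.rfl

/-- the symbol on the radical extends to a homomorphism -/
lemma exists_symbol (Q : G → UnitAddCircle) (l : List G) :
    ∃ χ : G →+ UnitAddCircle, ∀ x ∈ Rad l.length Q, χ x = Dl l (Df x Q) 0 := by
  let f : Rad l.length Q →+ UnitAddCircle := AddMonoidHom.mk' (fun x => Dl l (Df (x : G) Q) 0) (by
    intro x y
    have h1 : Dl l (Df (x : G) (Df (y : G) Q)) = 0 := by
      have := Dl_eq_zero (j := l.length) ((x : G) :: l) (Df (y : G) Q) rfl y.2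
      exact this
    rw [AddSubgroup.coe_add, Df_add_step, Dl_add, Dl_add, h1, add_zero]
    rfl)
  obtain ⟨χ, hχ⟩ := (Module.Baer.of_divisible UnitAddCircle).extension_property_addMonoidHom
    (Rad l.length Q).subtype (Rad l.length Q).subtype_injective f
  exact ⟨χ, fun x hx => DFunLike.congr_fun hχ ⟨x, hx⟩⟩

/-! ### torsion free differences -/

/-- torsion free subgroup -/
def TF (Λ : AddSubgroup UnitAddCircle) : Prop :=
  ∀ y ∈ Λ, ∀ t : ℕ, 1 ≤ t → t • y = 0 → y = 0

lemma tf_step {Λ : AddSubgroup UnitAddCircle} (hΛ : TF Λ) (h : G) {t : ℕ} (ht : 1 ≤ t) {k : ℕ} :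
    ∀ P : G → UnitAddCircle, IsP k P → (∀ x, Df h P x ∈ Λ) → Df (t • h) P = 0 → Df h P = 0 := by
  induction k with
  | zero => intro P hP _ _; exact hP.df_zero h
  | succ k ih =>
    intro P hP hPΛ h0
    have h1 : Df h (Df h P) = 0 := by
      apply ih (Df h P) (hP h)
      · intro x
        exact Λ.sub_mem (hPΛ _) (hPΛ _)
      · rw [Df_comm, h0, Df_zero]
    have h2 : ∀ (s : ℕ) (x : G), Df h P (x + s • h) = Df h P x := by
      intro s
      induction s with
      | zero => intro x; rw [zero_smul, add_zero]
      | succ s ihs =>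
        intro x
        have h3 := congrFun h1 (x + s • h)
        have h4 : Df h P (x + s • h + h) - Df h P (x + s • h) = 0 := h3
        rw [succ_nsmul, ← add_assoc, sub_eq_zero.1 h4, ihs]
    have h3 : ∀ (s : ℕ) (x : G), P (x + s • h) - P x = s • Df h P x := by
      intro s
      induction s with
      | zero => intro x; simp
      | succ s ihs =>
        intro x
        have h4 : P (x + (s + 1) • h) - P x =
            Df h P (x + s • h) + (P (x + s • h) - P x) := by
          rw [succ_nsmul, ← add_assoc]
          simp only [Df]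
          abel
        rw [h4, h2, ihs, succ_nsmul, add_comm]
    funext x
    apply hΛ _ (hPΛ x) t ht
    rw [← h3 t x]
    exact congrFun h0 x

/-- multiples of a step with nonconstant difference have nonconstant differences -/
lemma tf_nonconst {Λ : AddSubgroup UnitAddCircle} (hΛ : TF Λ) (h : G) {t : ℕ} (ht : 1 ≤ t) {k : ℕ}
    {P : G → UnitAddCircle} (hP : IsP (k + 1) P) (hPΛ : ∀ a b x, Df a (Df b P) x ∈ Λ)
    (hne : ¬ IsP 0 (Df h P)) : ¬ IsP 0 (Df (t • h) P) := by
  intro hc
  apply hne
  intro x
  have h1 : Df h (Df x P) = 0 := by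
    apply tf_step hΛ h ht (Df x P) (hP x)
    · intro y
      exact hPΛ h x y
    · rw [Df_comm]
      exact hc.df_zero x
  rw [Df_comm] at h1
  have h2 : Df h P (0 + x) - Df h P 0 = 0 := congrFun h1 0
  rw [zero_add, sub_eq_zero] at h2
  exact h2

end Pool.Agent.Work.MP_0f91f8_co.Quad
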