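import Pool.Agent.Work.MP_0f91f8_co.BohrRot

/-!
Twisted Bohr recurrence of Pythagorean triples: for a completely multiplicative function `f` with
values in a compact abelian group and a positive rational `κ` there is a Pythagorean triple of
positive rationals with `f (X / Z)` close to `1` and `f (Y / Z)` close to `f κ`.
-/

open Filter Topology

namespace Pool.Agent.Work.MP_0f91f8_co.Quad

open Bohr

variable {K : Type*} [CommGroup K] [TopologicalSpace K] [IsTopologicalGroup K] [CompactSpace K]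

lemma summable_empty : Summable (wt ∅) := by
  have : wt ∅ = fun _ => 0 := by
    funext q
    simp [wt]
  rw [this]
  exact summable_zero

lemma exists_tau_twist {f : ℕ → K} (hf : ∀ m n : ℕ, 0 < m → 0 < n → f (m * n) = f m * f n)
    (κ : ℚ) (hκ : 0 < κ) (V : Set K) (hV : V ∈ 𝓝 (1 : K)) (ε : ℚ) (hε : 0 < ε) (Λ : Finset ℚ) :
    ∃ τ : ℚ, 0 < τ ∧ gq f (τ / κ) ∈ V ∧ (∀ l ∈ Λ, Near f ∅ V ε (1 + l * τ)) := by
  classical
  obtain ⟨τ, hτ, -, hτV, hτN, -⟩ := exists_tau hf (Q := ∅) (by simp) summable_empty V hV ε hε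
    (Λ.image (fun l => l * κ))
  refine ⟨τ * κ, mul_pos hτ hκ, ?_, ?_⟩
  · rwa [mul_div_assoc, div_self hκ.ne', mul_one]
  · intro l hl
    have := hτN (l * κ) (Finset.mem_image_of_mem _ hl)
    have he : l * κ * τ = l * (τ * κ) := by ring
    rwa [he] at this

theorem twisted {f : ℕ → K} (hf : ∀ m n : ℕ, 0 < m → 0 < n → f (m * n) = f m * f n)
    (κ : ℚ) (hκ : 0 < κ) (V₀ : Set K) (hV₀ : V₀ ∈ 𝓝 (1 : K)) :
    ∃ X Y Z : ℚ, 0 < X ∧ 0 < Y ∧ 0 < Z ∧ X ^ 2 + Y ^ 2 = Z ^ 2 ∧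
      gq f (X / Z) ∈ V₀ ∧ gq f (Y / Z) * (gq f κ)⁻¹ ∈ V₀ := by
  classical
  have hQ : ∀ q ∈ (∅ : Set ℕ), q.Prime := by simp
  -- neighbourhoods
  obtain ⟨V₁, hV₁, hV4⟩ := exists_nhds_one_split4 hV₀
  obtain ⟨V, hVdef⟩ : ∃ V : Set K, V = V₁ ∩ V₁⁻¹ := ⟨_, rfl⟩
  have hV : V ∈ 𝓝 (1 : K) := by
    rw [hVdef]
    exact inter_mem hV₁ (inv_mem_nhds_one K hV₁)
  have hVinv : ∀ v ∈ V, v⁻¹ ∈ V₁ := by
    intro v hv
    rw [hVdef] at hv
    exact Set.mem_inv.1 hv.2
  have hVsub : ∀ v ∈ V, v ∈ V₁ := by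
    intro v hv
    rw [hVdef] at hv
    exact hv.1
  have hV1 : (1 : K) ∈ V := mem_of_mem_nhds hV
  obtain ⟨W, hW0, hWn, hWm⟩ := exists_nhds_seq V hV
  obtain ⟨e, he0, he1, he3, heε⟩ := exists_eps 1 one_pos
  have hW1 : ∀ k, (1 : K) ∈ W k := fun k => mem_of_mem_nhds (hWn k)
  have hmono : ∀ k, W k ⊆ V := fun k => by
    have := seq_mono hW1 hWm (Nat.zero_le k)
    rwa [hW0] at this
  -- the sequence of multipliers
  have hex : ∀ (k : ℕ) (S : Finset (ℚ × ℚ)), ∃ τ : ℚ, 0 < τ ∧ gq f (τ / κ) ∈ W (k + 1) ∧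
      (∀ l ∈ lamS S, Near f ∅ (W (k + 1)) (e (k + 1)) (1 + l * τ)) :=
    fun k S => exists_tau_twist hf κ hκ (W (k + 1)) (hWn _) (e (k + 1)) (he0 _) (lamS S)
  choose nxt hnxt using hex
  obtain ⟨st, hst0, hst⟩ : ∃ st : ℕ → Finset (ℚ × ℚ), st 0 = {(1, 0)} ∧
      ∀ k, st (k + 1) = insert (1, 0) ((st k).image (rot (nxt k (st k)))) :=
    ⟨fun k => Nat.rec {(1, 0)} (fun k S => insert (1, 0) (S.image (rot (nxt k S)))) k,
      rfl, fun _ => rfl⟩
  have hst1 : ∀ k, ((1, 0) : ℚ × ℚ) ∈ st k := by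
    intro k
    cases k with
    | zero => rw [hst0]; exact Finset.mem_singleton_self _
    | succ k => rw [hst]; exact Finset.mem_insert_self _ _
  set τ : ℕ → ℚ := fun k => nxt k (st k) with hτ
  have hτpos : ∀ k, 0 < τ k := fun k => (hnxt k (st k)).1
  have hτmem : ∀ k, gq f (τ k / κ) ∈ W (k + 1) := fun k => (hnxt k (st k)).2.1
  have hτnear : ∀ k, ∀ l ∈ lamS (st k), Near f ∅ (W (k + 1)) (e (k + 1)) (1 + l * τ k) :=
    fun k => (hnxt k (st k)).2.2
  -- norms
  set w : ℕ → ℚ := fun k => 1 + (1 / 2 * τ k) ^ 2 with hw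
  have hwpos : ∀ k, 0 < w k := fun k => by simp only [hw]; positivity
  obtain ⟨R, hR⟩ := exists_rec V hV
  obtain ⟨i, j, hij, -, hP⟩ := hR (fun n => ∏ t ∈ Finset.range n, gq f (w t))
  obtain ⟨n, rfl⟩ : ∃ n, j = i + (n + 1) := ⟨j - i - 1, by omega⟩
  have hnormmem : gq f (∏ t ∈ Finset.range (n + 1), w (i + t)) ∈ V := by
    rw [gq_prod hf _ _ (fun t _ => hwpos _)]
    have h1 : (∏ t ∈ Finset.range i, gq f (w t))⁻¹ * ∏ t ∈ Finset.range (i + (n + 1)), gq f (w t) =
        ∏ t ∈ Finset.range (n + 1), gq f (w (i + t)) := by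
      rw [Finset.prod_range_add, inv_mul_cancel_left]
    rw [← h1]
    exact hP
  -- the chain of states starting at time i
  obtain ⟨z, hz0, hzs⟩ : ∃ z : ℕ → ℚ × ℚ, z 0 = (1, 0) ∧
      ∀ k, z (k + 1) = rot (τ (i + k)) (z k) :=
    ⟨fun k => Nat.rec (1, 0) (fun k y => rot (τ (i + k)) y) k, rfl, fun _ => rfl⟩
  have hzmem : ∀ k, z k ∈ st (i + k) := by
    intro k
    induction k with
    | zero => rw [hz0]; exact hst1 _
    | succ k ih =>
      rw [hzs]
      have h1 : st (i + (k + 1)) = insert (1, 0) ((st (i + k)).image (rot (τ (i + k)))) :=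
        hst (i + k)
      rw [h1]
      exact Finset.mem_insert_of_mem (Finset.mem_image_of_mem _ ih)
  have hlam : ∀ k, ∀ l ∈ lam (z k),
      Near f ∅ (W (i + k + 1)) (e (i + k + 1)) (1 + l * τ (i + k)) := by
    intro k l hl
    apply hτnear
    exact Finset.mem_insert_of_mem (Finset.mem_biUnion.2 ⟨z k, hzmem k, hl⟩)
  set uM : ℕ → ℚ := fun k => 1 + (-(z k).2 / (2 * (z k).1)) * τ (i + k) with huM
  set uN : ℕ → ℚ := fun k => 1 + ((z k).1 / (2 * (z k).2)) * τ (i + k) with huN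
  set uD : ℕ → ℚ := fun k =>
    1 + (-((z k).1 + (z k).2) / (2 * ((z k).1 - (z k).2))) * τ (i + k) with huD
  set uS : ℕ → ℚ := fun k =>
    1 + (((z k).1 - (z k).2) / (2 * ((z k).1 + (z k).2))) * τ (i + k) with huS
  have hM : ∀ k, Near f ∅ (W (i + k + 1)) (e (i + k + 1)) (uM k) := fun k =>
    hlam k _ (by simp [lam])
  have hN : ∀ k, Near f ∅ (W (i + k + 1)) (e (i + k + 1)) (uN k) := fun k =>
    hlam k _ (by simp [lam])
  have hD : ∀ k, Near f ∅ (W (i + k + 1)) (e (i + k + 1)) (uD k) := fun k =>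
    hlam k _ (by simp [lam])
  have hS : ∀ k, Near f ∅ (W (i + k + 1)) (e (i + k + 1)) (uS k) := fun k =>
    hlam k _ (by simp [lam])
  have hprodM : ∀ k, (z k).1 = ∏ t ∈ Finset.range k, uM t := by
    intro k
    induction k with
    | zero => simp [hz0]
    | succ k ih =>
      rw [Finset.prod_range_succ, ← ih, hzs]
      have hne : (z k).1 ≠ 0 := by
        rw [ih]; exact (Finset.prod_pos fun t _ => (hM t).pos).ne'
      simp only [rot, huM]
      field_simp
      ring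
  have hMpos : ∀ k, 0 < (z k).1 := fun k => by
    rw [hprodM]; exact Finset.prod_pos fun t _ => (hM t).pos
  have hprodD : ∀ k, (z k).1 - (z k).2 = ∏ t ∈ Finset.range k, uD t := by
    intro k
    induction k with
    | zero => simp [hz0]
    | succ k ih =>
      rw [Finset.prod_range_succ, ← ih, hzs]
      have hne : (z k).1 - (z k).2 ≠ 0 := by
        rw [ih]; exact (Finset.prod_pos fun t _ => (hD t).pos).ne'
      simp only [rot, huD]
      field_simp
      ring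
  have hprodS : ∀ k, (z k).1 + (z k).2 = ∏ t ∈ Finset.range k, uS t := by
    intro k
    induction k with
    | zero => simp [hz0]
    | succ k ih =>
      rw [Finset.prod_range_succ, ← ih, hzs]
      have hne : (z k).1 + (z k).2 ≠ 0 := by
        rw [ih]; exact (Finset.prod_pos fun t _ => (hS t).pos).ne'
      simp only [rot, huS]
      field_simp
      ring
  have hprodN : ∀ k, 2 * (z (k + 1)).2 = τ i * ∏ t ∈ Finset.range k, uN (t + 1) := by
    intro k
    induction k with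
    | zero =>
      simp only [hzs, hz0, rot]
      simp
      ring
    | succ k ih =>
      rw [Finset.prod_range_succ, ← mul_assoc, ← ih, hzs (k + 1)]
      have hne : (z (k + 1)).2 ≠ 0 := by
        intro h0
        rw [h0] at ih
        have : 0 < τ i * ∏ t ∈ Finset.range k, uN (t + 1) :=
          mul_pos (hτpos i) (Finset.prod_pos fun t _ => (hN (t + 1)).pos)
        rw [← ih] at this
        simp at this
      simp only [rot, huN]
      field_simp
  have hprodZ : ∀ k, (z k).1 ^ 2 + (z k).2 ^ 2 = ∏ t ∈ Finset.range k, w (i + t) := by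
    intro k
    induction k with
    | zero => simp [hz0]
    | succ k ih =>
      rw [Finset.prod_range_succ, ← ih, hzs]
      simp only [rot, hw]
      ring
  -- the four forms
  have nearM : Near f ∅ V (e i) (z (n + 1)).1 := by
    rw [hprodM]
    have := near_prod_range hf hQ hW1 hWm he0 he1 he3 (n + 1) i uM (fun t _ => hM t)
    exact this.mono (hmono _) le_rfl
  have nearD : Near f ∅ V (e i) ((z (n + 1)).1 - (z (n + 1)).2) := by
    rw [hprodD]
    have := near_prod_range hf hQ hW1 hWm he0 he1 he3 (n + 1) i uD (fun t _ => hD t)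
    exact this.mono (hmono _) le_rfl
  have nearS : Near f ∅ V (e i) ((z (n + 1)).1 + (z (n + 1)).2) := by
    rw [hprodS]
    have := near_prod_range hf hQ hW1 hWm he0 he1 he3 (n + 1) i uS (fun t _ => hS t)
    exact this.mono (hmono _) le_rfl
  obtain ⟨ν, hν⟩ : ∃ ν : ℚ, ν = ∏ t ∈ Finset.range n, uN (t + 1) := ⟨_, rfl⟩
  have nearN : Near f ∅ V (e (i + 1)) ν := by
    rw [hν]
    have := near_prod_range hf hQ hW1 hWm he0 he1 he3 n (i + 1) (fun t => uN (t + 1))
      (fun t _ => by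
        have := hN (t + 1)
        have he : i + 1 + t + 1 = i + (t + 1) + 1 := by ring
        rw [he]
        exact this)
    exact this.mono (hmono _) le_rfl
  have hzy : 2 * (z (n + 1)).2 = τ i * ν := by rw [hprodN, hν]
  have hz2pos : 0 < (z (n + 1)).2 := by
    have : 0 < τ i * ν := mul_pos (hτpos i) nearN.pos
    linarith
  have hτV : gq f (τ i / κ) ∈ V := hmono _ (hτmem i)
  obtain ⟨M, hMdef⟩ : ∃ M : ℚ, M = (z (n + 1)).1 := ⟨_, rfl⟩
  obtain ⟨N, hNdef⟩ : ∃ N : ℚ, N = (z (n + 1)).2 := ⟨_, rfl⟩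
  rw [← hMdef] at nearM
  rw [← hMdef, ← hNdef] at nearD nearS
  rw [← hNdef] at hzy hz2pos
  have hnormmem' : gq f (M ^ 2 + N ^ 2) ∈ V := by
    rw [hMdef, hNdef, hprodZ]
    exact hnormmem
  have hZpos : 0 < M ^ 2 + N ^ 2 := by
    have := nearM.pos
    positivity
  have hXpos : 0 < (M - N) * (M + N) := mul_pos nearD.pos nearS.pos
  have hYpos : 0 < τ i * (M * ν) := mul_pos (hτpos i) (mul_pos nearM.pos nearN.pos)
  have hinv : ∀ q : ℚ, 0 < q → gq f q⁻¹ = (gq f q)⁻¹ := by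
    intro q hq
    rw [eq_inv_iff_mul_eq_one, ← gq_mul hf (inv_pos.2 hq) hq, inv_mul_cancel₀ hq.ne', gq_one hf]
  have hdiv : ∀ p q : ℚ, 0 < p → 0 < q → gq f (p / q) = gq f p * (gq f q)⁻¹ := by
    intro p q hp hq
    rw [div_eq_mul_inv, gq_mul hf hp (inv_pos.2 hq), hinv q hq]
  refine ⟨(M - N) * (M + N), τ i * (M * ν), M ^ 2 + N ^ 2, hXpos, hYpos, hZpos, ?_, ?_, ?_⟩
  · have h1 : τ i * (M * ν) = 2 * M * N := by
      have : τ i * (M * ν) = M * (τ i * ν) := by ring
      rw [this, ← hzy]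
      ring
    rw [h1]
    ring
  · rw [hdiv _ _ hXpos hZpos, gq_mul hf nearD.pos nearS.pos]
    have := hV4 (hVsub _ nearD.mem) (hVsub _ nearS.mem) (hVinv _ hnormmem') (hVsub _ hV1)
    simpa using this
  · rw [hdiv _ _ hYpos hZpos, gq_mul hf (hτpos i) (mul_pos nearM.pos nearN.pos),
      gq_mul hf nearM.pos nearN.pos]
    rw [hdiv _ _ (hτpos i) hκ] at hτV
    have := hV4 (hVsub _ hτV) (hVsub _ nearM.mem) (hVsub _ nearN.mem) (hVinv _ hnormmem')
    have he : gq f (τ i) * (gq f M * gq f ν) * (gq f (M ^ 2 + N ^ 2))⁻¹ * (gq f κ)⁻¹ =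
        gq f (τ i) * (gq f κ)⁻¹ * gq f M * gq f ν * (gq f (M ^ 2 + N ^ 2))⁻¹ := by
      simp only [mul_assoc, mul_comm, mul_left_comm]
    rw [he]
    exact this

end Pool.Agent.Work.MP_0f91f8_co.Quad
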